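import Pool.Agent.H489.CU.N5

/-!
Assembly: elementary facts on integer relations.
-/

open Complex Filter Topology Polynomial
open scoped Polynomial.Bivariate

namespace Pool.Agent.H489.CU

lemma aeval_ne {x : ℂ} (hx : Transcendental ℤ x) {q : ℤ[X]} (hq : q ≠ 0) : aeval x q ≠ 0 := by
  intro h
  exact hx ⟨q, hq, h⟩

lemma fin_y {P : ℤ[X][X]} (hP : P ≠ 0) {x : ℂ} (hx : Transcendental ℤ x) :
    {y : ℂ | evZ P x y = 0}.Finite := by
  set F : ℂ[X] := P.map (aeval x : ℤ[X] →ₐ[ℤ] ℂ).toRingHom with hF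
  have hF0 : F ≠ 0 := by
    intro h0
    have h1 : F.coeff P.natDegree = 0 := by rw [h0, coeff_zero]
    rw [hF, coeff_map] at h1
    exact aeval_ne hx (leadingCoeff_ne_zero.2 hP) h1
  refine (F.roots.toFinset.finite_toSet).subset fun y hy => ?_
  have hy' : evZ P x y = 0 := hy
  have h2 : F.eval y = 0 := by
    rw [← hy', evZ_eq_sum, hF, eval_eq_sum_range' (n := P.natDegree + 1)
      (Nat.lt_succ_of_le natDegree_map_le)]
    refine Finset.sum_congr rfl fun j _ => ?_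
    rw [coeff_map]
    rfl
  simp [hF0, h2]

lemma evZ_hom (Q : ℤ[X][Y]) (a b : ℂ) : evZ Q a b = aevalAeval a b Q := by
  have h : ((evalEvalRingHom a b).comp (mapRingHom (mapRingHom (Int.castRingHom ℂ)))) =
      (aevalAeval a b : ℤ[X][Y] →ₐ[ℤ] ℂ).toRingHom := by
    ext <;> simp
  exact congrFun (congrArg DFunLike.coe h) Q

lemma evZ_swap (P : ℤ[X][Y]) (x y : ℂ) : evZ (Bivariate.swap P) x y = evZ P y x := by
  rw [evZ_hom, evZ_hom, Bivariate.aevalAeval_swap]

lemma fin_x {P : ℤ[X][X]} (hP : P ≠ 0) {y : ℂ} (hy : Transcendental ℤ y) :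
    {x : ℂ | evZ P x y = 0}.Finite := by
  have hs : Bivariate.swap P ≠ 0 := by
    intro h
    exact hP ((map_eq_zero_iff _ (Bivariate.swap (R := ℤ)).injective).1 h)
  refine (fin_y hs hy).subset fun x hx => ?_
  have hx' : evZ P x y = 0 := hx
  show evZ (Bivariate.swap P) y x = 0
  rw [evZ_swap]
  exact hx'

/-- the relation in terms of `1 / Γ` -/
noncomputable def rv (Q : ℤ[X][X]) (y : ℂ) : ℂ :=
  ∑ j ∈ Finset.range (Q.natDegree + 1), aeval y (Q.coeff j) * ((Gamma y)⁻¹) ^ (Q.natDegree - j)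

lemma rv_differentiable (Q : ℤ[X][X]) : Differentiable ℂ (rv Q) := by
  unfold rv
  apply Differentiable.fun_sum
  intro j _
  refine Differentiable.mul ?_ (Differentiable.pow Complex.differentiable_one_div_Gamma _)
  have h1 : (fun y : ℂ => aeval y (Q.coeff j)) = fun y => ((Q.coeff j).map (algebraMap ℤ ℂ)).eval y := by
    funext y
    rw [aeval_def, eval₂_eq_eval_map]
  rw [h1]
  exact Polynomial.differentiable _

lemma rv_zero {Q : ℤ[X][X]} {y : ℂ} (hG : Gamma y ≠ 0) (h : evZ Q y (Gamma y) = 0) :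
    rv Q y = 0 := by
  have h1 : rv Q y = ((Gamma y)⁻¹) ^ Q.natDegree * evZ Q y (Gamma y) := by
    rw [evZ_eq_sum, Finset.mul_sum]
    unfold rv
    refine Finset.sum_congr rfl fun j hj => ?_
    rw [Finset.mem_range] at hj
    have h2 : ((Gamma y)⁻¹) ^ Q.natDegree = ((Gamma y)⁻¹) ^ (Q.natDegree - j) *
        ((Gamma y)⁻¹) ^ j := by
      rw [← pow_add]
      congr 1
      omega
    rw [h2]
    have h3 : ((Gamma y)⁻¹) ^ j * (Gamma y) ^ j = 1 := by
      rw [← mul_pow, inv_mul_cancel₀ hG, one_pow]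
    linear_combination (-(aeval y (Q.coeff j) * ((Gamma y)⁻¹) ^ (Q.natDegree - j))) * h3
  rw [h1, h, mul_zero]

lemma rv_pole (Q : ℤ[X][X]) (k : ℕ) : rv Q (-(k : ℂ)) = aeval (-(k : ℂ)) Q.leadingCoeff := by
  unfold rv
  rw [Gamma_neg_nat_eq_zero, inv_zero, Finset.sum_range_succ, Nat.sub_self, pow_zero, mul_one,
    Finset.sum_eq_zero, zero_add]
  · rfl
  · intro j hj
    rw [Finset.mem_range] at hj
    rw [zero_pow (by omega), mul_zero]

lemma zset_finite {Q : ℤ[X][X]} (hQ : Q ≠ 0) (B : ℝ) : {y : ℂ | rv Q y = 0 ∧ ‖y‖ ≤ B}.Finite := by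
  by_contra hinf
  have hinf' : {y : ℂ | rv Q y = 0 ∧ ‖y‖ ≤ B}.Infinite := hinf
  have hcomp : IsCompact (Metric.closedBall (0 : ℂ) B) := isCompact_closedBall _ _
  obtain ⟨x, -, hx⟩ := hinf'.exists_accPt_of_subset_isCompact hcomp (fun y hy => by
    rw [mem_closedBall_zero_iff]
    exact hy.2)
  have hfreq : ∃ᶠ y in 𝓝[≠] x, rv Q y = 0 := by
    rw [accPt_iff_frequently_nhdsNE] at hx
    exact hx.mono fun y hy => hy.1
  have han : AnalyticOnNhd ℂ (rv Q) Set.univ := fun y _ => (rv_differentiable Q).analyticAt y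
  have hzero := han.eqOn_zero_of_preconnected_of_frequently_eq_zero isPreconnected_univ
    (Set.mem_univ x) hfreq
  have hlc : Q.leadingCoeff ≠ 0 := leadingCoeff_ne_zero.2 hQ
  have hmap : Q.leadingCoeff.map (algebraMap ℤ ℂ) ≠ 0 :=
    (Polynomial.map_ne_zero_iff (algebraMap ℤ ℂ).injective_int).2 hlc
  have hinf2 : Set.Infinite {y : ℂ | (Q.leadingCoeff.map (algebraMap ℤ ℂ)).eval y = 0} := by
    have h1 : Set.Infinite (Set.range fun k : ℕ => -(k : ℂ)) := by
      apply Set.infinite_range_of_injective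
      intro a b hab
      simpa using hab
    refine h1.mono ?_
    rintro _ ⟨k, rfl⟩
    have h2 : rv Q (-(k : ℂ)) = 0 := hzero (Set.mem_univ (-(k : ℂ)))
    rw [rv_pole, aeval_def, eval₂_eq_eval_map] at h2
    exact h2
  apply hinf2
  refine ((Q.leadingCoeff.map (algebraMap ℤ ℂ)).roots.toFinset.finite_toSet).subset fun y hy => ?_
  have hy' : (Q.leadingCoeff.map (algebraMap ℤ ℂ)).eval y = 0 := hy
  rw [Finset.mem_coe, Multiset.mem_toFinset, mem_roots hmap]
  exact hy'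

end Pool.Agent.H489.CU
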