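import Pool.Agent.H489.CU.A1
import Pool.Agent.H489.GI.Alg
import Pool.Graph.R_pool_sql_team_seeded_b3bd081e.H734R3.Fib.Puiseux

/-!
Assembly: algebraic functions along an ultrafilter are Puiseux series.
-/

open Complex Filter Topology Polynomial
open scoped Polynomial.Bivariate

namespace Pool.Agent.H489.CU

open Pool.Agent.H489.GI.G

lemma irrU {α : Type*} (U : Ultrafilter α) (x w : α → ℂ) (Q : ℂ[X][Y]) : Q ≠ 0 →
    (∀ᶠ s in (U : Filter α), ev Q (x s) (w s) = 0) →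
    ∃ A : ℂ[X][Y], Irreducible A ∧ ∀ᶠ s in (U : Filter α), ev A (x s) (w s) = 0 := by
  refine WfDvdMonoid.induction_on_irreducible Q ?_ ?_ ?_
  · intro h; exact absurd rfl h
  · intro u hu _ h
    exfalso
    obtain ⟨s, hs⟩ := h.exists
    have h1 : IsUnit (ev u (x s) (w s)) := by
      have := hu.map (evalEvalRingHom (x s) (w s))
      exact this
    rw [hs] at h1
    exact not_isUnit_zero h1
  · intro A i hA hi ih hne h
    have h1 : ∀ᶠ s in (U : Filter α), ev i (x s) (w s) = 0 ∨ ev A (x s) (w s) = 0 := by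
      filter_upwards [h] with s hs
      rw [ev_mul] at hs
      exact mul_eq_zero.1 hs
    rcases Ultrafilter.eventually_or.1 h1 with h2 | h2
    · exact ⟨i, hi, h2⟩
    · exact ih hA h2

lemma mero_bd {f : ℂ → ℂ} (hf : MeromorphicAt f 0) : ∃ (M : ℕ) (C : ℝ), 0 ≤ C ∧
    ∀ᶠ z in 𝓝[≠] (0 : ℂ), ‖f z‖ * ‖z‖ ^ M ≤ C := by
  obtain ⟨n, hn⟩ := hf
  have h1 := hn.continuousAt.norm
  refine ⟨n, ‖(fun z : ℂ => (z - 0) ^ n • f z) 0‖ + 1, by positivity, ?_⟩
  have h2 := h1.eventually_lt_const (lt_add_one ‖(fun z : ℂ => (z - 0) ^ n • f z) 0‖)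
  filter_upwards [nhdsWithin_le_nhds h2] with z hz
  have e1 : ‖(z - 0) ^ n • f z‖ = ‖f z‖ * ‖z‖ ^ n := by
    rw [sub_zero, smul_eq_mul, norm_mul, norm_pow, mul_comm]
  rw [← e1]
  exact hz.le

lemma mero_poly (q : ℂ[X]) {b : ℂ → ℂ} {x : ℂ} (hb : MeromorphicAt b x) :
    MeromorphicAt (fun z => q.eval (b z)) x := by
  have h1 : (fun z => q.eval (b z)) = fun z => ∑ i ∈ Finset.range (q.natDegree + 1),
      q.coeff i * (b z) ^ i := by
    funext z
    rw [eval_eq_sum_range]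
  rw [h1]
  apply MeromorphicAt.fun_sum
  intro i _
  exact (MeromorphicAt.const _ _).mul (hb.pow i)

lemma root_bd {p : ℂ[X]} {v : ℂ} (hv : p.eval v = 0) (hl : p.leadingCoeff ≠ 0) :
    ‖v‖ ≤ 1 + ∑ i ∈ Finset.range p.natDegree, ‖p.coeff i / p.leadingCoeff‖ := by
  have hS : 0 ≤ ∑ i ∈ Finset.range p.natDegree, ‖p.coeff i / p.leadingCoeff‖ :=
    Finset.sum_nonneg fun _ _ => norm_nonneg _
  rcases le_or_gt ‖v‖ 1 with h1 | h1
  · linarith
  have hd : p.natDegree ≠ 0 := by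
    intro h0
    rw [eq_C_of_natDegree_eq_zero h0, eval_C] at hv
    rw [leadingCoeff, h0] at hl
    exact hl hv
  rw [eval_eq_sum_range, Finset.sum_range_succ] at hv
  have h2 : v ^ p.natDegree = -∑ i ∈ Finset.range p.natDegree, (p.coeff i / p.leadingCoeff) * v ^ i := by
    have h3 : p.leadingCoeff * v ^ p.natDegree = -∑ i ∈ Finset.range p.natDegree,
        p.coeff i * v ^ i := by
      rw [leadingCoeff]
      linear_combination hv
    have h4 : v ^ p.natDegree = (p.leadingCoeff * v ^ p.natDegree) / p.leadingCoeff := by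
      field_simp
    rw [h4, h3, neg_div, Finset.sum_div]
    congr 1
    refine Finset.sum_congr rfl fun i _ => ?_
    ring
  have h3 : ‖v‖ ^ p.natDegree ≤ (∑ i ∈ Finset.range p.natDegree, ‖p.coeff i / p.leadingCoeff‖) *
      ‖v‖ ^ (p.natDegree - 1) := by
    rw [← norm_pow, h2, norm_neg, Finset.sum_mul]
    refine (norm_sum_le _ _).trans (Finset.sum_le_sum fun i hi => ?_)
    rw [norm_mul, norm_pow]
    rw [Finset.mem_range] at hi
    exact mul_le_mul_of_nonneg_left (pow_le_pow_right₀ h1.le (by omega)) (norm_nonneg _)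
  have h4 : ‖v‖ ^ p.natDegree = ‖v‖ * ‖v‖ ^ (p.natDegree - 1) := by
    rw [← pow_succ']
    congr 1
    omega
  rw [h4] at h3
  have h5 : 0 < ‖v‖ ^ (p.natDegree - 1) := by positivity
  have := le_of_mul_le_mul_right h3 h5
  linarith

lemma tt_mul_pow {e N : ℕ} (hN : 0 < N) (s : ℂ) : (tt (e * N) s) ^ N = tt e s := by
  unfold tt
  rw [← exp_nat_mul]
  congr 1
  have : (N : ℂ) ≠ 0 := by exact_mod_cast hN.ne'
  push_cast
  field_simp

lemma poly_ne_ev {q : ℂ[X]} (hq : q ≠ 0) {b : ℂ → ℂ} {𝓖 : Filter ℂ}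
    (hbc : ∀ v : ℂ, ∀ᶠ z in 𝓖, b z ≠ v) : ∀ᶠ z in 𝓖, q.eval (b z) ≠ 0 := by
  have h1 : ∀ᶠ z in 𝓖, ∀ v ∈ q.roots.toFinset, b z ≠ v :=
    (Finset.eventually_all _).2 fun v _ => hbc v
  filter_upwards [h1] with z hz h0
  exact hz (b z) (by
    rw [Multiset.mem_toFinset, mem_roots hq]
    exact h0) rfl

/-- algebraic functions along an ultrafilter are Puiseux series -/
theorem pz (U : Ultrafilter ℂ) (h : Str (U : Filter ℂ)) {e : ℕ} (he : 0 < e) {b : ℂ → ℂ}
    (hb : MeromorphicAt b 0) (hbc : ∀ v : ℂ, ∀ᶠ t in 𝓝[≠] (0 : ℂ), b t ≠ v) {w : ℂ → ℂ}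
    {G : ℂ[X][Y]} (hG : G ≠ 0) (hrel : ∀ᶠ s in (U : Filter ℂ), ev G (b (tt e s)) (w s) = 0) :
    ∃ (N : ℕ) (c : ℂ → ℂ), 0 < N ∧ MeromorphicAt c 0 ∧
      ∀ᶠ s in (U : Filter ℂ), w s = c (tt (e * N) s) := by
  obtain ⟨A, hA, hAr⟩ := irrU U (fun s => b (tt e s)) w G hG hrel
  have hbU : ∀ v : ℂ, ∀ᶠ s in (U : Filter ℂ), b (tt e s) ≠ v := fun v =>
    (h.zero he).eventually (hbc v)
  have hd : A.natDegree ≠ 0 := by
    intro hd
    have h1 := eq_C_of_natDegree_eq_zero hd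
    have hq : A.coeff 0 ≠ 0 := by
      intro h2
      rw [h2, map_zero] at h1
      exact hA.ne_zero h1
    have h2 := poly_ne_ev hq hbU
    obtain ⟨s, hs1, hs2⟩ := (hAr.and h2).exists
    rw [h1, ev_C] at hs1
    exact hs2 hs1
  obtain ⟨S, T, D, hD, hbez⟩ := irr_bezout hA hd
  have hlc : A.leadingCoeff ≠ 0 := leadingCoeff_ne_zero.2 hA.ne_zero
  -- the family
  set p : ℂ → ℂ[X] := fun z => A.map (evalRingHom (b z)) with hp
  have hcoeff : ∀ z i, (p z).coeff i = (A.coeff i).eval (b z) := by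
    intro z i
    rw [hp]
    simp only [coeff_map, coe_evalRingHom]
  have hF : ∀ i, MeromorphicAt (fun z => (A.coeff i).eval (b z) / A.leadingCoeff.eval (b z)) 0 :=
    fun i => (mero_poly _ hb).div (mero_poly _ hb)
  choose M Cb hCb hbd using fun i => mero_bd (hF i)
  have hgood : ∀ᶠ z in 𝓝[≠] (0 : ℂ), AnalyticAt ℂ b z ∧ A.leadingCoeff.eval (b z) ≠ 0 ∧
      D.eval (b z) ≠ 0 ∧ ‖z‖ < 1 ∧ ∀ i ∈ Finset.range A.natDegree,
      ‖(A.coeff i).eval (b z) / A.leadingCoeff.eval (b z)‖ * ‖z‖ ^ (M i) ≤ Cb i := by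
    have h1 : ∀ᶠ z in 𝓝[≠] (0 : ℂ), ‖z‖ < 1 := by
      apply nhdsWithin_le_nhds
      have := (continuous_norm.tendsto (0 : ℂ)).eventually_lt_const (u := 1) (by
        rw [norm_zero]; exact one_pos)
      exact this
    filter_upwards [hb.eventually_analyticAt, poly_ne_ev hlc hbc, poly_ne_ev hD hbc, h1,
      (Finset.eventually_all (Finset.range A.natDegree)).2 fun i _ => hbd i] with z a1 a2 a3 a4 a5
    exact ⟨a1, a2, a3, a4, a5⟩
  obtain ⟨r, hr, hball⟩ := Metric.mem_nhdsWithin_iff.1 hgood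
  have hball' : ∀ z ∈ Metric.ball (0 : ℂ) (Real.exp (Real.log r)) \ {0},
      AnalyticAt ℂ b z ∧ A.leadingCoeff.eval (b z) ≠ 0 ∧
      D.eval (b z) ≠ 0 ∧ ‖z‖ < 1 ∧ ∀ i ∈ Finset.range A.natDegree,
      ‖(A.coeff i).eval (b z) / A.leadingCoeff.eval (b z)‖ * ‖z‖ ^ (M i) ≤ Cb i := by
    intro z hz
    rw [Real.exp_log hr] at hz
    exact hball ⟨hz.1, hz.2⟩
  have hdeg : ∀ z ∈ Metric.ball (0 : ℂ) (Real.exp (Real.log r)) \ {0},
      (p z).natDegree = A.natDegree := by
    intro z hz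
    exact natDegree_map_of_leadingCoeff_ne_zero _ (by
      rw [coe_evalRingHom]
      exact (hball' z hz).2.1)
  have hlead : ∀ z ∈ Metric.ball (0 : ℂ) (Real.exp (Real.log r)) \ {0},
      (p z).leadingCoeff = A.leadingCoeff.eval (b z) := by
    intro z hz
    rw [leadingCoeff, hdeg z hz, hcoeff]
    rfl
  obtain ⟨N, a, hN, -, -, -, hroots, hmero⟩ := Pool.Agent.H734R3.Fib.puiseux (Real.log r)
    A.natDegree p
    (by
      intro i z hz
      have h1 : DifferentiableAt ℂ (fun z => (A.coeff i).eval (b z)) z :=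
        DifferentiableAt.comp (g := fun x => (A.coeff i).eval x) z
          (Polynomial.differentiable _).differentiableAt (hball' z hz).1.differentiableAt
      have h2 : (fun z => (p z).coeff i) = fun z => (A.coeff i).eval (b z) := by
        funext z
        exact hcoeff z i
      rw [h2]
      exact h1.differentiableWithinAt)
    hdeg
    (by
      intro z hz
      have h1 := congrArg (fun q : ℂ[X][Y] => q.map (evalRingHom (b z))) hbez
      simp only [Polynomial.map_add, Polynomial.map_mul, map_C, coe_evalRingHom] at h1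
      have h2 : D.eval (b z) ≠ 0 := (hball' z hz).2.2.1
      refine ⟨C (D.eval (b z))⁻¹ * S.map (evalRingHom (b z)),
        C (D.eval (b z))⁻¹ * T.map (evalRingHom (b z)), ?_⟩
      rw [← derivative_map] at h1
      have h3 : (C (D.eval (b z))⁻¹ : ℂ[X]) * C (D.eval (b z)) = 1 := by
        rw [← C_mul, inv_mul_cancel₀ h2, C_1]
      rw [← h3, ← h1]
      ring)
    (1 + ∑ i ∈ Finset.range A.natDegree, Cb i) (∑ i ∈ Finset.range A.natDegree, M i)
    (by
      intro z hz v hv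
      obtain ⟨-, a2, -, a4, a5⟩ := hball' z hz
      have h1 := root_bd hv (by rw [hlead z hz]; exact a2)
      rw [hdeg z hz, hlead z hz] at h1
      set Mt := ∑ i ∈ Finset.range A.natDegree, M i with hMt
      have hz0 : 0 ≤ ‖z‖ := norm_nonneg _
      calc ‖v‖ * ‖z‖ ^ Mt ≤ (1 + ∑ i ∈ Finset.range A.natDegree,
            ‖(p z).coeff i / A.leadingCoeff.eval (b z)‖) * ‖z‖ ^ Mt :=
            mul_le_mul_of_nonneg_right h1 (by positivity)
        _ = ‖z‖ ^ Mt + ∑ i ∈ Finset.range A.natDegree,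
            ‖(p z).coeff i / A.leadingCoeff.eval (b z)‖ * ‖z‖ ^ Mt := by
            rw [add_mul, one_mul, Finset.sum_mul]
        _ ≤ 1 + ∑ i ∈ Finset.range A.natDegree, Cb i := by
            apply add_le_add (pow_le_one₀ hz0 a4.le)
            apply Finset.sum_le_sum
            intro i hi
            rw [hcoeff]
            have h2 : M i ≤ Mt := Finset.single_le_sum (f := M) (fun _ _ => Nat.zero_le _) hi
            refine le_trans ?_ (a5 i hi)
            exact mul_le_mul_of_nonneg_left (pow_le_pow_of_le_one hz0 a4.le h2) (norm_nonneg _))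
  have heN : 0 < e * N := Nat.mul_pos he hN
  have hU : ∀ᶠ s in (U : Filter ℂ), tt (e * N) s ∈ Metric.ball (0 : ℂ)
      (Real.exp (Real.log r / N)) \ {0} := by
    have h1 := (h.zero' heN).eventually (Metric.ball_mem_nhds (0 : ℂ)
      (Real.exp_pos (Real.log r / N)))
    filter_upwards [h1] with s hs
    exact ⟨hs, tt_ne _ _⟩
  have hex : ∀ᶠ s in (U : Filter ℂ), ∃ j : Fin A.natDegree, w s = a j (tt (e * N) s) := by
    filter_upwards [hU, hAr] with s a1 a2
    apply (hroots _ a1 _).1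
    rw [tt_mul_pow hN, hp]
    simp only
    rw [map_evalRingHom_eval]
    exact a2
  obtain ⟨j, hj⟩ := Ultrafilter.eventually_exists_iff.1 hex
  exact ⟨N, a j, hN, hmero j, hj⟩

end Pool.Agent.H489.CU
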