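import Pool.Agent.H489.CU.A2

/-!
Assembly: the contradiction along an ultrafilter.
-/

open Complex Filter Topology Polynomial
open scoped Polynomial.Bivariate

namespace Pool.Agent.H489.CU

open Pool.Agent.H489.GI.G

lemma mero_pow {a : ℂ → ℂ} (ha : MeromorphicAt a 0) {n : ℕ} (hn : 0 < n) :
    MeromorphicAt (fun t => a (t ^ n)) 0 := by
  have h1 : MeromorphicAt a ((fun t : ℂ => t ^ n) 0) := by
    simp only [zero_pow hn.ne']
    exact ha
  exact MeromorphicAt.comp_analyticAt (g := fun t : ℂ => t ^ n) h1 (analyticAt_id.pow n)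

lemma mero_log_up {𝓕 : Filter ℂ} (h : Str 𝓕) {e : ℕ} (he : 0 < e) {A : ℂ → ℂ}
    (hA : MeromorphicAt A 0) (hA0 : ∀ᶠ s in 𝓕, A (tt e s) ≠ 0) :
    ∃ C : ℝ, 0 ≤ C ∧ ∀ᶠ s : ℂ in 𝓕, Real.log ‖A (tt e s)‖ ≤ C * s.re := by
  obtain ⟨M, C, hC, hb⟩ := mero_bd hA
  have he1 : (1 : ℝ) ≤ e := by exact_mod_cast he
  refine ⟨|Real.log (C + 1)| + M, by positivity, ?_⟩
  filter_upwards [(h.zero he).eventually hb, hA0, h.re.eventually_ge_atTop 1] with s a1 a2 a3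
  have h1 : 0 < ‖A (tt e s)‖ := norm_pos_iff.2 a2
  have h2 : 0 < ‖tt e s‖ ^ M := by
    have := norm_pos_iff.2 (tt_ne e s)
    positivity
  have h3 : Real.log (‖A (tt e s)‖ * ‖tt e s‖ ^ M) ≤ Real.log (C + 1) :=
    Real.log_le_log (by positivity) (by linarith)
  rw [Real.log_mul h1.ne' h2.ne', Real.log_pow, norm_tt, Real.log_exp] at h3
  have h4 := le_abs_self (Real.log (C + 1))
  have h5 : s.re / e ≤ s.re := div_le_self (by linarith) he1
  have h6 : (M : ℝ) * (s.re / e) ≤ M * s.re := mul_le_mul_of_nonneg_left h5 (Nat.cast_nonneg M)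
  have h7 : |Real.log (C + 1)| ≤ |Real.log (C + 1)| * s.re :=
    le_mul_of_one_le_right (abs_nonneg _) a3
  rw [add_mul]
  linarith

lemma mero_log_bd {𝓕 : Filter ℂ} (h : Str 𝓕) {e : ℕ} (he : 0 < e) {A : ℂ → ℂ}
    (hA : MeromorphicAt A 0) (hA0 : ∀ᶠ s in 𝓕, A (tt e s) ≠ 0) :
    ∃ C : ℝ, 0 ≤ C ∧ ∀ᶠ s : ℂ in 𝓕, |Real.log ‖A (tt e s)‖| ≤ C * s.re := by
  obtain ⟨C₁, hC₁, h1⟩ := mero_log_up h he hA hA0
  obtain ⟨C₂, hC₂, h2⟩ := mero_log_up (A := fun t => (A t)⁻¹) h he hA.inv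
    (hA0.mono fun s hs => inv_ne_zero hs)
  refine ⟨C₁ + C₂, by positivity, ?_⟩
  filter_upwards [h1, h2, h.re.eventually_ge_atTop 0] with s a1 a2 a3
  rw [norm_inv, Real.log_inv] at a2
  have h3 : 0 ≤ C₁ * s.re := by positivity
  have h4 : 0 ≤ C₂ * s.re := by positivity
  rw [abs_le, add_mul]
  constructor <;> linarith

lemma mero_rep {𝓕 : Filter ℂ} (h : Str 𝓕) {e : ℕ} (he : 0 < e) {A : ℂ → ℂ}
    (hA : MeromorphicAt A 0) (hA0 : ∀ᶠ s in 𝓕, A (tt e s) ≠ 0) :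
    ∃ (n : ℤ) (g : ℂ → ℂ), AnalyticAt ℂ g 0 ∧ g 0 ≠ 0 ∧
      ∀ᶠ t in 𝓝[≠] (0 : ℂ), A t = t ^ n * g t := by
  have := h.ne
  have hne : meromorphicOrderAt A 0 ≠ ⊤ := by
    intro ht
    rw [meromorphicOrderAt_eq_top_iff] at ht
    obtain ⟨s, h1, h2⟩ := (((h.zero he).eventually ht).and hA0).exists
    exact h2 h1
  obtain ⟨g, hg, hg0, hge⟩ := (meromorphicOrderAt_ne_top_iff hA).1 hne
  refine ⟨(meromorphicOrderAt A 0).untop₀, g, hg, hg0, ?_⟩
  filter_upwards [hge] with t ht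
  rw [ht, sub_zero, smul_eq_mul]

lemma tt_zpow (e : ℕ) (m : ℤ) (s : ℂ) : (tt e s) ^ m = exp (((-m : ℤ) : ℂ) * s / e) := by
  unfold tt
  rw [← exp_int_mul]
  congr 1
  push_cast
  ring

/-- the core: two functions of moderate size differ by an integer -/
theorem core_all (U : Ultrafilter ℂ) (h : Str (U : Filter ℂ)) {e : ℕ} (he : 0 < e) {p : ℕ}
    (hp : 0 < p) {g ρ : ℂ → ℂ} {q : ℤ} (hg : AnalyticAt ℂ g 0) (hg0 : g 0 ≠ 0)
    (hρ : AnalyticAt ℂ ρ 0) (hρ0 : ρ 0 ≠ 0) {P : ℤ[X][X]} (hP : P ≠ 0)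
    (hrel : ∀ᶠ s in (U : Filter ℂ), evZ P (exp s) (zz e p g s) = 0)
    (hy0 : ∀ᶠ s in (U : Filter ℂ), Gamma (exp s) ≠ 0)
    (hz0 : ∀ᶠ s in (U : Filter ℂ), Gamma (zz e p g s) ≠ 0) {C : ℝ} (hC : 0 ≤ C)
    (hy : ∀ᶠ s : ℂ in (U : Filter ℂ), |Real.log ‖Gamma (exp s)‖| ≤ C * s.re)
    (hG : ∀ᶠ s : ℂ in (U : Filter ℂ), |Real.log ‖Gamma (zz e p g s)‖| ≤ C * s.re)
    (hR : ∀ᶠ s in (U : Filter ℂ),
      Gamma (zz e p g s) = exp (q * s / e) * ρ (tt e s) * Gamma (exp s)) :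
    p = e ∧ ∃ n : ℤ, ∀ᶠ t in 𝓝 (0 : ℂ), g t = 1 + t ^ e * n := by
  have he' : (0 : ℝ) < e := by exact_mod_cast he
  have hp' : (0 : ℝ) < p := by exact_mod_cast hp
  have hσ : (0 : ℝ) < p / e := by positivity
  have hgn : 0 < ‖g 0‖ := norm_pos_iff.2 hg0
  have him : (∀ᶠ s : ℂ in (U : Filter ℂ), 0 ≤ s.im) ∨ (∀ᶠ s : ℂ in (U : Filter ℂ), s.im ≤ 0) :=
    Ultrafilter.eventually_or.1 (Eventually.of_forall fun s => le_total _ _)
  -- the first function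
  have hyc : (∀ᶠ s : ℂ in (U : Filter ℂ), 0 ≤ (exp s).re) ∨
      (∀ᶠ s in (U : Filter ℂ), ∃ k : ℕ, ‖exp s + k‖ ≤ Real.exp (-‖exp s‖)) := by
    rcases Ultrafilter.eventually_or.1 (Eventually.of_forall (f := (U : Filter ℂ))
      fun s : ℂ => le_total 0 (exp s).re) with h1 | h1
    · exact Or.inl h1
    · right
      obtain ⟨R₀, -, hR₀⟩ := leftN C
      filter_upwards [h1, (exp_norm_tend h).eventually_ge_atTop R₀, hy] with s a1 a2 a3
      refine hR₀ _ a2 a1 ?_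
      rw [norm_inv, Real.log_inv, norm_exp, Real.log_exp]
      linarith [(abs_le.1 a3).1]
  have hzc : (∀ᶠ s : ℂ in (U : Filter ℂ), 0 ≤ (zz e p g s).re) ∨
      (∀ᶠ s in (U : Filter ℂ), ∃ k : ℕ, ‖zz e p g s + k‖ ≤ Real.exp (-‖zz e p g s‖)) := by
    rcases Ultrafilter.eventually_or.1 (Eventually.of_forall (f := (U : Filter ℂ))
      fun s : ℂ => le_total 0 (zz e p g s).re) with h1 | h1
    · exact Or.inl h1
    · right
      obtain ⟨R₀, -, hR₀⟩ := leftN (2 * C / (p / e : ℝ))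
      filter_upwards [h1, (zz_norm_tend h he hp hg hg0).eventually_ge_atTop R₀, hG,
        sizes h he hp hg hg0,
        h.re.eventually_ge_atTop (2 / (p / e : ℝ) * |Real.log (‖g 0‖ / 2)|)] with s a1 a2 a3 a4 a5
      refine hR₀ _ a2 a1 ?_
      rw [norm_inv, Real.log_inv]
      have h2 := Real.log_le_log (by positivity) a4.1
      rw [Real.log_mul (Real.exp_pos _).ne' (by positivity), Real.log_exp] at h2
      have h3 := neg_abs_le (Real.log (‖g 0‖ / 2))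
      have h4 : |Real.log (‖g 0‖ / 2)| ≤ (p / e : ℝ) / 2 * s.re := by
        rw [div_mul_eq_mul_div, div_le_iff₀ hσ] at a5
        linarith
      have h5 : (p / e : ℝ) / 2 * s.re ≤ Real.log ‖zz e p g s‖ := by linarith
      have h6 : 2 * C / (p / e : ℝ) * ((p / e : ℝ) / 2 * s.re) ≤
          2 * C / (p / e : ℝ) * Real.log ‖zz e p g s‖ :=
        mul_le_mul_of_nonneg_left h5 (by positivity)
      have h7 : 2 * C / (p / e : ℝ) * ((p / e : ℝ) / 2 * s.re) = C * s.re := by field_simp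
      linarith [(abs_le.1 a3).1]
  rcases hyc with hyR | hyN
  · rcases hzc with hzR | hzN
    · exact coreR h hyR him he hp hg hg0 hρ hρ0 hzR hy hG hR
    · exact (coreRN h hyR him he hp hg hg0 hy hzN).elim
  · rcases hzc with hzR | hzN
    · exact (coreNR h him he hp hg hg0 hyN hzR hG).elim
    · exact coreNN U h he hp hg hg0 hP hrel hyN hzN hy0 hz0 hy hG

lemma cplx_ne {P : ℤ[X][Y]} (hP : P ≠ 0) :
    P.map (mapRingHom (Int.castRingHom ℂ)) ≠ 0 := by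
  intro h
  apply hP
  exact (Polynomial.map_eq_zero_iff (Polynomial.map_injective _ Int.cast_injective)).1 h

/-- no ultrafilter of solutions -/
theorem mainU (U : Ultrafilter ℂ) (h : Str (U : Filter ℂ)) {P Q R : ℤ[X][Y]}
    (hP : P ≠ 0) (hQ : Q ≠ 0) (hR : R ≠ 0) {z : ℂ → ℂ}
    (hP' : ∀ᶠ s in (U : Filter ℂ), evZ P (exp s) (z s) = 0)
    (hQ' : ∀ᶠ s in (U : Filter ℂ), evZ Q (exp s) (Gamma (exp s)) = 0)
    (hR' : ∀ᶠ s in (U : Filter ℂ), evZ R (z s) (Gamma (z s)) = 0)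
    (hy0 : ∀ᶠ s in (U : Filter ℂ), Gamma (exp s) ≠ 0)
    (hz0 : ∀ᶠ s in (U : Filter ℂ), Gamma (z s) ≠ 0)
    (hzt : ∀ᶠ s in (U : Filter ℂ), Transcendental ℤ (z s))
    (hdiff : ∀ᶠ s in (U : Filter ℂ), ∀ n : ℤ, z s ≠ exp s + n) : False := by
  -- `z` is unbounded
  have hbig : ∀ B : ℝ, ∀ᶠ s in (U : Filter ℂ), B < ‖z s‖ := by
    intro B
    by_contra hcon
    rw [← Ultrafilter.eventually_not] at hcon
    have h1 : ∀ᶠ s in (U : Filter ℂ), ∃ v ∈ {y : ℂ | rv R y = 0 ∧ ‖y‖ ≤ B}, z s = v := by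
      filter_upwards [hcon, hR', hz0] with s a1 a2 a3
      exact ⟨z s, ⟨rv_zero a3 a2, not_lt.1 a1⟩, rfl⟩
    rw [Ultrafilter.eventually_exists_mem_iff (zset_finite hR B)] at h1
    obtain ⟨v, -, hv⟩ := h1
    have hvt : Transcendental ℤ v := by
      obtain ⟨s, a1, a2⟩ := (hv.and hzt).exists
      rw [← a1]
      exact a2
    have hfin := fin_x hP hvt
    obtain ⟨B', hB'⟩ := hfin.isBounded.exists_norm_le
    obtain ⟨s, a1, a2, a3⟩ := (hv.and (hP'.and ((exp_norm_tend h).eventually_gt_atTop B'))).exists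
    have := hB' (exp s) (by
      show evZ P (exp s) v = 0
      rw [← a1]
      exact a2)
    linarith
  -- Puiseux
  have hinv : ∀ v : ℂ, ∀ᶠ t in 𝓝[≠] (0 : ℂ), t⁻¹ ≠ v := by
    intro v
    by_cases hv : v = 0
    · filter_upwards [self_mem_nhdsWithin] with t ht
      rw [hv]
      exact inv_ne_zero ht
    · apply nhdsWithin_le_nhds
      have : ∀ᶠ t in 𝓝 (0 : ℂ), t ≠ v⁻¹ :=
        (continuousAt_id (x := (0 : ℂ))).eventually_ne (inv_ne_zero hv).symm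
      filter_upwards [this] with t ht h0
      apply ht
      rw [← h0, inv_inv]
  have hinvm : MeromorphicAt (fun t : ℂ => t⁻¹) 0 := analyticAt_id.meromorphicAt.inv
  have hexp1 : ∀ s : ℂ, (tt 1 s)⁻¹ = exp s := by
    intro s
    rw [exp_inv_pow one_pos, pow_one]
  obtain ⟨N₁, a₁, hN₁, ha₁, hz₁⟩ := pz U h one_pos hinvm hinv (w := z) (cplx_ne hP) (by
    filter_upwards [hP'] with s hs
    rw [hexp1]
    exact hs)
  obtain ⟨N₂, A₂, hN₂, hA₂, hy₂⟩ := pz U h one_pos hinvm hinv (w := fun s => Gamma (exp s))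
    (cplx_ne hQ) (by
    filter_upwards [hQ'] with s hs
    rw [hexp1]
    exact hs)
  rw [one_mul] at hz₁ hy₂
  have ha₁c : ∀ v : ℂ, ∀ᶠ t in 𝓝[≠] (0 : ℂ), a₁ t ≠ v := by
    intro v
    by_contra hcon
    have h1 : ∃ᶠ t in 𝓝[≠] (0 : ℂ), a₁ t - v = 0 := by
      rw [not_eventually] at hcon
      refine hcon.mono fun t ht => ?_
      rw [not_not] at ht
      rw [ht, sub_self]
    have h2 := mero_freq (ha₁.sub (MeromorphicAt.const v 0)) h1
    obtain ⟨s, b1, b2, b3⟩ := (hz₁.and (((h.zero hN₁).eventually h2).and (hbig ‖v‖))).exists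
    rw [b1, sub_eq_zero.1 b2] at b3
    exact lt_irrefl _ b3
  obtain ⟨N₃, D₃, hN₃, hD₃, hw₃⟩ := pz U h hN₁ ha₁ ha₁c (w := fun s => Gamma (z s))
    (cplx_ne hR) (by
    filter_upwards [hR', hz₁] with s hs hs1
    rw [← hs1]
    exact hs)
  -- the common parameter
  obtain ⟨e, he_def⟩ : ∃ e, e = N₁ * N₃ * N₂ := ⟨_, rfl⟩
  have he : 0 < e := by rw [he_def]; positivity
  have ht1 : ∀ s, (tt e s) ^ (N₃ * N₂) = tt N₁ s := fun s => by
    rw [he_def, mul_assoc, tt_mul_pow (by positivity)]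
  have ht2 : ∀ s, (tt e s) ^ (N₁ * N₃) = tt N₂ s := fun s => by
    rw [he_def, mul_comm (N₁ * N₃), tt_mul_pow (by positivity)]
  have ht3 : ∀ s, (tt e s) ^ N₂ = tt (N₁ * N₃) s := fun s => by
    rw [he_def, tt_mul_pow hN₂]
  have ha := mero_pow ha₁ (show 0 < N₃ * N₂ by positivity)
  have hA := mero_pow hA₂ (show 0 < N₁ * N₃ by positivity)
  have hD := mero_pow hD₃ hN₂
  set a : ℂ → ℂ := fun t => a₁ (t ^ (N₃ * N₂)) with ha_def
  set A : ℂ → ℂ := fun t => A₂ (t ^ (N₁ * N₃)) with hA_def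
  set D : ℂ → ℂ := fun t => D₃ (t ^ N₂) with hD_def
  have hza : ∀ᶠ s in (U : Filter ℂ), z s = a (tt e s) := by
    filter_upwards [hz₁] with s hs
    rw [hs, ha_def]
    simp only
    rw [ht1]
  have hyA : ∀ᶠ s in (U : Filter ℂ), Gamma (exp s) = A (tt e s) := by
    filter_upwards [hy₂] with s hs
    rw [hs, hA_def]
    simp only
    rw [ht2]
  have hzD : ∀ᶠ s in (U : Filter ℂ), Gamma (z s) = D (tt e s) := by
    filter_upwards [hw₃] with s hs
    rw [hs, hD_def]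
    simp only
    rw [ht3]
  -- representations
  obtain ⟨n, g, hg, hg0, hag⟩ := mero_rep h he ha (by
    filter_upwards [hza, hbig 0] with s b1 b2
    rw [← b1]
    exact norm_pos_iff.1 b2)
  have hA0 : ∀ᶠ s in (U : Filter ℂ), A (tt e s) ≠ 0 := by
    filter_upwards [hyA, hy0] with s b1 b2
    rw [← b1]
    exact b2
  have hD0 : ∀ᶠ s in (U : Filter ℂ), D (tt e s) ≠ 0 := by
    filter_upwards [hzD, hz0] with s b1 b2
    rw [← b1]
    exact b2
  obtain ⟨n₂, g₂, hg₂, hg₂0, hA2⟩ := mero_rep h he hA hA0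
  obtain ⟨n₃, g₃, hg₃, hg₃0, hD3⟩ := mero_rep h he hD hD0
  -- a pole
  have hn : n < 0 := by
    by_contra hn
    push Not at hn
    obtain ⟨m, rfl⟩ := Int.eq_ofNat_of_zero_le hn
    have h1 : AnalyticAt ℂ (fun t : ℂ => t ^ m * g t) 0 := (analyticAt_id.pow m).mul hg
    have h2 := (h.lim he h1).norm
    have h3 := h2.eventually_lt_const (lt_add_one _)
    obtain ⟨s, b1, b2, b3, b4⟩ := (hza.and (((h.zero he).eventually hag).and
      (h3.and (hbig _)))).exists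
    rw [b1, b2, zpow_natCast] at b4
    exact lt_irrefl _ (b3.trans b4)
  obtain ⟨p, hpn⟩ : ∃ p : ℕ, n = -(p : ℤ) := ⟨n.natAbs, by omega⟩
  have hp : 0 < p := by omega
  have hzz : ∀ᶠ s in (U : Filter ℂ), z s = zz e p g s := by
    filter_upwards [hza, (h.zero he).eventually hag] with s b1 b2
    rw [b1, b2, zz_eq, hpn, zpow_neg, zpow_natCast]
  -- moderate sizes
  obtain ⟨C₁, hC₁, hy⟩ := mero_log_bd h he hA hA0
  obtain ⟨C₂, hC₂, hz⟩ := mero_log_bd h he hD hD0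
  have hyC : ∀ᶠ s : ℂ in (U : Filter ℂ), |Real.log ‖Gamma (exp s)‖| ≤ (C₁ + C₂) * s.re := by
    filter_upwards [hyA, hy, h.re.eventually_ge_atTop 0] with s b1 b2 b3
    rw [b1]
    have : 0 ≤ C₂ * s.re := by positivity
    linarith
  have hzC : ∀ᶠ s : ℂ in (U : Filter ℂ), |Real.log ‖Gamma (zz e p g s)‖| ≤ (C₁ + C₂) * s.re := by
    filter_upwards [hzD, hz, h.re.eventually_ge_atTop 0, hzz] with s b1 b2 b3 b4
    rw [← b4, b1]
    have : 0 ≤ C₁ * s.re := by positivity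
    linarith
  -- the ratio
  have hrat : ∀ᶠ s in (U : Filter ℂ), Gamma (zz e p g s) =
      exp (((n₂ - n₃ : ℤ) : ℂ) * s / e) * (g₃ (tt e s) / g₂ (tt e s)) * Gamma (exp s) := by
    filter_upwards [hzD, hyA, hzz, (h.zero he).eventually hA2, (h.zero he).eventually hD3,
      (h.lim he hg₂).eventually_ne hg₂0] with s b1 b2 b3 b4 b5 b6
    rw [← b3, b1, b2, b4, b5]
    have h1 : exp (((n₂ - n₃ : ℤ) : ℂ) * s / e) = (tt e s) ^ (n₃ - n₂) := by
      rw [tt_zpow]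
      congr 3
      push_cast
      ring
    rw [h1, zpow_sub₀ (tt_ne e s)]
    have h2 : (tt e s) ^ n₂ ≠ 0 := zpow_ne_zero _ (tt_ne e s)
    field_simp
  obtain ⟨hpe, m, hm⟩ := core_all U h he hp hg hg0 (hg₃.div hg₂ hg₂0)
    (div_ne_zero hg₃0 hg₂0) hP (by
      filter_upwards [hP', hzz] with s b1 b2
      rw [← b2]
      exact b1) hy0 (by
      filter_upwards [hz0, hzz] with s b1 b2
      rw [← b2]
      exact b1) (by positivity) hyC hzC hrat
  subst hpe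
  obtain ⟨s, b1, b2, b3⟩ := (hzz.and (((h.zero' he).eventually hm).and hdiff)).exists
  apply b3 m
  rw [b1, zz_self he, b2, mul_add, mul_one, ← mul_assoc, exp_tt he, one_mul]

end Pool.Agent.H489.CU
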