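import Pool.Agent.H489.CU.A3

/-!
The final statement: finitely many points on a curve.
-/

open Complex Filter Topology Polynomial
open scoped Polynomial.Bivariate

namespace Pool.Agent.H489.CU

/-- the pairs of transcendental points -/
theorem T1_finite {P Q R : ℤ[X][Y]} (hP : P ≠ 0) (hQ : Q ≠ 0) (hR : R ≠ 0) :
    {x : ℂ × ℂ | evZ P x.1 x.2 = 0 ∧ evZ Q x.1 (Gamma x.1) = 0 ∧ evZ R x.2 (Gamma x.2) = 0 ∧
      Transcendental ℤ x.1 ∧ Transcendental ℤ x.2 ∧ ∀ n : ℤ, x.2 ≠ x.1 + n}.Finite := by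
  by_contra hinf
  set T := {x : ℂ × ℂ | evZ P x.1 x.2 = 0 ∧ evZ Q x.1 (Gamma x.1) = 0 ∧
    evZ R x.2 (Gamma x.2) = 0 ∧ Transcendental ℤ x.1 ∧ Transcendental ℤ x.2 ∧
    ∀ n : ℤ, x.2 ≠ x.1 + n} with hT
  set S := Prod.fst '' T with hS
  have hgam : ∀ x : ℂ, Transcendental ℤ x → Gamma x ≠ 0 := by
    intro x hx h0
    rw [Gamma_eq_zero_iff] at h0
    obtain ⟨m, hm⟩ := h0
    apply hx
    rw [hm]
    have h1 := isAlgebraic_algebraMap (R := ℤ) (A := ℂ) (-(m : ℤ))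
    simpa using h1
  have hSinf : S.Infinite := by
    intro hfin
    apply hinf
    have h1 : (⋃ y ∈ S, ({y} : Set ℂ) ×ˢ {w : ℂ | evZ P y w = 0}).Finite := by
      refine hfin.biUnion fun y hy => ?_
      obtain ⟨x, hx, rfl⟩ := hy
      exact (Set.finite_singleton _).prod (fin_y hP hx.2.2.2.1)
    refine h1.subset fun x hx => ?_
    simp only [Set.mem_iUnion]
    exact ⟨x.1, ⟨x, hx, rfl⟩, rfl, hx.1⟩
  have hex : ∀ y : ℂ, ∃ w : ℂ, y ∈ S → (y, w) ∈ T := by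
    intro y
    by_cases hy : y ∈ S
    · obtain ⟨x, hx, rfl⟩ := hy
      exact ⟨x.2, fun _ => hx⟩
    · exact ⟨0, fun h => absurd h hy⟩
  choose ζ hζ using hex
  have hne : (cofinite ⊓ 𝓟 S).NeBot := hSinf.cofinite_inf_principal_neBot
  set V : Ultrafilter ℂ := Ultrafilter.of (cofinite ⊓ 𝓟 S) with hV
  have hVle : (V : Filter ℂ) ≤ cofinite ⊓ 𝓟 S := Ultrafilter.of_le _
  have hVS : ∀ᶠ y in (V : Filter ℂ), y ∈ S := hVle.trans inf_le_right (mem_principal_self S)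
  have hVbig : ∀ B : ℝ, ∀ᶠ y in (V : Filter ℂ), B < ‖y‖ := by
    intro B
    have h1 : {y : ℂ | rv Q y = 0 ∧ ‖y‖ ≤ B}ᶜ ∈ (V : Filter ℂ) :=
      hVle.trans inf_le_left (zset_finite hQ B).compl_mem_cofinite
    filter_upwards [h1, hVS] with y a1 a2
    by_contra hcon
    push Not at hcon
    apply a1
    obtain ⟨x, hx, rfl⟩ := a2
    exact ⟨rv_zero (hgam _ hx.2.2.2.1) hx.2.1, hcon⟩
  have hVtop : Tendsto (fun y : ℂ => ‖y‖) (V : Filter ℂ) atTop := by
    rw [tendsto_atTop]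
    intro B
    exact (hVbig B).mono fun y hy => hy.le
  set U : Ultrafilter ℂ := V.map log with hU
  have hUe : ∀ p : ℂ → Prop, (∀ᶠ s in (U : Filter ℂ), p s) ↔ ∀ᶠ y in (V : Filter ℂ), p (log y) := by
    intro p
    rw [hU, Ultrafilter.coe_map, eventually_map]
  have hstr : Str (U : Filter ℂ) := by
    refine ⟨inferInstance, ?_, ?_⟩
    · rw [hU, Ultrafilter.coe_map, tendsto_map'_iff]
      exact (Real.tendsto_log_atTop.comp hVtop).congr fun y => (log_re y).symm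
    · rw [hUe]
      refine Eventually.of_forall fun y => ?_
      rw [log_im]
      exact abs_arg_le_pi y
  have hV0 : ∀ᶠ y in (V : Filter ℂ), exp (log y) = y ∧ (y, ζ y) ∈ T := by
    filter_upwards [hVbig 0, hVS] with y a1 a2
    exact ⟨exp_log (norm_pos_iff.1 a1), hζ y a2⟩
  refine mainU U hstr hP hQ hR (z := fun s => ζ (exp s)) ?_ ?_ ?_ ?_ ?_ ?_ ?_
  · rw [hUe]
    filter_upwards [hV0] with y ⟨a1, a2⟩
    rw [a1]
    exact a2.1
  · rw [hUe]
    filter_upwards [hV0] with y ⟨a1, a2⟩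
    rw [a1]
    exact a2.2.1
  · rw [hUe]
    filter_upwards [hV0] with y ⟨a1, a2⟩
    rw [a1]
    exact a2.2.2.1
  · rw [hUe]
    filter_upwards [hV0] with y ⟨a1, a2⟩
    rw [a1]
    exact hgam _ a2.2.2.2.1
  · rw [hUe]
    filter_upwards [hV0] with y ⟨a1, a2⟩
    rw [a1]
    exact hgam _ a2.2.2.2.2.1
  · rw [hUe]
    filter_upwards [hV0] with y ⟨a1, a2⟩
    rw [a1]
    exact a2.2.2.2.2.1
  · rw [hUe]
    filter_upwards [hV0] with y ⟨a1, a2⟩
    rw [a1]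
    exact a2.2.2.2.2.2

lemma mv_conv {P : MvPolynomial (Fin 2) ℤ} (hP : P ≠ 0) : ∃ P' : ℤ[X][Y], P' ≠ 0 ∧
    ∀ x y : ℂ, MvPolynomial.aeval ![x, y] P = evZ P' x y := by
  have key : ∀ (A : Type) [CommRing A] (x y : A),
      aevalAeval x y (MvPolynomial.aeval ![(C X : ℤ[X][Y]), Y] P) = MvPolynomial.aeval ![x, y] P := by
    intro A _ x y
    rw [MvPolynomial.comp_aeval_apply]
    congr 2
    funext i
    fin_cases i
    · simp
    · simp
  refine ⟨MvPolynomial.aeval ![(C X : ℤ[X][Y]), Y] P, ?_, ?_⟩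
  · intro h0
    apply hP
    apply MvPolynomial.funext
    intro v
    have h1 := key ℤ (v 0) (v 1)
    rw [h0, map_zero] at h1
    have h2 : ![v 0, v 1] = v := by
      funext i
      fin_cases i <;> rfl
    rw [h2] at h1
    rw [map_zero, ← MvPolynomial.coe_aeval_eq_eval]
    exact h1.symm
  · intro x y
    rw [evZ_hom, key]

end Pool.Agent.H489.CU
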