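import Pool.Agent.H489.CU.A4

/-!
The final statement: finitely many points on a curve, in several variables.
-/

open Complex Filter Topology Polynomial
open scoped Polynomial.Bivariate

namespace Pool.Agent.H489.CU

lemma alg_iff {x : ℂ} : IsAlgebraic ℤ x ↔ IsAlgebraic ℚ x := IsFractionRing.isAlgebraic_iff ℤ ℚ ℂ

lemma roots_fin {Q : ℤ[X][Y]} (hQ : Q ≠ 0) : {y : ℂ | aeval y Q.leadingCoeff = 0}.Finite := by
  have hmap : Q.leadingCoeff.map (algebraMap ℤ ℂ) ≠ 0 :=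
    (Polynomial.map_ne_zero_iff (algebraMap ℤ ℂ).injective_int).2 (leadingCoeff_ne_zero.2 hQ)
  refine ((Q.leadingCoeff.map (algebraMap ℤ ℂ)).roots.toFinset.finite_toSet).subset fun y hy => ?_
  have hy' : aeval y Q.leadingCoeff = 0 := hy
  rw [Finset.mem_coe, Multiset.mem_toFinset, mem_roots hmap]
  rw [aeval_def, eval₂_eq_eval_map] at hy'
  exact hy'

lemma coord_alg {Q : ℤ[X][Y]} {y v : ℂ} (hy : IsAlgebraic ℤ y)
    (hv : Transcendental ℤ v) (h : evZ Q y v = 0) : aeval y Q.leadingCoeff = 0 := by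
  by_contra hne
  apply hv
  rw [alg_iff] at hy ⊢
  set K := algebraicClosure ℚ ℂ with hK
  set y' : K := ⟨y, mem_algebraicClosure_iff.2 hy⟩ with hy'
  have hval : ∀ q : ℤ[X], algebraMap K ℂ (aeval y' q) = aeval y q := by
    intro q
    rw [← aeval_algebraMap_apply]
    rfl
  set p : K[X] := Q.map (aeval y' : ℤ[X] →ₐ[ℤ] K).toRingHom with hp
  have hp0 : p ≠ 0 := by
    intro h0
    have h1 : p.coeff Q.natDegree = 0 := by rw [h0, coeff_zero]
    rw [hp, coeff_map] at h1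
    apply hne
    have h2 : (aeval y' : ℤ[X] →ₐ[ℤ] K) (Q.coeff Q.natDegree) = 0 := h1
    rw [← hval, leadingCoeff, h2, map_zero]
  have hroot : aeval v p = 0 := by
    rw [← h, evZ_eq_sum, aeval_eq_sum_range' (n := Q.natDegree + 1)
      (Nat.lt_succ_of_le natDegree_map_le)]
    refine Finset.sum_congr rfl fun j _ => ?_
    rw [Algebra.smul_def, coeff_map]
    congr 1
    exact hval _
  have h1 : IsAlgebraic (algebraicClosure ℚ ℂ) v := ⟨p, hp0, hroot⟩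
  have h2 : Algebra.IsAlgebraic ℚ (algebraicClosure ℚ ℂ) := algebraicClosure.isAlgebraic ℚ ℂ
  exact h1.restrictScalars ℚ

/-- finitely many pairs -/
theorem pair_finite {P Q R A B : ℤ[X][Y]} (hP : P ≠ 0) (hQ : Q ≠ 0) (hR : R ≠ 0) (hA : A ≠ 0)
    (hB : B ≠ 0) :
    {x : ℂ × ℂ | evZ P x.1 x.2 = 0 ∧ evZ Q x.1 (Gamma x.1) = 0 ∧ evZ R x.2 (Gamma x.2) = 0 ∧
      evZ A (Gamma x.1) x.2 = 0 ∧ evZ B x.1 (Gamma x.2) = 0 ∧
      ¬ (IsAlgebraic ℤ x.1 ∧ IsAlgebraic ℤ (Gamma x.1)) ∧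
      ¬ (IsAlgebraic ℤ x.2 ∧ IsAlgebraic ℤ (Gamma x.2)) ∧
      ∀ n : ℤ, x.2 ≠ x.1 + n}.Finite := by
  have h1 := T1_finite hP hQ hR
  have h2 : (⋃ y ∈ {y : ℂ | aeval y Q.leadingCoeff = 0} ∩ {y | Transcendental ℤ (Gamma y)},
      ({y} : Set ℂ) ×ˢ {w : ℂ | evZ A (Gamma y) w = 0}).Finite :=
    ((roots_fin hQ).subset Set.inter_subset_left).biUnion fun y hy =>
      (Set.finite_singleton _).prod (fin_y hA hy.2)
  have h3 : (⋃ w ∈ {w : ℂ | aeval w R.leadingCoeff = 0} ∩ {w | Transcendental ℤ (Gamma w)},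
      {y : ℂ | evZ B y (Gamma w) = 0} ×ˢ ({w} : Set ℂ)).Finite :=
    ((roots_fin hR).subset Set.inter_subset_left).biUnion fun w hw =>
      (fin_x hB hw.2).prod (Set.finite_singleton _)
  refine ((h1.union h2).union h3).subset ?_
  rintro ⟨y, w⟩ ⟨e1, e2, e3, e4, e5, e6, e7, e8⟩
  simp only at e1 e2 e3 e4 e5 e6 e7 e8
  by_cases hy : IsAlgebraic ℤ y
  · left
    right
    have hG : Transcendental ℤ (Gamma y) := fun h => e6 ⟨hy, h⟩
    simp only [Set.mem_iUnion]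
    exact ⟨y, ⟨coord_alg hy hG e2, hG⟩, rfl, e4⟩
  · by_cases hw : IsAlgebraic ℤ w
    · right
      have hG : Transcendental ℤ (Gamma w) := fun h => e7 ⟨hw, h⟩
      simp only [Set.mem_iUnion]
      exact ⟨w, ⟨coord_alg hw hG e3, hG⟩, e5, rfl⟩
    · left
      left
      exact ⟨e1, e2, e3, hy, hw, e8⟩

/-- finitely many tuples -/
theorem tuple_finite {ι : Type*} [Finite ι] (W : Set (ι ⊕ ι → ℂ))
    (hW : ∀ a b : ι ⊕ ι, a ≠ b → ∃ P : MvPolynomial (Fin 2) ℤ, P ≠ 0 ∧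
      ∀ x ∈ W, MvPolynomial.aeval ![x a, x b] P = 0) :
    {z : ι → ℂ | Sum.elim z (fun i => Gamma (z i)) ∈ W ∧
      ∃ i j : ι, (∀ m : ℤ, z i - z j ≠ m) ∧
        ¬ (IsAlgebraic ℚ (z i) ∧ IsAlgebraic ℚ (Gamma (z i))) ∧
        ¬ (IsAlgebraic ℚ (z j) ∧ IsAlgebraic ℚ (Gamma (z j)))}.Finite := by
  classical
  choose P₀ hP₀ hPW₀ using hW
  have hconv : ∀ (a b : ι ⊕ ι), ∃ P' : ℤ[X][Y], P' ≠ 0 ∧ (a ≠ b → ∀ x ∈ W,
      evZ P' (x a) (x b) = 0) := by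
    intro a b
    by_cases hab : a = b
    · exact ⟨1, one_ne_zero, fun h => absurd hab h⟩
    · obtain ⟨P', h1, h2⟩ := mv_conv (hP₀ a b hab)
      refine ⟨P', h1, fun _ x hx => ?_⟩
      rw [← h2]
      exact hPW₀ a b hab x hx
  choose P hP hPW using hconv
  set T : ι → ι → Set (ℂ × ℂ) := fun i j => {x : ℂ × ℂ |
    evZ (P (Sum.inl i) (Sum.inl j)) x.1 x.2 = 0 ∧
    evZ (P (Sum.inl i) (Sum.inr i)) x.1 (Gamma x.1) = 0 ∧
    evZ (P (Sum.inl j) (Sum.inr j)) x.2 (Gamma x.2) = 0 ∧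
    evZ (P (Sum.inr i) (Sum.inl j)) (Gamma x.1) x.2 = 0 ∧
    evZ (P (Sum.inl i) (Sum.inr j)) x.1 (Gamma x.2) = 0 ∧
    ¬ (IsAlgebraic ℤ x.1 ∧ IsAlgebraic ℤ (Gamma x.1)) ∧
    ¬ (IsAlgebraic ℤ x.2 ∧ IsAlgebraic ℤ (Gamma x.2)) ∧
    ∀ n : ℤ, x.2 ≠ x.1 + n} with hT
  have hTf : ∀ i j, (T i j).Finite := fun i j =>
    pair_finite (hP _ _) (hP _ _) (hP _ _) (hP _ _) (hP _ _)
  -- the other coordinates
  set G : ι → ℂ → ι → Set ℂ := fun i y l => if l = i then {y} else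
    if Transcendental ℤ y then {w | evZ (P (Sum.inl i) (Sum.inl l)) y w = 0} else
    if Transcendental ℤ (Gamma y) then {w | evZ (P (Sum.inr i) (Sum.inl l)) (Gamma y) w = 0}
    else ∅ with hG
  have hGf : ∀ i y l, (G i y l).Finite := by
    intro i y l
    simp only [hG]
    split_ifs with h1 h2 h3
    · exact Set.finite_singleton _
    · exact fin_y (hP _ _) h2
    · exact fin_y (hP _ _) h3
    · exact Set.finite_empty
  have hfin : (⋃ i : ι, ⋃ j : ι, ⋃ x ∈ T i j, Set.pi Set.univ (G i x.1)).Finite :=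
    Set.finite_iUnion fun i => Set.finite_iUnion fun j =>
      (hTf i j).biUnion fun x _ => Set.Finite.pi' (fun l => hGf i x.1 l) |>.subset (by
        intro z hz l
        exact hz l (Set.mem_univ l))
  refine hfin.subset ?_
  rintro z ⟨hz, i, j, hij, hi, hj⟩
  have hij' : i ≠ j := by
    intro h
    apply hij 0
    rw [h]
    simp
  have hrel : ∀ a b : ι ⊕ ι, a ≠ b → evZ (P a b) (Sum.elim z (fun i => Gamma (z i)) a)
      (Sum.elim z (fun i => Gamma (z i)) b) = 0 := fun a b hab => hPW a b hab _ hz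
  have hi' : ¬ (IsAlgebraic ℤ (z i) ∧ IsAlgebraic ℤ (Gamma (z i))) := by
    rw [alg_iff, alg_iff]
    exact hi
  have hj' : ¬ (IsAlgebraic ℤ (z j) ∧ IsAlgebraic ℤ (Gamma (z j))) := by
    rw [alg_iff, alg_iff]
    exact hj
  have hmem : (z i, z j) ∈ T i j := by
    refine ⟨hrel (Sum.inl i) (Sum.inl j) (fun h => hij' (Sum.inl_injective h)),
      hrel (Sum.inl i) (Sum.inr i) Sum.inl_ne_inr, hrel (Sum.inl j) (Sum.inr j) Sum.inl_ne_inr,
      hrel (Sum.inr i) (Sum.inl j) Sum.inr_ne_inl, hrel (Sum.inl i) (Sum.inr j) Sum.inl_ne_inr,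
      hi', hj', fun n hn => ?_⟩
    apply hij (-n)
    simp only at hn
    rw [hn]
    push_cast
    ring
  simp only [Set.mem_iUnion]
  refine ⟨i, j, (z i, z j), hmem, fun l _ => ?_⟩
  simp only [hG]
  split_ifs with h1 h2 h3
  · rw [h1]
    rfl
  · exact hrel (Sum.inl i) (Sum.inl l) (fun h => h1 (Sum.inl_injective h).symm)
  · exact hrel (Sum.inr i) (Sum.inl l) Sum.inr_ne_inl
  · exact absurd ⟨not_not.1 h2, not_not.1 h3⟩ hi'

end Pool.Agent.H489.CU
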