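import Pool.Graph.R_seed8.W688.GF.Stirling

/-!
The asymptotic expansion of the logarithm of the Gamma function.
-/

open Complex Filter Topology

namespace Pool.Agent.H489.CU

open Pool.Agent.W688.GF Pool.Agent.H401R2

/-- dividing by the variable -/
lemma div_var {f : ℂ → ℂ} (hf : AnalyticAt ℂ f 0) (h0 : f 0 = 0) :
    AnalyticAt ℂ (dslope f 0) 0 ∧ ∀ ξ, f ξ = ξ * dslope f 0 ξ := by
  obtain ⟨p, hp⟩ := hf
  refine ⟨hp.has_fpower_series_dslope_fslope.analyticAt, fun ξ => ?_⟩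
  have h := sub_smul_dslope f 0 ξ
  rw [h0, sub_zero, sub_zero, smul_eq_mul] at h
  exact h.symm

/-- `f = ξ ^ m h` near `0` with `h` analytic -/
def Ord (m : ℕ) (f : ℂ → ℂ) : Prop :=
  ∃ h : ℂ → ℂ, AnalyticAt ℂ h 0 ∧ ∀ᶠ ξ in 𝓝 (0 : ℂ), f ξ = ξ ^ m * h ξ

/-- either `f` vanishes near `0` or it has an exact order -/
lemma ord_cases {f : ℂ → ℂ} (hf : AnalyticAt ℂ f 0) : (∀ᶠ ξ in 𝓝 (0 : ℂ), f ξ = 0) ∨
    ∃ (p : ℕ) (g : ℂ → ℂ), AnalyticAt ℂ g 0 ∧ g 0 ≠ 0 ∧ ∀ᶠ ξ in 𝓝 (0 : ℂ), f ξ = ξ ^ p * g ξ := by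
  rcases eq_or_ne (analyticOrderAt f 0) ⊤ with h | h
  · left
    exact analyticOrderAt_eq_top.1 h
  · right
    obtain ⟨p, hp⟩ := ENat.ne_top_iff_exists.1 h
    obtain ⟨g, hg1, hg2, hg3⟩ := (hf.analyticOrderAt_eq_natCast).1 hp.symm
    refine ⟨p, g, hg1, hg2, ?_⟩
    filter_upwards [hg3] with ξ hξ
    simpa using hξ

lemma ord_of_le {f : ℂ → ℂ} (hf : AnalyticAt ℂ f 0) {m : ℕ} {𝓖 : Filter ℂ} [NeBot 𝓖]
    (h𝓖 : 𝓖 ≤ 𝓝[≠] 0) {C : ℝ} (h : ∀ᶠ ξ in 𝓖, ‖f ξ‖ ≤ C * ‖ξ‖ ^ m) : Ord m f := by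
  rcases ord_cases hf with h0 | ⟨p, g, hg1, hg2, hg3⟩
  · exact ⟨fun _ => 0, analyticAt_const, by filter_upwards [h0] with ξ hξ; rw [hξ, mul_zero]⟩
  · have hp : m ≤ p := by
      by_contra hlt
      push Not at hlt
      have h1 : ∀ᶠ ξ in 𝓝 (0 : ℂ), ‖g 0‖ / 2 < ‖g ξ‖ := by
        have := hg1.continuousAt.norm
        exact this.eventually_const_lt (by
          have := norm_pos_iff.2 hg2
          linarith)
      have h2 : Tendsto (fun ξ : ℂ => C * ‖ξ‖) (𝓝 0) (𝓝 0) := by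
        have : Tendsto (fun ξ : ℂ => C * ‖ξ‖) (𝓝 0) (𝓝 (C * ‖(0:ℂ)‖)) :=
          (continuous_const.mul continuous_norm).tendsto _
        rwa [norm_zero, mul_zero] at this
      have h3 : ∀ᶠ ξ in 𝓝 (0 : ℂ), C * ‖ξ‖ < ‖g 0‖ / 2 :=
        h2.eventually_lt_const (by
          have := norm_pos_iff.2 hg2
          linarith)
      have h4 : ∀ᶠ ξ in 𝓝 (0 : ℂ), ‖ξ‖ < 1 := by
        have := (continuous_norm (E := ℂ)).tendsto 0
        rw [norm_zero] at this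
        exact this.eventually_lt_const one_pos
      have h5 : 𝓖 ≤ 𝓝 0 := h𝓖.trans nhdsWithin_le_nhds
      have h6 : ∀ᶠ ξ in 𝓖, ξ ≠ 0 := h𝓖 self_mem_nhdsWithin
      have hCev : ∀ᶠ ξ in 𝓖, 0 ≤ C * ‖ξ‖ ^ m := by
        filter_upwards [h] with ξ hξ using (norm_nonneg _).trans hξ
      have h7 : ∀ᶠ ξ in 𝓖, False := by
        filter_upwards [h, h6, h5 (hg3.and (h1.and (h3.and h4))), hCev] with ξ a1 a2
          ⟨a3, a4, a5, a6⟩ a7
        have hξ : 0 < ‖ξ‖ := norm_pos_iff.2 a2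
        have hC : 0 ≤ C := by
          by_contra hneg
          push Not at hneg
          have : C * ‖ξ‖ ^ m < 0 := mul_neg_of_neg_of_pos hneg (by positivity)
          linarith
        rw [a3, norm_mul, norm_pow] at a1
        have a8 : ‖ξ‖ ^ m ≤ ‖ξ‖ ^ (p + 1) := pow_le_pow_of_le_one hξ.le a6.le hlt
        have a9 : ‖ξ‖ ^ p * ‖g ξ‖ ≤ ‖ξ‖ ^ p * (C * ‖ξ‖) := by
          calc ‖ξ‖ ^ p * ‖g ξ‖ ≤ C * ‖ξ‖ ^ m := a1
            _ ≤ C * ‖ξ‖ ^ (p + 1) := mul_le_mul_of_nonneg_left a8 hC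
            _ = ‖ξ‖ ^ p * (C * ‖ξ‖) := by ring
        have a10 := le_of_mul_le_mul_left a9 (by positivity)
        linarith
      exact h7.exists.elim fun _ h => h
    refine ⟨fun ξ => ξ ^ (p - m) * g ξ, (analyticAt_id.pow _).mul hg1, ?_⟩
    filter_upwards [hg3] with ξ hξ
    rw [hξ, ← mul_assoc, ← pow_add]
    congr 2
    omega

lemma Ord.bound {m : ℕ} {f : ℂ → ℂ} (h : Ord m f) :
    ∃ C : ℝ, 0 ≤ C ∧ ∀ᶠ ξ in 𝓝 (0 : ℂ), ‖f ξ‖ ≤ C * ‖ξ‖ ^ m := by
  obtain ⟨g, hg, hfg⟩ := h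
  refine ⟨‖g 0‖ + 1, by positivity, ?_⟩
  have h1 : ∀ᶠ ξ in 𝓝 (0 : ℂ), ‖g ξ‖ < ‖g 0‖ + 1 :=
    hg.continuousAt.norm.eventually_lt_const (by linarith)
  filter_upwards [hfg, h1] with ξ a1 a2
  rw [a1, norm_mul, norm_pow, mul_comm]
  exact mul_le_mul_of_nonneg_right a2.le (by positivity)

/-- the function `ν` with `mB x = ν (1 / x)` -/
noncomputable def nu (ξ : ℂ) : ℂ := (1 + ξ / 2) * dslope (fun ξ => log (1 + ξ)) 0 ξ - 1

lemma log_an : AnalyticAt ℂ (fun ξ : ℂ => log (1 + ξ)) 0 := by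
  apply AnalyticAt.clog
  · exact analyticAt_const.add analyticAt_id
  · simp

lemma log_eq (ξ : ℂ) : log (1 + ξ) = ξ * dslope (fun ξ => log (1 + ξ)) 0 ξ :=
  (div_var log_an (by simp)).2 ξ

lemma nu_an : AnalyticAt ℂ nu 0 := by
  unfold nu
  exact ((analyticAt_const.add (analyticAt_id.div_const)).mul
    (div_var log_an (by simp)).1).sub analyticAt_const

lemma mB_nu {x : ℂ} (hx : 0 < x.re) : mB x = nu x⁻¹ := by
  have hx0 : x ≠ 0 := by rintro rfl; simp at hx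
  have h1 : log (x + 1) - log x = log (1 + x⁻¹) := by
    have e1 : x + 1 = x * (1 + x⁻¹) := by field_simp
    have hre : 0 < (1 + x⁻¹ : ℂ).re := by
      rw [add_re, one_re, inv_re]
      have : 0 < x.re / normSq x := div_pos hx (normSq_pos.2 hx0)
      linarith
    have h2 : (1 + x⁻¹ : ℂ) ≠ 0 := by
      intro h
      rw [h] at hre
      simp at hre
    have a1 := abs_lt.1 (abs_arg_lt_pi_div_two_iff.2 (Or.inl hx))
    have a2 := abs_lt.1 (abs_arg_lt_pi_div_two_iff.2 (Or.inl hre))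
    rw [e1, log_mul hx0 h2 ⟨by linarith [a1.1, a2.1], by linarith [a1.2, a2.2]⟩]
    ring
  unfold mB nu
  rw [h1, log_eq]
  field_simp

lemma norm_mB_sq {x : ℂ} (hx : 0 < x.re) : ‖mB x‖ ≤ 1 / 8 * ‖x⁻¹‖ ^ 2 := by
  have hx0 : x ≠ 0 := by rintro rfl; simp at hx
  have hxn : 0 < ‖x‖ := norm_pos_iff.2 hx0
  rw [mB_eq hx]
  have h := intervalIntegral.norm_integral_le_of_norm_le_const (a := 0) (b := 1)
    (f := fun t : ℝ => ((t * (1 - t) / 2 : ℝ) : ℂ) / (x + t) ^ 2)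
    (C := 1 / 8 * ‖x⁻¹‖ ^ 2) (by
      intro t ht
      rw [Set.uIoc_of_le zero_le_one] at ht
      have h1 : ‖x‖ ≤ ‖x + t‖ := by
        have e1 : ‖x‖ ^ 2 ≤ ‖x + t‖ ^ 2 := by
          rw [← Complex.normSq_eq_norm_sq, ← Complex.normSq_eq_norm_sq, Complex.normSq_apply,
            Complex.normSq_apply]
          simp only [add_re, ofReal_re, add_im, ofReal_im, add_zero]
          nlinarith [ht.1]
        exact le_of_sq_le_sq e1 (norm_nonneg _)
      rw [norm_div, norm_pow, norm_inv, norm_real, Real.norm_eq_abs,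
        abs_of_nonneg (by nlinarith [ht.1, ht.2])]
      have h2 : t * (1 - t) / 2 ≤ 1 / 8 := by nlinarith [sq_nonneg (t - 1/2)]
      calc t * (1 - t) / 2 / ‖x + t‖ ^ 2 ≤ (1 / 8) / ‖x‖ ^ 2 := by
            gcongr
        _ = 1 / 8 * ‖x‖⁻¹ ^ 2 := by rw [inv_pow]; ring)
  simpa using h

lemma ofReal_pos : Tendsto (fun t : ℝ => (t : ℂ)) (𝓝[>] (0 : ℝ)) (𝓝[≠] 0) := by
  refine tendsto_nhdsWithin_iff.2 ⟨(continuous_ofReal.tendsto' 0 0 ofReal_zero).mono_left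
    nhdsWithin_le_nhds, ?_⟩
  filter_upwards [self_mem_nhdsWithin] with t ht
  have ht' : 0 < t := ht
  show (t : ℂ) ≠ 0
  exact_mod_cast ht'.ne'

lemma nu_ord : Ord 2 nu := by
  have hne : NeBot (map (fun t : ℝ => (t : ℂ)) (𝓝[>] (0 : ℝ))) := by infer_instance
  refine ord_of_le nu_an (𝓖 := map (fun t : ℝ => (t : ℂ)) (𝓝[>] (0 : ℝ))) (C := 1 / 8) ?_ ?_
  · exact ofReal_pos
  · rw [eventually_map]
    filter_upwards [self_mem_nhdsWithin] with t ht
    have ht' : 0 < t := ht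
    have h1 : 0 < (((t : ℂ)⁻¹)).re := by
      rw [← ofReal_inv, ofReal_re]
      positivity
    have h2 := norm_mB_sq h1
    rw [mB_nu h1, inv_inv] at h2
    exact h2

/-- solving the difference equation to a given order -/
lemma solve {f : ℂ → ℂ} (hf : Ord 2 f) : ∀ M : ℕ, 1 ≤ M → ∃ q : Polynomial ℂ, q.eval 0 = 0 ∧
    Ord (M + 1) (fun ξ => f ξ - (q.eval ξ - q.eval (ξ * (1 + ξ)⁻¹))) := by
  intro M hM
  induction M, hM using Nat.le_induction with
  | base => exact ⟨0, by simp, by simpa using hf⟩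
  | succ M hM ih =>
    obtain ⟨q, hq0, h, hh, hfh⟩ := ih
    -- the new term
    set F : ℂ → ℂ := fun ξ => 1 - ((1 + ξ)⁻¹) ^ M with hF
    have hFa : AnalyticAt ℂ F 0 := by
      refine analyticAt_const.sub (AnalyticAt.pow (AnalyticAt.inv ?_ ?_) _)
      · exact analyticAt_const.add analyticAt_id
      · simp
    have hF0 : F 0 = 0 := by simp [hF]
    obtain ⟨hk1, hk2⟩ := div_var hFa hF0
    have hk0 : dslope F 0 0 = M := by
      rw [dslope_same]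
      have h1 : HasDerivAt (fun ξ : ℂ => (1 + ξ)⁻¹) (-1) 0 := by
        have h2 : HasDerivAt (fun ξ : ℂ => 1 + ξ) 1 0 := (hasDerivAt_id 0).const_add 1
        have h3 := h2.fun_inv (by simp)
        simpa using h3
      have h4 := (h1.pow M).const_sub 1
      have h5 : deriv F 0 = _ := h4.deriv
      rw [h5]
      simp
    set c : ℂ := h 0 / M with hc
    have hM0 : (M : ℂ) ≠ 0 := by exact_mod_cast (by omega : M ≠ 0)
    have hga : AnalyticAt ℂ (fun ξ => h ξ - c * dslope F 0 ξ) 0 :=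
      hh.sub (analyticAt_const.mul hk1)
    obtain ⟨hg1, hg2⟩ := div_var hga (by rw [hk0, hc]; field_simp; ring)
    refine ⟨q + Polynomial.C c * Polynomial.X ^ M, ?_, ?_⟩
    · rw [Polynomial.eval_add, hq0]
      simp
      right
      omega
    · refine ⟨_, hg1, ?_⟩
      filter_upwards [hfh] with ξ hξ
      have e1 := hg2 ξ
      have e2 := hk2 ξ
      simp only [hF] at e2
      simp only [Polynomial.eval_add, Polynomial.eval_mul, Polynomial.eval_C,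
        Polynomial.eval_pow, Polynomial.eval_X]
      have e3 : f ξ - (q.eval ξ + c * ξ ^ M - (q.eval (ξ * (1 + ξ)⁻¹) +
          c * (ξ * (1 + ξ)⁻¹) ^ M)) = (f ξ - (q.eval ξ - q.eval (ξ * (1 + ξ)⁻¹))) -
          c * ξ ^ M * (1 - ((1 + ξ)⁻¹) ^ M) := by
        rw [mul_pow]
        ring
      rw [e3, hξ, e2]
      have e4 : ξ ^ (M + 1) * h ξ - c * ξ ^ M * (ξ * dslope F 0 ξ) =
          ξ ^ (M + 1) * (h ξ - c * dslope F 0 ξ) := by ring
      rw [show (dslope (fun ξ => 1 - ((1 + ξ)⁻¹) ^ M) 0 ξ) = dslope F 0 ξ from rfl, e4, e1]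
      ring

/-- the function of Binet -/
noncomputable def mu (x : ℂ) : ℂ := ∑' k : ℕ, mB (x + k)

lemma mB_summable {x : ℂ} (hx : 1 ≤ x.re) : Summable (fun k : ℕ => mB (x + k)) := by
  refine Summable.of_norm_bounded (g := fun k : ℕ => 1 / (8 * ((k : ℝ) + 1) ^ 2)) ?_
    (fun k => norm_mB_shift hx k)
  have h1 : Summable (fun k : ℕ => 1 / ((k : ℝ) + 1) ^ 2) := by
    have := (summable_nat_add_iff 1).2 (Real.summable_one_div_nat_pow.2 (one_lt_two))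
    simpa using this
  refine (h1.mul_left (1 / 8)).congr fun k => ?_
  field_simp

lemma sA_mu {x : ℂ} (hx : 1 ≤ x.re) : sA x = ((√(2 * Real.pi) : ℝ) : ℂ) * exp (mu x) := by
  have hx0 : 0 < x.re := by linarith
  have h1 := tendsto_sA hx0
  have h2 : Tendsto (fun n : ℕ => sA x * exp (-∑ k ∈ Finset.range n, mB (x + k))) atTop
      (𝓝 (sA x * exp (-mu x))) := by
    have h3 := (mB_summable hx).hasSum.tendsto_sum_nat
    exact (((continuous_exp.tendsto _).comp h3.neg)).const_mul _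
  have h3 : sA x * exp (-mu x) = ((√(2 * Real.pi) : ℝ) : ℂ) := by
    refine tendsto_nhds_unique h2 (h1.congr fun n => ?_)
    rw [sA_add_nat hx0]
  rw [← h3, mul_assoc, ← exp_add, neg_add_cancel, exp_zero, mul_one]

/-- the asymptotic expansion -/
theorem mu_exp (M : ℕ) : ∃ (q : Polynomial ℂ) (C X : ℝ), q.eval 0 = 0 ∧ 0 ≤ C ∧ 1 ≤ X ∧
    ∀ x : ℂ, 1 ≤ x.re → X ≤ ‖x‖ → ‖mu x - q.eval x⁻¹‖ ≤ C * ‖x⁻¹‖ ^ M := by
  obtain ⟨q, hq0, hq⟩ := solve nu_ord (M + 1) (by omega)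
  obtain ⟨C, hC, hb⟩ := hq.bound
  obtain ⟨ε, hε, hball⟩ := Metric.eventually_nhds_iff_ball.1 hb
  refine ⟨q, C * 2, max 1 (2 / ε), hq0, by positivity, le_max_left _ _, ?_⟩
  intro x hx hX
  have hx0 : 0 < x.re := by linarith
  have hxn : 1 ≤ ‖x‖ := (le_max_left _ _).trans hX
  have hxn' : 0 < ‖x‖ := by linarith
  have hk : ∀ k : ℕ, ‖x‖ ≤ ‖x + k‖ ∧ (k : ℝ) + 1 ≤ ‖x + k‖ := by
    intro k
    have hk0 : (0 : ℝ) ≤ k := Nat.cast_nonneg k
    constructor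
    · have e1 : ‖x‖ ^ 2 ≤ ‖x + k‖ ^ 2 := by
        rw [← Complex.normSq_eq_norm_sq, ← Complex.normSq_eq_norm_sq, Complex.normSq_apply,
          Complex.normSq_apply]
        simp only [add_re, natCast_re, add_im, natCast_im, add_zero]
        nlinarith
      exact le_of_sq_le_sq e1 (norm_nonneg _)
    · have := re_le_norm (x + k)
      simp only [add_re, natCast_re] at this
      linarith
  -- one step
  have hstep : ∀ k : ℕ, ‖mB (x + k) - (q.eval (x + k)⁻¹ - q.eval (x + (k + 1 : ℕ))⁻¹)‖ ≤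
      C * ‖x⁻¹‖ ^ M * (1 / ((k : ℝ) + 1) ^ 2) := by
    intro k
    have hk0 : (0 : ℝ) ≤ k := Nat.cast_nonneg k
    have hre : 0 < (x + k).re := by
      simp only [add_re, natCast_re]
      linarith
    have hne : x + k ≠ 0 := by
      intro h
      rw [h] at hre
      simp at hre
    have hne1 : x + k + 1 ≠ 0 := by
      intro h
      have : (x + k + 1).re = 0 := by rw [h, zero_re]
      simp only [add_re, natCast_re, one_re] at this
      linarith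
    have hmem : (x + k)⁻¹ ∈ Metric.ball (0 : ℂ) ε := by
      rw [mem_ball_zero_iff, norm_inv]
      have h1 : 2 / ε ≤ ‖x + k‖ := ((le_max_right _ _).trans hX).trans (hk k).1
      have h2 : 0 < 2 / ε := by positivity
      calc ‖x + k‖⁻¹ ≤ (2 / ε)⁻¹ := inv_anti₀ h2 h1
        _ = ε / 2 := by rw [inv_div]
        _ < ε := by linarith
    have h1 := hball _ hmem
    have e1 : (x + (k : ℂ))⁻¹ * (1 + (x + k)⁻¹)⁻¹ = (x + (k + 1 : ℕ))⁻¹ := by
      rw [← mul_inv]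
      congr 1
      push_cast
      field_simp
      ring
    simp only [e1] at h1
    rw [← mB_nu hre] at h1
    refine h1.trans ?_
    rw [mul_assoc]
    apply mul_le_mul_of_nonneg_left _ hC
    have h2 : ‖(x + (k : ℂ))⁻¹‖ ^ (M + 1 + 1) = ‖(x + (k : ℂ))⁻¹‖ ^ M * ‖(x + (k : ℂ))⁻¹‖ ^ 2 := by
      ring
    rw [h2]
    apply mul_le_mul _ _ (by positivity) (by positivity)
    · apply pow_le_pow_left₀ (norm_nonneg _)
      rw [norm_inv, norm_inv]
      exact inv_anti₀ hxn' (hk k).1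
    · rw [norm_inv, ← one_div, div_pow, one_pow]
      apply one_div_le_one_div_of_le (by positivity)
      exact pow_le_pow_left₀ (by positivity) (hk k).2 2
  -- the sum
  have hsum : ∀ n : ℕ, ‖∑ k ∈ Finset.range n, mB (x + k) -
      (q.eval x⁻¹ - q.eval (x + n)⁻¹)‖ ≤ C * 2 * ‖x⁻¹‖ ^ M := by
    intro n
    have e1 : q.eval x⁻¹ - q.eval (x + n)⁻¹ =
        ∑ k ∈ Finset.range n, (q.eval (x + k)⁻¹ - q.eval (x + (k + 1 : ℕ))⁻¹) := by
      have := Finset.sum_range_sub' (fun k : ℕ => q.eval (x + (k : ℂ))⁻¹) n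
      rw [this]
      simp
    rw [e1, ← Finset.sum_sub_distrib]
    refine (norm_sum_le _ _).trans ((Finset.sum_le_sum fun k _ => hstep k).trans ?_)
    rw [← Finset.mul_sum]
    have h1 : ∑ k ∈ Finset.range n, 1 / ((k : ℝ) + 1) ^ 2 ≤ 2 := by
      have h2 := sum_inv_sq_le n
      have h3 : ∑ k ∈ Finset.range n, 1 / (8 * ((k : ℝ) + 1) ^ 2) =
          1 / 8 * ∑ k ∈ Finset.range n, 1 / ((k : ℝ) + 1) ^ 2 := by
        rw [Finset.mul_sum]
        refine Finset.sum_congr rfl fun k _ => ?_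
        field_simp
      rw [h3] at h2
      have h4 : (0:ℝ) ≤ 1 / (4 * ((n : ℝ) + 1)) := by positivity
      linarith
    calc C * ‖x⁻¹‖ ^ M * ∑ k ∈ Finset.range n, 1 / ((k : ℝ) + 1) ^ 2 ≤ C * ‖x⁻¹‖ ^ M * 2 :=
          mul_le_mul_of_nonneg_left h1 (by positivity)
      _ = C * 2 * ‖x⁻¹‖ ^ M := by ring
  have hlim1 := (mB_summable hx).hasSum.tendsto_sum_nat
  have hlim2 : Tendsto (fun n : ℕ => q.eval (x + n)⁻¹) atTop (𝓝 0) := by
    have h1 : Tendsto (fun n : ℕ => (x + (n : ℂ))⁻¹) atTop (𝓝 0) := by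
      rw [tendsto_zero_iff_norm_tendsto_zero]
      have h2 : Tendsto (fun n : ℕ => ((n : ℝ) + 1)⁻¹) atTop (𝓝 0) := by
        simpa using tendsto_one_div_add_atTop_nhds_zero_nat (𝕜 := ℝ)
      refine squeeze_zero (fun _ => norm_nonneg _) (fun n => ?_) h2
      rw [norm_inv]
      exact inv_anti₀ (by positivity) (hk n).2
    have h2 := (q.continuous.tendsto 0).comp h1
    rw [hq0] at h2
    exact h2
  have hlim3 : Tendsto (fun n : ℕ => ‖∑ k ∈ Finset.range n, mB (x + k) -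
      (q.eval x⁻¹ - q.eval (x + n)⁻¹)‖) atTop (𝓝 ‖mu x - (q.eval x⁻¹ - 0)‖) :=
    (hlim1.sub (tendsto_const_nhds.sub hlim2)).norm
  rw [sub_zero] at hlim3
  exact le_of_tendsto hlim3 (Eventually.of_forall hsum)

end Pool.Agent.H489.CU
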