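import Pool.Agent.H489.CU.Reg
import Pool.Agent.H489.CU.Mu

/-!
Limits along a filter on the logarithmic plane.
-/

open Complex Filter Topology

namespace Pool.Agent.H489.CU

/-- the local parameter -/
noncomputable def tt (e : ℕ) (s : ℂ) : ℂ := exp (-(s / e))

lemma tt_ne (e : ℕ) (s : ℂ) : tt e s ≠ 0 := exp_ne_zero _

lemma norm_tt (e : ℕ) (s : ℂ) : ‖tt e s‖ = Real.exp (-(s.re / e)) := by
  unfold tt
  rw [norm_exp]
  congr 1
  have : s / (e : ℂ) = s / ((e : ℝ) : ℂ) := by push_cast; rfl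
  rw [neg_re, this, div_ofReal_re]

/-- the situation: `s` tends to infinity in a horizontal strip -/
structure Str (𝓕 : Filter ℂ) : Prop where
  ne : NeBot 𝓕
  re : Tendsto re 𝓕 atTop
  im : ∀ᶠ s in 𝓕, |s.im| ≤ Real.pi

variable {𝓕 : Filter ℂ} {e : ℕ}

lemma Str.pow (h : Str 𝓕) (he : 0 < e) (k : ℕ) :
    Tendsto (fun s : ℂ => ‖tt e s‖ * s.re ^ k) 𝓕 (𝓝 0) := by
  have he' : (0 : ℝ) < e := by exact_mod_cast he
  have h1 : Tendsto (fun s : ℂ => s.re / e) 𝓕 atTop := h.re.atTop_div_const he'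
  have h2 := (Real.tendsto_pow_mul_exp_neg_atTop_nhds_zero k).comp h1
  have h3 := h2.const_mul ((e : ℝ) ^ k)
  rw [mul_zero] at h3
  refine h3.congr fun s => ?_
  simp only [Function.comp]
  rw [norm_tt, div_pow]
  field_simp

lemma Str.norm0 (h : Str 𝓕) (he : 0 < e) : Tendsto (fun s : ℂ => ‖tt e s‖) 𝓕 (𝓝 0) := by
  simpa using h.pow he 0

lemma Str.zero (h : Str 𝓕) (he : 0 < e) : Tendsto (tt e) 𝓕 (𝓝[≠] 0) := by
  refine tendsto_nhdsWithin_iff.2 ⟨tendsto_zero_iff_norm_tendsto_zero.2 (h.norm0 he), ?_⟩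
  exact Eventually.of_forall fun s => tt_ne e s

lemma Str.zero' (h : Str 𝓕) (he : 0 < e) : Tendsto (tt e) 𝓕 (𝓝 0) :=
  (h.zero he).mono_right nhdsWithin_le_nhds

lemma an_bound {f : ℂ → ℂ} (hf : AnalyticAt ℂ f 0) : ∃ C : ℝ, 0 ≤ C ∧
    ∀ᶠ t in 𝓝 (0 : ℂ), ‖f t - f 0‖ ≤ C * ‖t‖ := by
  have h1 : AnalyticAt ℂ (fun t => f t - f 0) 0 := hf.sub analyticAt_const
  obtain ⟨h2, h3⟩ := div_var h1 (sub_self _)
  obtain ⟨C, hC, h4⟩ := Ord.bound (m := 1) (f := fun t => f t - f 0)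
    ⟨_, h2, Eventually.of_forall fun ξ => by rw [pow_one]; exact h3 ξ⟩
  exact ⟨C, hC, by simpa using h4⟩

lemma Str.small (h : Str 𝓕) (he : 0 < e) {f : ℂ → ℂ} (hf : AnalyticAt ℂ f 0) (k : ℕ) :
    Tendsto (fun s : ℂ => ‖f (tt e s) - f 0‖ * s.re ^ k) 𝓕 (𝓝 0) := by
  obtain ⟨C, hC, hb⟩ := an_bound hf
  have h1 := (h.pow he k).const_mul C
  rw [mul_zero] at h1
  refine squeeze_zero' ?_ ?_ h1
  · filter_upwards [h.re.eventually_ge_atTop 0] with s hs
    positivity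
  · filter_upwards [(h.zero' he).eventually hb, h.re.eventually_ge_atTop 0] with s a1 a2
    calc ‖f (tt e s) - f 0‖ * s.re ^ k ≤ (C * ‖tt e s‖) * s.re ^ k :=
          mul_le_mul_of_nonneg_right a1 (by positivity)
      _ = C * (‖tt e s‖ * s.re ^ k) := by ring

lemma Str.lim (h : Str 𝓕) (he : 0 < e) {f : ℂ → ℂ} (hf : AnalyticAt ℂ f 0) :
    Tendsto (fun s : ℂ => f (tt e s)) 𝓕 (𝓝 (f 0)) :=
  hf.continuousAt.tendsto.comp (h.zero' he)

lemma Str.norm_le (h : Str 𝓕) : ∀ᶠ s in 𝓕, ‖s‖ ≤ 2 * s.re ∧ 0 < s.re := by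
  filter_upwards [h.im, h.re.eventually_ge_atTop (Real.pi + 1)] with s a1 a2
  have := Complex.norm_le_abs_re_add_abs_im s
  have hpi := Real.pi_pos
  rw [abs_of_pos (by linarith : 0 < s.re)] at this
  constructor <;> linarith

/-- products with `s` -/
lemma Str.mul_s (h : Str 𝓕) (he : 0 < e) {f : ℂ → ℂ} (hf : AnalyticAt ℂ f 0) (h0 : f 0 = 0) :
    Tendsto (fun s : ℂ => f (tt e s) * s) 𝓕 (𝓝 0) := by
  have h1 := (h.small he hf 1).const_mul 2
  rw [mul_zero] at h1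
  rw [tendsto_zero_iff_norm_tendsto_zero]
  refine squeeze_zero' (Eventually.of_forall fun _ => norm_nonneg _) ?_ h1
  filter_upwards [h.norm_le] with s a1
  rw [norm_mul, h0, sub_zero, pow_one]
  have := norm_nonneg (f (tt e s))
  nlinarith [a1.1]

/-- the upper family of solutions -/
structure Up (𝓕 : Filter ℂ) : Prop extends Str 𝓕 where
  lim2 : Tendsto (fun s : ℂ => (Real.pi / 2 - s.im) * s.re) 𝓕 (𝓝 (Real.pi / 2))

lemma Up.psi (h : Up 𝓕) : Tendsto (fun s : ℂ => Real.pi / 2 - s.im) 𝓕 (𝓝 0) := by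
  have h1 := h.lim2.mul (tendsto_inv_atTop_zero.comp h.re)
  rw [mul_zero] at h1
  refine h1.congr' ?_
  filter_upwards [h.re.eventually_gt_atTop 0] with s hs
  simp only [Function.comp]
  field_simp

lemma Up.im_lim (h : Up 𝓕) : Tendsto im 𝓕 (𝓝 (Real.pi / 2)) := by
  have h1 := (tendsto_const_nhds (x := Real.pi / 2)).sub h.psi
  rw [sub_zero] at h1
  refine h1.congr fun s => ?_
  ring

lemma Up.vec (h : Up 𝓕) (σ : ℝ) (ω : ℂ) :
    Tendsto (fun s : ℂ => (exp (I * σ * s.im) * ω - exp (I * σ * (Real.pi / 2)) * ω) * s.re) 𝓕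
      (𝓝 (-(I * σ * (Real.pi / 2)) * (exp (I * σ * (Real.pi / 2)) * ω))) := by
  set x : ℂ → ℂ := fun s => -(I * σ * ((Real.pi / 2 - s.im : ℝ) : ℂ)) with hx
  have hx0 : Tendsto x 𝓕 (𝓝 0) := by
    have h1 := ((continuous_ofReal.tendsto 0).comp h.psi).const_mul (I * σ)
    have h2 := h1.neg
    simp only [ofReal_zero, mul_zero, neg_zero] at h2
    exact h2
  have hxL : Tendsto (fun s : ℂ => x s * s.re) 𝓕 (𝓝 (-(I * σ * (Real.pi / 2)))) := by
    have h1 := ((continuous_ofReal.tendsto _).comp h.lim2).const_mul (I * σ)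
    have h2 := h1.neg
    have e1 : (((Real.pi / 2 : ℝ)) : ℂ) = (Real.pi / 2 : ℂ) := by push_cast; rfl
    rw [e1] at h2
    refine h2.congr fun s => ?_
    simp only [hx, Function.comp]
    push_cast
    ring
  have h3 : Tendsto (fun s : ℂ => (exp (x s) - 1) * s.re) 𝓕 (𝓝 (-(I * σ * (Real.pi / 2)))) := by
    have h4 : Tendsto (fun s : ℂ => (exp (x s) - 1 - x s) * s.re) 𝓕 (𝓝 0) := by
      rw [tendsto_zero_iff_norm_tendsto_zero]
      have h5 := (hxL.norm).mul hx0.norm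
      rw [norm_zero, mul_zero] at h5
      refine squeeze_zero' (Eventually.of_forall fun _ => norm_nonneg _) ?_ h5
      have h6 : ∀ᶠ s in 𝓕, ‖x s‖ < 1 :=
        hx0.norm.eventually_lt_const (by rw [norm_zero]; exact one_pos)
      filter_upwards [h6] with s a1
      rw [norm_mul, norm_mul]
      have := norm_exp_sub_one_sub_id_le a1.le
      calc ‖exp (x s) - 1 - x s‖ * ‖(s.re : ℂ)‖ ≤ ‖x s‖ ^ 2 * ‖(s.re : ℂ)‖ :=
            mul_le_mul_of_nonneg_right this (norm_nonneg _)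
        _ = _ := by ring
    have h5 := h4.add hxL
    rw [zero_add] at h5
    refine h5.congr fun s => ?_
    ring
  have h4 := h3.mul_const (exp (I * σ * (Real.pi / 2)) * ω)
  refine h4.congr fun s => ?_
  have e1 : exp (I * σ * s.im) = exp (x s) * exp (I * σ * (Real.pi / 2)) := by
    rw [← exp_add]
    congr 1
    simp only [hx]
    push_cast
    ring
  rw [e1]
  ring

/-- the real part of a rotating vector -/
lemma Up.vec_re (h : Up 𝓕) (σ : ℝ) (ω : ℂ) {κ : ℝ}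
    (hκ : Tendsto (fun s : ℂ => (exp (I * σ * s.im) * ω).re * s.re) 𝓕 (𝓝 κ)) :
    (exp (I * σ * (Real.pi / 2)) * ω).re = 0 ∧
      κ = σ * (Real.pi / 2) * (exp (I * σ * (Real.pi / 2)) * ω).im := by
  have := h.ne
  set ℓ := exp (I * σ * (Real.pi / 2)) * ω with hℓ
  have h1 := (continuous_re.tendsto _).comp (h.vec σ ω)
  rw [← hℓ] at h1
  have e1 : (-(I * σ * (Real.pi / 2)) * ℓ).re = σ * (Real.pi / 2) * ℓ.im := by
    have : (-(I * σ * (Real.pi / 2)) * ℓ) = ((-(σ * (Real.pi / 2)) : ℝ) : ℂ) * (I * ℓ) := by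
      push_cast
      ring
    rw [this, re_ofReal_mul, I_mul_re]
    ring
  rw [e1] at h1
  have h2 := hκ.sub h1
  have h3 : Tendsto (fun s : ℂ => ℓ.re * s.re) 𝓕 (𝓝 (κ - σ * (Real.pi / 2) * ℓ.im)) := by
    refine h2.congr fun s => ?_
    simp only [Function.comp]
    rw [re_mul_ofReal, sub_re]
    ring
  have h4 : ℓ.re = 0 := by
    by_contra h0
    have h5 : Tendsto (fun s : ℂ => |ℓ.re * s.re|) 𝓕 atTop := by
      have h6 : Tendsto (fun s : ℂ => |ℓ.re| * s.re) 𝓕 atTop :=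
        h.re.const_mul_atTop (abs_pos.2 h0)
      refine h6.congr' ?_
      filter_upwards [h.re.eventually_ge_atTop 0] with s hs
      rw [abs_mul, abs_of_nonneg hs]
    exact not_tendsto_nhds_of_tendsto_atTop h5 _ h3.abs
  refine ⟨h4, ?_⟩
  rw [h4] at h3
  simp only [zero_mul] at h3
  have := tendsto_nhds_unique h3 tendsto_const_nhds
  linarith

end Pool.Agent.H489.CU
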