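import Pool.Agent.H489.CU.U8

/-!
Both functions close to the poles: algebraic and elementary estimates.
-/

open Polynomial

namespace Pool.Agent.H489.CU

/-- Liouville: a non zero root of an integer polynomial is not too small -/
lemma liou (β : ℂ) (hβ : β ≠ 0) (hβ1 : ‖β‖ ≤ 1) (n : ℕ) (B : ℝ) (hB : 0 ≤ B) : ∀ U : ℤ[X], U ≠ 0 →
    U.natDegree ≤ n → (∀ i, |((U.coeff i : ℤ) : ℝ)| ≤ B) → aeval β U = 0 →
    1 ≤ (n + 1) * B * ‖β‖ := by
  induction n with
  | zero =>
    intro U h0 hd hc hr
    exfalso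
    rw [eq_C_of_natDegree_eq_zero (Nat.le_zero.1 hd)] at hr h0
    rw [aeval_C] at hr
    have : U.coeff 0 = 0 := by
      have h1 : ((U.coeff 0 : ℤ) : ℂ) = 0 := by simpa using hr
      exact_mod_cast h1
    rw [this] at h0
    simp at h0
  | succ n ih =>
    intro U h0 hd hc hr
    have h1 := divX_mul_X_add U
    have hdd : U.divX.natDegree ≤ n := by
      rw [natDegree_divX_eq_natDegree_tsub_one]
      omega
    have hcc : ∀ i, |((U.divX.coeff i : ℤ) : ℝ)| ≤ B := by
      intro i
      rw [coeff_divX]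
      exact hc _
    have hroot : aeval β U.divX * β + (U.coeff 0 : ℂ) = 0 := by
      rw [← hr]
      conv_rhs => rw [← h1]
      simp
    by_cases hz : U.coeff 0 = 0
    · have h2 : U.divX ≠ 0 := by
        intro h3
        rw [h3, hz] at h1
        simp at h1
        exact h0 h1.symm
      have h3 : aeval β U.divX = 0 := by
        rw [hz] at hroot
        simp only [Int.cast_zero, add_zero, mul_eq_zero] at hroot
        exact hroot.resolve_right hβ
      have h4 := ih _ h2 hdd hcc h3
      have h5 : 0 ≤ B * ‖β‖ := mul_nonneg hB (norm_nonneg _)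
      push_cast
      nlinarith
    · have h2 : (1 : ℝ) ≤ ‖(U.coeff 0 : ℂ)‖ := by
        rw [Complex.norm_intCast]
        exact_mod_cast Int.one_le_abs hz
      have h3 : ‖aeval β U.divX‖ ≤ (n + 1) * B := by
        rw [aeval_eq_sum_range' (n := n + 1) (by omega)]
        refine (norm_sum_le _ _).trans ?_
        calc ∑ i ∈ Finset.range (n + 1), ‖U.divX.coeff i • β ^ i‖
            ≤ ∑ i ∈ Finset.range (n + 1), B := by
              apply Finset.sum_le_sum
              intro i _
              rw [zsmul_eq_mul, norm_mul, norm_pow, Complex.norm_intCast]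
              have := pow_le_one₀ (n := i) (norm_nonneg β) hβ1
              calc _ ≤ B * 1 := mul_le_mul (hcc i) this (by positivity) hB
                _ = B := mul_one _
          _ = (n + 1) * B := by simp
      have h4 : (U.coeff 0 : ℂ) = -(aeval β U.divX * β) := by linear_combination hroot
      rw [h4, norm_neg, norm_mul] at h2
      have h5 : ‖aeval β U.divX‖ * ‖β‖ ≤ ((n + 1) * B) * ‖β‖ :=
        mul_le_mul_of_nonneg_right h3 (norm_nonneg _)
      have h6 : 0 ≤ B * ‖β‖ := mul_nonneg hB (norm_nonneg _)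
      push_cast
      nlinarith

/-- values of integer polynomials -/
lemma poly_val (q : ℤ[X]) : ∃ C : ℝ, 1 ≤ C ∧ ∀ (D k : ℕ), q.natDegree ≤ D →
    |((q.eval (-(k : ℤ)) : ℤ) : ℝ)| ≤ C * (1 + k) ^ D := by
  refine ⟨1 + ∑ i ∈ Finset.range (q.natDegree + 1), |(q.coeff i : ℝ)|, ?_, ?_⟩
  · have : 0 ≤ ∑ i ∈ Finset.range (q.natDegree + 1), |(q.coeff i : ℝ)| :=
      Finset.sum_nonneg fun _ _ => abs_nonneg _
    linarith
  intro D k hD
  rw [eval_eq_sum_range]
  push_cast
  have hk : (1 : ℝ) ≤ 1 + k := by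
    have : (0 : ℝ) ≤ k := Nat.cast_nonneg k
    linarith
  calc |∑ i ∈ Finset.range (q.natDegree + 1), (q.coeff i : ℝ) * (-(k : ℝ)) ^ i|
      ≤ ∑ i ∈ Finset.range (q.natDegree + 1), |(q.coeff i : ℝ) * (-(k : ℝ)) ^ i| :=
        Finset.abs_sum_le_sum_abs _ _
    _ ≤ ∑ i ∈ Finset.range (q.natDegree + 1), |(q.coeff i : ℝ)| * (1 + k) ^ D := by
        apply Finset.sum_le_sum
        intro i hi
        rw [abs_mul, abs_pow, abs_neg, Nat.abs_cast]
        apply mul_le_mul_of_nonneg_left _ (abs_nonneg _)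
        have hi' : i ≤ D := by
          rw [Finset.mem_range] at hi
          omega
        calc ((k : ℝ)) ^ i ≤ (1 + k) ^ i := pow_le_pow_left₀ (Nat.cast_nonneg k) (by linarith) i
          _ ≤ (1 + k) ^ D := pow_le_pow_right₀ hk hi'
    _ = (∑ i ∈ Finset.range (q.natDegree + 1), |(q.coeff i : ℝ)|) * (1 + k) ^ D := by
        rw [Finset.sum_mul]
    _ ≤ _ := by
        apply mul_le_mul_of_nonneg_right _ (by positivity)
        linarith

/-- the specialization of the relation -/
noncomputable def spec (P : ℤ[X][X]) (k m : ℕ) : ℤ[X] :=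
  (P.map (evalRingHom (-(k : ℤ)))).comp (X + C (-(m : ℤ)))

lemma spec_coeff (P : ℤ[X][X]) (k m i : ℕ) : (spec P k m).coeff i =
    ∑ j ∈ Finset.range (P.natDegree + 1), (P.coeff j).eval (-(k : ℤ)) *
      ((-(m : ℤ)) ^ (j - i) * (j.choose i : ℤ)) := by
  unfold spec
  rw [comp, eval₂_eq_sum_range' C (n := P.natDegree + 1)
    (Nat.lt_succ_of_le (natDegree_map_le)), finsetSum_coeff]
  refine Finset.sum_congr rfl fun j _ => ?_
  rw [coeff_C_mul, coeff_X_add_C_pow, coeff_map, coe_evalRingHom]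

lemma spec_bound (P : ℤ[X][X]) : ∃ (C : ℝ) (D : ℕ), 1 ≤ C ∧ ∀ k m i : ℕ,
    |(((spec P k m).coeff i : ℤ) : ℝ)| ≤ C * ((1 + k) * (1 + m)) ^ D := by
  choose c hc1 hc using fun j => poly_val (P.coeff j)
  set D : ℕ := P.natDegree + ∑ j ∈ Finset.range (P.natDegree + 1), (P.coeff j).natDegree with hD
  refine ⟨1 + ∑ j ∈ Finset.range (P.natDegree + 1), c j * 2 ^ j, D, ?_, ?_⟩
  · have : 0 ≤ ∑ j ∈ Finset.range (P.natDegree + 1), c j * 2 ^ j :=
      Finset.sum_nonneg fun j _ => mul_nonneg (by linarith [hc1 j]) (by positivity)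
    linarith
  intro k m i
  rw [spec_coeff]
  push_cast
  have hk : (0 : ℝ) ≤ k := Nat.cast_nonneg k
  have hm : (0 : ℝ) ≤ m := Nat.cast_nonneg m
  calc |∑ j ∈ Finset.range (P.natDegree + 1), (((P.coeff j).eval (-(k : ℤ)) : ℤ) : ℝ) *
        ((-(m : ℝ)) ^ (j - i) * (j.choose i : ℝ))|
      ≤ ∑ j ∈ Finset.range (P.natDegree + 1), |(((P.coeff j).eval (-(k : ℤ)) : ℤ) : ℝ) *
        ((-(m : ℝ)) ^ (j - i) * (j.choose i : ℝ))| := Finset.abs_sum_le_sum_abs _ _
    _ ≤ ∑ j ∈ Finset.range (P.natDegree + 1), c j * 2 ^ j * ((1 + k) * (1 + m)) ^ D := by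
        apply Finset.sum_le_sum
        intro j hj
        rw [abs_mul, abs_mul, abs_pow, abs_neg, Nat.abs_cast, Nat.abs_cast, mul_pow]
        have h1 : (P.coeff j).natDegree ≤ D := by
          rw [hD]
          have := Finset.single_le_sum (f := fun j => (P.coeff j).natDegree)
            (fun _ _ => Nat.zero_le _) hj
          omega
        have h2 := hc j D k h1
        have h3 : (m : ℝ) ^ (j - i) ≤ (1 + m) ^ D := by
          have h4 : j - i ≤ D := by
            rw [Finset.mem_range] at hj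
            omega
          calc (m : ℝ) ^ (j - i) ≤ (1 + m) ^ (j - i) := pow_le_pow_left₀ hm (by linarith) _
            _ ≤ (1 + m) ^ D := pow_le_pow_right₀ (by linarith) h4
        have h4 : (j.choose i : ℝ) ≤ 2 ^ j := by exact_mod_cast Nat.choose_le_two_pow j i
        calc _ ≤ (c j * (1 + k) ^ D) * ((1 + m) ^ D * 2 ^ j) := by
              apply mul_le_mul h2 _ (by positivity) (by
                have := hc1 j
                positivity)
              exact mul_le_mul h3 h4 (by positivity) (by positivity)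
          _ = _ := by ring
    _ = (∑ j ∈ Finset.range (P.natDegree + 1), c j * 2 ^ j) * ((1 + k) * (1 + m)) ^ D := by
        rw [Finset.sum_mul]
    _ ≤ _ := by
        apply mul_le_mul_of_nonneg_right _ (by positivity)
        linarith

lemma spec_ne {P : ℤ[X][X]} (hP : P ≠ 0) : ∃ K : ℕ, ∀ k m : ℕ, K ≤ k → spec P k m ≠ 0 := by
  have hl : P.leadingCoeff ≠ 0 := leadingCoeff_ne_zero.2 hP
  have hfin : {x : ℤ | P.leadingCoeff.eval x = 0}.Finite := by
    refine (P.leadingCoeff.roots.toFinset.finite_toSet).subset fun x hx => ?_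
    have hx' : P.leadingCoeff.eval x = 0 := hx
    simp [hl, hx']
  obtain ⟨B, hB⟩ := hfin.bddBelow
  refine ⟨(1 - B).toNat, fun k m hk h0 => ?_⟩
  unfold spec at h0
  rw [comp_X_add_C_eq_zero_iff] at h0
  have h1 : (P.map (evalRingHom (-(k : ℤ)))).coeff P.natDegree = 0 := by rw [h0, coeff_zero]
  rw [coeff_map, coe_evalRingHom] at h1
  have h2 : B ≤ -(k : ℤ) := hB h1
  omega

lemma spec_deg (P : ℤ[X][X]) (k m : ℕ) : (spec P k m).natDegree ≤ P.natDegree := by
  unfold spec
  rw [natDegree_comp]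
  refine (Nat.mul_le_mul_right _ natDegree_map_le).trans ?_
  rw [natDegree_X_add_C, mul_one]

/-- evaluation of an integer relation at complex numbers -/
noncomputable def evZ (P : ℤ[X][X]) (x y : ℂ) : ℂ :=
  (P.map (mapRingHom (Int.castRingHom ℂ))).evalEval x y

lemma evZ_eq_sum (P : ℤ[X][X]) (x y : ℂ) :
    evZ P x y = ∑ j ∈ Finset.range (P.natDegree + 1), aeval x (P.coeff j) * y ^ j := by
  unfold evZ evalEval
  rw [eval_eq_sum_range' (n := P.natDegree + 1) (Nat.lt_succ_of_le natDegree_map_le),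
    eval_finsetSum]
  refine Finset.sum_congr rfl fun j _ => ?_
  simp [aeval_def, eval₂_eq_eval_map]

lemma spec_root {P : ℤ[X][X]} {k m : ℕ} {z : ℂ} (h : evZ P (-(k : ℂ)) z = 0) :
    aeval (z + m) (spec P k m) = 0 := by
  unfold spec
  rw [aeval_comp]
  have e1 : aeval (z + m) (X + C (-(m : ℤ))) = z := by simp
  rw [e1, aeval_eq_sum_range' (n := P.natDegree + 1) (Nat.lt_succ_of_le natDegree_map_le), ← h,
    evZ_eq_sum]
  refine Finset.sum_congr rfl fun j _ => ?_
  rw [coeff_map, coe_evalRingHom, zsmul_eq_mul]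
  congr 1
  have : (aeval (-(k : ℂ))) (P.coeff j) = ((((P.coeff j).eval (-(k : ℤ)) : ℤ)) : ℂ) := by
    have h2 : (-(k : ℂ)) = algebraMap ℤ ℂ (-(k : ℤ)) := by simp
    rw [h2, aeval_algebraMap_apply]
    simp
  rw [this]

/-- the difference of two integers with almost equal factorials -/
lemma fact_close {k m : ℕ} {A c L : ℝ} (hL : 0 < L) (hkL : L ≤ Real.log (k + 1)) (hc : 0 < c)
    (hmL : c * L ≤ Real.log (m + 1))
    (h : |Real.log (k.factorial) - Real.log (m.factorial)| ≤ A * L) :
    |(k : ℝ) - m| ≤ |A| / min 1 c := by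
  have hmin : 0 < min 1 c := lt_min one_pos hc
  have key : ∀ (a b : ℕ), a ≤ b → min 1 c * L ≤ Real.log (a + 1) →
      Real.log (b.factorial) - Real.log (a.factorial) ≤ A * L → (b : ℝ) - a ≤ |A| / min 1 c := by
    intro a b hab h1 h2
    have h3 : a.factorial * (a + 1) ^ (b - a) ≤ b.factorial := by
      have := Nat.factorial_mul_pow_le_factorial (m := a) (n := b - a)
      rwa [Nat.add_sub_cancel' hab] at this
    have h4 : Real.log (a.factorial) + (b - a) * Real.log (a + 1) ≤ Real.log (b.factorial) := by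
      have h5 : ((a.factorial : ℝ)) * ((a : ℝ) + 1) ^ (b - a) ≤ (b.factorial : ℝ) := by
        exact_mod_cast h3
      have h6 := Real.log_le_log (by positivity) h5
      rw [Real.log_mul (by positivity) (by positivity), Real.log_pow,
        Nat.cast_sub hab] at h6
      exact h6
    have h5 : (0 : ℝ) ≤ (b : ℝ) - a := by
      have : (a : ℝ) ≤ b := by exact_mod_cast hab
      linarith
    have h6 : ((b : ℝ) - a) * (min 1 c * L) ≤ |A| * L := by
      calc ((b : ℝ) - a) * (min 1 c * L) ≤ ((b : ℝ) - a) * Real.log (a + 1) :=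
            mul_le_mul_of_nonneg_left h1 h5
        _ ≤ A * L := by linarith
        _ ≤ |A| * L := mul_le_mul_of_nonneg_right (le_abs_self _) hL.le
    rw [le_div_iff₀ hmin]
    have h7 : ((b : ℝ) - a) * min 1 c * L ≤ |A| * L := by linarith
    exact le_of_mul_le_mul_right h7 hL
  have h1 : min 1 c * L ≤ Real.log (k + 1) := by
    have : min 1 c * L ≤ 1 * L := mul_le_mul_of_nonneg_right (min_le_left _ _) hL.le
    linarith
  have h2 : min 1 c * L ≤ Real.log (m + 1) := by
    have : min 1 c * L ≤ c * L := mul_le_mul_of_nonneg_right (min_le_right _ _) hL.le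
    linarith
  have h3 := abs_le.1 h
  rcases le_total k m with hkm | hkm
  · have := key k m hkm h1 (by linarith)
    rw [abs_sub_comm, abs_of_nonneg]
    · exact this
    · have : (k : ℝ) ≤ m := by exact_mod_cast hkm
      linarith
  · have := key m k hkm h2 (by linarith)
    rw [abs_of_nonneg]
    · exact this
    · have : (m : ℝ) ≤ k := by exact_mod_cast hkm
      linarith

end Pool.Agent.H489.CU
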