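import Pool.Agent.H489.CU.N1

/-!
Both functions close to the poles: analytic estimates.
-/

open Complex Filter Topology

namespace Pool.Agent.H489.CU

open Pool.Agent.W688.GF Pool.Agent.H401R2

/-- the effect of a small shift -/
lemma shift_est {e p : ℕ} (he : 0 < e) (hp : 0 < p) {g : ℂ → ℂ} (hg : AnalyticAt ℂ g 0)
    (hg0 : g 0 ≠ 0) : ∃ r : ℝ, 0 < r ∧ ∀ t ε : ℂ, ‖t‖ < r → ‖ε‖ < r →
      ‖exp (p * ε / e) * g (t * exp (-(ε / e))) - g t - (p / e * g 0) * ε‖ ≤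
        ‖(p / e * g 0 : ℂ)‖ / 2 * ‖ε‖ := by
  have he' : (e : ℂ) ≠ 0 := by exact_mod_cast he.ne'
  have hp' : (p : ℂ) ≠ 0 := by exact_mod_cast hp.ne'
  set L₀ : ℂ := p / e * g 0 with hL₀
  have hL : 0 < ‖L₀‖ / 2 := by
    have : L₀ ≠ 0 := mul_ne_zero (div_ne_zero hp' he') hg0
    have := norm_pos_iff.2 this
    linarith
  set τ : ℂ × ℂ → ℂ := fun x => x.1 * exp (-(x.2 / e)) with hτ
  have hτc : Continuous τ := by fun_prop
  have hτ0 : τ (0, 0) = 0 := by simp [hτ]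
  set Φ : ℂ × ℂ → ℂ := fun x => exp (p * x.2 / e) * (p / e * g (τ x) - τ x / e * deriv g (τ x))
    with hΦ
  have hΦ0 : Φ (0, 0) = L₀ := by simp [hΦ, hτ0, hL₀]
  have hΦc : ContinuousAt Φ (0, 0) := by
    have h1 : ContinuousAt (fun x => g (τ x)) (0, 0) := by
      apply ContinuousAt.comp (f := τ) (g := g) _ hτc.continuousAt
      rw [hτ0]
      exact hg.continuousAt
    have h2 : ContinuousAt (fun x => deriv g (τ x)) (0, 0) := by
      apply ContinuousAt.comp (f := τ) (g := deriv g) _ hτc.continuousAt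
      rw [hτ0]
      exact hg.deriv.continuousAt
    have h3 : ContinuousAt (fun x : ℂ × ℂ => exp (p * x.2 / e)) (0, 0) := by fun_prop
    exact h3.mul ((continuousAt_const.mul h1).sub ((hτc.continuousAt.div_const _).mul h2))
  have h1 : ∀ᶠ x in 𝓝 ((0 : ℂ), (0 : ℂ)), ‖Φ x - L₀‖ < ‖L₀‖ / 2 := by
    have h2 : ContinuousAt (fun x => ‖Φ x - L₀‖) (0, 0) := (hΦc.sub continuousAt_const).norm
    exact h2.eventually_lt_const (by
      show ‖Φ (0, 0) - L₀‖ < _
      rw [hΦ0, sub_self, norm_zero]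
      exact hL)
  have h2 : ∀ᶠ x in 𝓝 ((0 : ℂ), (0 : ℂ)), AnalyticAt ℂ g (τ x) := by
    have h3 : Tendsto τ (𝓝 (0, 0)) (𝓝 0) := by
      have := hτc.tendsto (0, 0)
      rwa [hτ0] at this
    exact h3.eventually hg.eventually_analyticAt
  obtain ⟨r, hr, hball⟩ := Metric.eventually_nhds_iff_ball.1 (h1.and h2)
  refine ⟨r, hr, fun t ε ht hε => ?_⟩
  have hmem : ∀ x : ℂ, ‖x‖ < r → ((t, x) : ℂ × ℂ) ∈ Metric.ball ((0 : ℂ), (0 : ℂ)) r := by
    intro x hx
    rw [Metric.mem_ball, Prod.dist_eq]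
    simp only [dist_zero_right]
    exact max_lt ht hx
  have hd : ∀ x ∈ Metric.ball (0 : ℂ) r, HasDerivWithinAt
      (fun x => exp (p * x / e) * g (t * exp (-(x / e))) - L₀ * x) (Φ (t, x) - L₀)
      (Metric.ball (0 : ℂ) r) x := by
    intro x hx
    rw [mem_ball_zero_iff] at hx
    have ha := (hball _ (hmem x hx)).2
    have d1 : HasDerivAt (fun x : ℂ => exp (p * x / e)) (exp (p * x / e) * (p * 1 / e)) x :=
      (((hasDerivAt_id x).const_mul (p : ℂ)).div_const (e : ℂ)).cexp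
    have d2 : HasDerivAt (fun x : ℂ => t * exp (-(x / e))) (t * (exp (-(x / e)) * -(1 / e))) x :=
      ((((hasDerivAt_id x).div_const (e : ℂ)).neg).cexp).const_mul t
    have d3 : HasDerivAt (fun x : ℂ => g (t * exp (-(x / e))))
        (deriv g (t * exp (-(x / e))) * (t * (exp (-(x / e)) * -(1 / e)))) x :=
      (ha.differentiableAt.hasDerivAt).comp x d2
    have d4 := (d1.mul d3).sub ((hasDerivAt_id x).const_mul L₀)
    apply HasDerivAt.hasDerivWithinAt
    convert! d4 using 1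
    simp only [hΦ, hτ, mul_one]
    ring
  have hbd : ∀ x ∈ Metric.ball (0 : ℂ) r, ‖Φ (t, x) - L₀‖ ≤ ‖L₀‖ / 2 := by
    intro x hx
    rw [mem_ball_zero_iff] at hx
    exact (hball _ (hmem x hx)).1.le
  have h3 := (convex_ball (0 : ℂ) r).norm_image_sub_le_of_norm_hasDerivWithin_le hd hbd
    (Metric.mem_ball_self hr) (mem_ball_zero_iff.2 hε)
  simp only [mul_zero, zero_div, exp_zero, neg_zero, mul_one, one_mul, sub_zero] at h3
  refine le_trans (le_of_eq ?_) h3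
  congr 1
  ring

lemma norm_sin_le_two {x : ℂ} (hx : ‖x‖ ≤ 1) : ‖sin x‖ ≤ 2 * ‖x‖ := by
  have e1 : sin x = ((exp (-x * I) - 1) - (exp (x * I) - 1)) * I / 2 := by
    unfold Complex.sin
    ring
  have hn : ‖x * I‖ = ‖x‖ := by rw [norm_mul, norm_I, mul_one]
  have hn' : ‖-x * I‖ = ‖x‖ := by rw [norm_mul, norm_I, mul_one, norm_neg]
  have h1 := Complex.norm_exp_sub_one_le (x := x * I) (by rw [hn]; exact hx)
  have h2 := Complex.norm_exp_sub_one_le (x := -x * I) (by rw [hn']; exact hx)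
  rw [hn] at h1
  rw [hn'] at h2
  rw [e1, norm_div, norm_mul, norm_I, mul_one]
  have h3 : ‖(2 : ℂ)‖ = 2 := by simp
  rw [h3, div_le_iff₀ two_pos]
  refine (norm_sub_le _ _).trans ?_
  linarith

lemma main_diff {x₀ : ℝ} {x η : ℂ} (hx₀ : 4 ≤ x₀) (hx : x = x₀ - η)
    (hη : ‖η‖ * (x₀ + 5) ≤ 1) : |(x * log x - x).re - ((x₀ : ℂ) * log x₀ - x₀).re| ≤ 1 := by
  have hx₀c : (x₀ : ℂ) ≠ 0 := by exact_mod_cast (show x₀ ≠ 0 by linarith)
  have hηn := norm_nonneg η
  have hη2 : ‖η‖ ≤ 1 / 9 := by nlinarith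
  have hxe : x = x₀ * (1 + -(η / x₀)) := by
    rw [mul_add, mul_one, mul_neg, mul_div_cancel₀ _ hx₀c, hx]
    ring
  have hu : ‖-(η / x₀)‖ ≤ ‖η‖ / 4 := by
    rw [norm_neg, norm_div, norm_real, Real.norm_eq_abs, abs_of_pos (by linarith)]
    exact div_le_div_of_nonneg_left hηn (by norm_num) hx₀
  have hux : x₀ * ‖-(η / x₀)‖ = ‖η‖ := by
    rw [norm_neg, norm_div, norm_real, Real.norm_eq_abs, abs_of_pos (by linarith : 0 < x₀)]
    field_simp
  have hlu := norm_log_one_add_half_le_self (z := -(η / x₀)) (by linarith)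
  have hu1 : 1 + -(η / x₀) ≠ 0 := by
    intro h0
    have h2 : ‖-(η / x₀)‖ = 1 := by
      have : -(η / x₀) = -1 := by linear_combination h0
      rw [this]
      simp
    linarith
  have hlogx : log x = Real.log x₀ + log (1 + -(η / x₀)) := by
    rw [hxe, log_ofReal_mul (by linarith) hu1]
  rw [← sub_re]
  refine (abs_re_le_norm _).trans ?_
  have e1 : x * log x - x - ((x₀ : ℂ) * log x₀ - x₀) =
      (-η) * (Real.log x₀ + log (1 + -(η / x₀)) - 1) + x₀ * log (1 + -(η / x₀)) := by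
    rw [hlogx, ← ofReal_log (by linarith), hx]
    ring
  rw [e1]
  refine (norm_add_le _ _).trans ?_
  rw [norm_mul, norm_neg, norm_mul, norm_real, Real.norm_eq_abs, abs_of_pos (by linarith : 0 < x₀)]
  have h3 : ‖(Real.log x₀ : ℂ) + log (1 + -(η / x₀)) - 1‖ ≤ x₀ + 3 := by
    refine (norm_sub_le _ _).trans ?_
    have h4 := norm_add_le (Real.log x₀ : ℂ) (log (1 + -(η / x₀)))
    rw [norm_real, Real.norm_eq_abs, abs_of_nonneg (Real.log_nonneg (by linarith))] at h4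
    have h5 := Real.log_le_sub_one_of_pos (show 0 < x₀ by linarith)
    rw [norm_one]
    linarith
  have h4 : x₀ * ‖log (1 + -(η / x₀))‖ ≤ 3 / 2 * ‖η‖ := by
    calc x₀ * ‖log (1 + -(η / x₀))‖ ≤ x₀ * (3 / 2 * ‖-(η / x₀)‖) :=
          mul_le_mul_of_nonneg_left hlu (by linarith)
      _ = 3 / 2 * (x₀ * ‖-(η / x₀)‖) := by ring
      _ = _ := by rw [hux]
  have h5 : ‖η‖ * ‖(Real.log x₀ : ℂ) + log (1 + -(η / x₀)) - 1‖ ≤ ‖η‖ * (x₀ + 3) :=
    mul_le_mul_of_nonneg_left h3 hηn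
  nlinarith

/-- the sine close to an integer -/
lemma sin_pole {w η : ℂ} {k : ℕ} (hwe : w = η - k) (hη : ‖η‖ ≤ 1 / 10) (hη0 : η ≠ 0) :
    0 < ‖sin (Real.pi * w)‖ ∧ |Real.log ‖sin (Real.pi * w)‖ - Real.log ‖η‖| ≤ 7 := by
  have hpi := Real.pi_pos
  have hpi3 := Real.pi_gt_three
  have hpi4 := Real.pi_lt_four
  have hsin : ‖sin (Real.pi * w)‖ = ‖sin (Real.pi * η)‖ := by
    have e1 : (Real.pi : ℂ) * w = Real.pi * η - k * Real.pi := by rw [hwe]; ring
    have e2 : ‖cos ((k : ℂ) * Real.pi)‖ = 1 := by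
      have e3 : ((k : ℂ) * Real.pi) = (((k : ℤ) : ℝ) * Real.pi : ℝ) := by push_cast; rfl
      rw [e3, ← ofReal_cos, norm_real, Real.norm_eq_abs, Real.abs_cos_int_mul_pi]
    have e4 : sin ((k : ℂ) * Real.pi) = 0 := by
      have := Complex.sin_int_mul_pi (k : ℤ)
      push_cast at this
      exact this
    rw [e1, Complex.sin_sub, e4, mul_zero, sub_zero, norm_mul, e2, mul_one]
  have hηp : 0 < ‖η‖ := norm_pos_iff.2 hη0
  have hpin : ‖(Real.pi : ℂ) * η‖ = Real.pi * ‖η‖ := by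
    rw [norm_mul, norm_real, Real.norm_eq_abs, abs_of_pos hpi]
  have hpn : Real.pi * ‖η‖ ≤ 4 / 10 := by nlinarith
  have hlow : 2 * ‖η‖ ≤ ‖sin (Real.pi * w)‖ := by
    have h10 := norm_sin_ge ((Real.pi : ℂ) * η) (by
      refine (abs_re_le_norm _).trans ?_
      rw [hpin]
      linarith)
    rw [hsin]
    refine le_trans (le_of_eq ?_) h10
    rw [hpin]
    field_simp
  have hup : ‖sin (Real.pi * w)‖ ≤ 8 * ‖η‖ := by
    rw [hsin]
    refine (norm_sin_le_two (by rw [hpin]; linarith)).trans ?_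
    rw [hpin]
    nlinarith
  have hs0 : 0 < ‖sin (Real.pi * w)‖ := by linarith
  refine ⟨hs0, ?_⟩
  have hls1 : Real.log ‖η‖ ≤ Real.log ‖sin (Real.pi * w)‖ :=
    Real.log_le_log hηp (by linarith)
  have hls2 : Real.log ‖sin (Real.pi * w)‖ ≤ Real.log ‖η‖ + 7 := by
    have := Real.log_le_log hs0 hup
    rw [Real.log_mul (by norm_num) hηp.ne'] at this
    have h8 : Real.log 8 ≤ 7 := by
      have := Real.log_le_sub_one_of_pos (show (0:ℝ) < 8 by norm_num)
      linarith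
    linarith
  rw [abs_le]
  constructor <;> linarith

/-- the Gamma function close to a pole -/
lemma gamma_pole : ∃ C : ℝ, 0 ≤ C ∧ ∀ (w : ℂ) (k : ℕ), 4 ≤ ‖w‖ →
    ‖w + k‖ ≤ Real.exp (-‖w‖) → Gamma w ≠ 0 →
    |Real.log ‖Gamma w‖ + Real.log k.factorial + Real.log ‖w + k‖| ≤ C * Real.log ‖w‖ := by
  have hcS : 0 ≤ cS + 2 := by linarith [cS_nonneg]
  refine ⟨2 * (cS + 2) + 28, by linarith, fun w k hw hN hG => ?_⟩
  have hpi := Real.pi_pos
  have hpi3 := Real.pi_gt_three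
  have hpi4 := Real.pi_lt_four
  obtain ⟨W, hW⟩ : ∃ W, W = ‖w‖ := ⟨_, rfl⟩
  obtain ⟨η, hη⟩ : ∃ η, η = w + k := ⟨_, rfl⟩
  rw [← hW, ← hη] at hN
  rw [← hW] at hw
  rw [← hη, ← hW]
  have hηn := norm_nonneg η
  have hq := Real.quadratic_le_exp_of_nonneg (show 0 ≤ W by linarith)
  have hexpW : Real.exp (-W) * (W + 7) ≤ 1 := by
    rw [Real.exp_neg, inv_mul_le_iff₀ (Real.exp_pos _), mul_one]
    nlinarith
  have hη1 : ‖η‖ * (W + 7) ≤ 1 :=
    (mul_le_mul_of_nonneg_right hN (by linarith)).trans hexpW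
  have hη2 : ‖η‖ ≤ 1 / 10 := by nlinarith
  have hη0 : η ≠ 0 := by
    intro h0
    apply hG
    have : w = -(k : ℂ) := by rw [hη] at h0; linear_combination h0
    rw [this, Gamma_neg_nat_eq_zero]
  have hkW : |W - k| ≤ ‖η‖ := by
    have := abs_norm_sub_norm_le w (-(k : ℂ))
    rw [norm_neg, Complex.norm_natCast, sub_neg_eq_add, ← hW, ← hη] at this
    exact this
  have hkW' := abs_le.1 hkW
  have hwe : w = η - k := by rw [hη]; ring
  have hwre : w.re ≤ 0 := by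
    rw [hwe, sub_re, natCast_re]
    have := (abs_re_le_norm η)
    have := le_abs_self η.re
    linarith
  -- the reflection formula
  have h1 := inv_Gamma hwre
  obtain ⟨hs0, hls⟩ := sin_pole hwe hη2 hη0
  have hlpi : Real.log Real.pi ≤ 3 := by
    have := Real.log_le_sub_one_of_pos hpi
    linarith
  have hlpi0 : 0 ≤ Real.log Real.pi := Real.log_nonneg (by linarith)
  obtain ⟨x, hx⟩ : ∃ x, x = 1 - w := ⟨_, rfl⟩
  rw [← hx] at h1
  have hG1 : Gamma x ≠ 0 := Gamma_ne_zero_of_re_pos (by rw [hx]; simp; linarith)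
  have hsum : Real.log ‖Gamma w‖ = -(Real.log ‖Gamma x‖ + Real.log ‖sin (Real.pi * w)‖ -
      Real.log Real.pi) := by
    have h2 := congrArg (fun z : ℂ => Real.log ‖z‖) h1
    simp only [norm_inv, Real.log_inv, norm_div, norm_mul] at h2
    rw [Real.log_div (mul_pos (norm_pos_iff.2 hG1) hs0).ne' (by
      rw [norm_real, Real.norm_eq_abs, abs_of_pos hpi]; exact hpi.ne'),
      Real.log_mul (norm_pos_iff.2 hG1).ne' hs0.ne', norm_real, Real.norm_eq_abs,
      abs_of_pos hpi] at h2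
    linarith
  -- Stirling
  obtain ⟨x₀, hx₀⟩ : ∃ x₀ : ℝ, x₀ = 1 + k := ⟨_, rfl⟩
  have hx₀3 : 4 ≤ x₀ := by rw [hx₀]; linarith
  have hmain := main_diff (x₀ := x₀) (x := x) (η := η) hx₀3 (by
    rw [hx, hwe, hx₀]; push_cast; ring) (by
    have h2 : x₀ + 5 ≤ W + 7 := by rw [hx₀]; linarith
    exact (mul_le_mul_of_nonneg_left h2 hηn).trans hη1)
  have hxre : 0 ≤ x.re := by rw [hx]; simp; linarith
  have hxn : ‖x‖ ≤ W + 1 := by
    rw [hx]
    refine (norm_sub_le _ _).trans ?_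
    rw [norm_one, ← hW]
    linarith
  have hxn2 : 2 ≤ ‖x‖ := by
    have := norm_sub_norm_le w 1
    rw [norm_one, norm_sub_rev, ← hx, ← hW] at this
    linarith
  have hst1 := stir_half hxre hxn2
  have hst2 := stir_half (w := (x₀ : ℂ)) (by simp; linarith) (by
    rw [norm_real, Real.norm_eq_abs, abs_of_pos (by linarith)]; linarith)
  have hGk : Real.log ‖Gamma (x₀ : ℂ)‖ = Real.log k.factorial := by
    have : (x₀ : ℂ) = (k : ℂ) + 1 := by rw [hx₀]; push_cast; ring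
    rw [this, Gamma_nat_eq_factorial, Complex.norm_natCast]
  rw [hGk, norm_real, Real.norm_eq_abs, abs_of_pos (by linarith : 0 < x₀)] at hst2
  have hlW : 1 ≤ Real.log W := by
    rw [Real.le_log_iff_exp_le (by linarith)]
    have := Real.exp_one_lt_d9
    linarith
  have hl1 : Real.log ‖x‖ ≤ 2 * Real.log W := by
    have e1 : ‖x‖ ≤ W ^ 2 := by nlinarith
    calc Real.log ‖x‖ ≤ Real.log (W ^ 2) := Real.log_le_log (by linarith) e1
      _ = 2 * Real.log W := by rw [Real.log_pow]; norm_num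
  have hl2 : Real.log x₀ ≤ 2 * Real.log W := by
    have e1 : x₀ ≤ W ^ 2 := by rw [hx₀]; nlinarith
    calc Real.log x₀ ≤ Real.log (W ^ 2) := Real.log_le_log (by linarith) e1
      _ = 2 * Real.log W := by rw [Real.log_pow]; norm_num
  have a1 := abs_le.1 hst1
  have a2 := abs_le.1 hst2
  have a3 := abs_le.1 hmain
  have a4 := abs_le.1 hls
  have hfin : 2 * (cS + 2) + 11 + 16 * Real.log W ≤ (2 * (cS + 2) + 28) * Real.log W := by
    nlinarith
  rw [hsum]
  rw [abs_le]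
  constructor <;> linarith

end Pool.Agent.H489.CU
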