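import Pool.Agent.H489.CU.N2

/-!
Both functions close to the poles.
-/

open Complex Filter Topology Polynomial

namespace Pool.Agent.H489.CU

lemma mero_freq {f : ℂ → ℂ} (hf : MeromorphicAt f 0) (h : ∃ᶠ t in 𝓝[≠] (0 : ℂ), f t = 0) :
    ∀ᶠ t in 𝓝[≠] (0 : ℂ), f t = 0 := by
  obtain ⟨n, hn⟩ := hf
  have h1 : ∃ᶠ t in 𝓝[≠] (0 : ℂ), (t - 0) ^ n • f t = 0 := by
    refine h.mono fun t ht => ?_
    rw [ht, smul_zero]
  have h2 := hn.frequently_zero_iff_eventually_zero.1 h1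
  filter_upwards [nhdsWithin_le_nhds h2, self_mem_nhdsWithin] with t a1 a2
  have a3 : t ≠ 0 := a2
  rw [smul_eq_zero] at a1
  refine a1.resolve_left (pow_ne_zero _ ?_)
  rwa [sub_zero]

lemma mero_evZ (P : ℤ[X][X]) {a b : ℂ → ℂ} {x : ℂ} (ha : MeromorphicAt a x)
    (hb : MeromorphicAt b x) : MeromorphicAt (fun t => evZ P (a t) (b t)) x := by
  have h1 : (fun t => evZ P (a t) (b t)) = fun t => ∑ j ∈ Finset.range (P.natDegree + 1),
      (∑ i ∈ Finset.range ((P.coeff j).natDegree + 1), ((P.coeff j).coeff i : ℂ) * (a t) ^ i) *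
        (b t) ^ j := by
    funext t
    rw [evZ_eq_sum]
    refine Finset.sum_congr rfl fun j _ => ?_
    congr 1
    rw [aeval_eq_sum_range]
    refine Finset.sum_congr rfl fun i _ => ?_
    rw [zsmul_eq_mul]
  rw [h1]
  apply MeromorphicAt.fun_sum
  intro j _
  refine MeromorphicAt.mul ?_ (hb.pow j)
  apply MeromorphicAt.fun_sum
  intro i _
  exact (MeromorphicAt.const _ _).mul (ha.pow i)

variable {e : ℕ}

lemma exp_inv_pow (he : 0 < e) (s : ℂ) : exp s = ((tt e s) ^ e)⁻¹ := by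
  rw [tt_pow he, inv_inv]

lemma exp_inv_pow' (p : ℕ) (s : ℂ) : exp (p * s / e) = ((tt e s) ^ p)⁻¹ := by
  unfold tt
  rw [← exp_nat_mul, ← exp_neg]
  congr 1
  ring

lemma zz_eq (p : ℕ) (g : ℂ → ℂ) (s : ℂ) : zz e p g s = ((tt e s) ^ p)⁻¹ * g (tt e s) := by
  unfold zz
  rw [exp_inv_pow']

/-- a relation between functions which holds frequently, holds identically -/
lemma rel_ident (he : 0 < e) {𝓕 : Filter ℂ} (h : Str 𝓕) {p : ℕ} {g : ℂ → ℂ}
    (hg : AnalyticAt ℂ g 0) {P : ℤ[X][X]}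
    (hrel : ∀ᶠ s in 𝓕, evZ P (exp s) (zz e p g s) = 0) :
    ∀ᶠ t in 𝓝[≠] (0 : ℂ), evZ P ((t ^ e)⁻¹) ((t ^ p)⁻¹ * g t) = 0 := by
  have := h.ne
  have hid : MeromorphicAt (fun t : ℂ => t) 0 := analyticAt_id.meromorphicAt
  refine mero_freq (mero_evZ P (hid.pow e).inv ((hid.pow p).inv.mul hg.meromorphicAt)) ?_
  apply (h.zero he).frequently
  refine (hrel.mono fun s hs => ?_).frequently
  rw [exp_inv_pow he, zz_eq] at hs
  exact hs

lemma norm_log_est {z : ℂ} (hz : ‖z‖ ≤ 1 / 2) : ‖z‖ / 2 ≤ ‖log (1 + z)‖ ∧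
    ‖log (1 + z)‖ ≤ 3 / 2 * ‖z‖ := by
  refine ⟨?_, norm_log_one_add_half_le_self hz⟩
  have h1 := norm_log_one_add_sub_self_le (z := z) (by linarith)
  have h2 : ‖z‖ ^ 2 * (1 - ‖z‖)⁻¹ / 2 ≤ ‖z‖ / 2 := by
    have h3 : (1 - ‖z‖)⁻¹ ≤ 2 := by
      rw [inv_le_comm₀ (by linarith) two_pos]
      linarith
    have h4 := norm_nonneg z
    have h5 : ‖z‖ ^ 2 * (1 - ‖z‖)⁻¹ ≤ ‖z‖ ^ 2 * 2 :=
      mul_le_mul_of_nonneg_left h3 (by positivity)
    nlinarith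
  have h3 := norm_sub_norm_le z (log (1 + z))
  rw [norm_sub_rev] at h1
  linarith

/-- powers against exponentials -/
lemma pow_exp_small {𝓕 : Filter ℂ} {X : ℂ → ℝ} (hX : Tendsto X 𝓕 atTop) (C : ℝ) (n : ℕ) :
    Tendsto (fun s => C * X s ^ n * Real.exp (-X s)) 𝓕 (𝓝 0) := by
  have h1 := ((Real.tendsto_pow_mul_exp_neg_atTop_nhds_zero n).comp hX).const_mul C
  rw [mul_zero] at h1
  refine h1.congr fun s => ?_
  simp only [Function.comp]
  ring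

end Pool.Agent.H489.CU
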