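import Pool.Agent.H489.CU.N3

/-!
Both functions close to the poles: the points above the poles.
-/

open Complex Filter Topology Polynomial

namespace Pool.Agent.H489.CU

variable {𝓕 : Filter ℂ} {e : ℕ}

/-- the shift to the pole -/
noncomputable def ep (k : ℂ → ℕ) (s : ℂ) : ℂ := log (1 + -((exp s + k s) / exp s))

lemma ep_spec (h : Str 𝓕) {k : ℂ → ℕ}
    (hk : ∀ᶠ s in 𝓕, ‖exp s + k s‖ ≤ Real.exp (-‖exp s‖)) :
    ∀ᶠ s in 𝓕, exp (s + ep k s) = -(k s : ℂ) ∧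
      ‖exp s + k s‖ / ‖exp s‖ / 2 ≤ ‖ep k s‖ ∧
      ‖ep k s‖ ≤ 3 / 2 * (‖exp s + k s‖ / ‖exp s‖) ∧
      ‖ep k s‖ ≤ 3 / 2 * Real.exp (-‖exp s‖) := by
  filter_upwards [hk, (exp_norm_tend h).eventually_ge_atTop 2] with s a1 a2
  have b1 : ‖-((exp s + k s) / exp s)‖ = ‖exp s + k s‖ / ‖exp s‖ := by rw [norm_neg, norm_div]
  have b2 : Real.exp (-‖exp s‖) ≤ 1 := Real.exp_le_one_iff.2 (by linarith)
  have b3 : ‖exp s + k s‖ / ‖exp s‖ ≤ Real.exp (-‖exp s‖) / 2 :=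
    div_le_div₀ (Real.exp_pos _).le a1 two_pos a2
  have b4 := norm_log_est (z := -((exp s + k s) / exp s)) (by rw [b1]; linarith)
  rw [b1] at b4
  have b5 : 1 + -((exp s + k s) / exp s) ≠ 0 := by
    intro h0
    have h2 : ‖-((exp s + k s) / exp s)‖ = 1 := by
      have : -((exp s + k s) / exp s) = -1 := by linear_combination h0
      rw [this]
      simp
    rw [b1] at h2
    linarith
  have hpos := Real.exp_pos (-‖exp s‖)
  refine ⟨?_, b4.1, b4.2, ?_⟩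
  · rw [exp_add]
    unfold ep
    rw [exp_log b5]
    have := exp_ne_zero s
    field_simp
    ring
  · unfold ep
    linarith

lemma ep_tend (h : Str 𝓕) {k : ℂ → ℕ}
    (hk : ∀ᶠ s in 𝓕, ‖exp s + k s‖ ≤ Real.exp (-‖exp s‖)) : Tendsto (ep k) 𝓕 (𝓝 0) := by
  rw [tendsto_zero_iff_norm_tendsto_zero]
  have h1 := pow_exp_small (exp_norm_tend h) (3 / 2) 0
  refine squeeze_zero' (Eventually.of_forall fun _ => norm_nonneg _) ?_ h1
  filter_upwards [ep_spec h hk] with s a1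
  simpa using a1.2.2.2

lemma tt_add (e : ℕ) (s ε : ℂ) : tt e (s + ε) = tt e s * exp (-(ε / e)) := by
  unfold tt
  rw [← exp_add]
  congr 1
  ring

lemma t0_tend (h : Str 𝓕) (he : 0 < e) {k : ℂ → ℕ}
    (hk : ∀ᶠ s in 𝓕, ‖exp s + k s‖ ≤ Real.exp (-‖exp s‖)) :
    Tendsto (fun s => tt e (s + ep k s)) 𝓕 (𝓝[≠] 0) := by
  refine tendsto_nhdsWithin_iff.2 ⟨?_, Eventually.of_forall fun s => tt_ne e _⟩
  have h1 : Tendsto (fun s => exp (-(ep k s / e))) 𝓕 (𝓝 (exp (-(0 / e)))) :=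
    (continuous_exp.tendsto _).comp (((ep_tend h hk).div_const _).neg)
  have h2 := (h.zero' he).mul h1
  rw [zero_mul] at h2
  exact h2.congr fun s => (tt_add e s _).symm

/-- the effect of the shift on the second function -/
lemma zz_shift (h : Str 𝓕) (he : 0 < e) {p : ℕ} (hp : 0 < p) {g : ℂ → ℂ}
    (hg : AnalyticAt ℂ g 0) (hg0 : g 0 ≠ 0) {k : ℂ → ℕ}
    (hk : ∀ᶠ s in 𝓕, ‖exp s + k s‖ ≤ Real.exp (-‖exp s‖)) :
    ∀ᶠ s in 𝓕, ‖(p / e * g 0 : ℂ)‖ / 2 * (Real.exp (p / e * s.re) * ‖ep k s‖) ≤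
        ‖zz e p g (s + ep k s) - zz e p g s‖ ∧
      ‖zz e p g (s + ep k s) - zz e p g s‖ ≤
        3 / 2 * ‖(p / e * g 0 : ℂ)‖ * (Real.exp (p / e * s.re) * ‖ep k s‖) := by
  obtain ⟨r, hr, hsh⟩ := shift_est he hp hg hg0
  filter_upwards [(h.norm0 he).eventually_lt_const hr,
    (ep_tend h hk).norm.eventually_lt_const (by rw [norm_zero]; exact hr)] with s a1 a2
  have b1 := hsh _ _ a1 a2
  set L₀ : ℂ := p / e * g 0 with hL₀
  have e1 : zz e p g (s + ep k s) - zz e p g s = exp (p * s / e) *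
      (exp (p * ep k s / e) * g (tt e s * exp (-(ep k s / e))) - g (tt e s)) := by
    unfold zz
    rw [tt_add]
    have : exp (p * (s + ep k s) / e) = exp (p * s / e) * exp (p * ep k s / e) := by
      rw [← exp_add]
      congr 1
      ring
    rw [this]
    ring
  have e2 : ‖exp (p * s / e)‖ = Real.exp (p / e * s.re) := by
    rw [norm_exp]
    congr 1
    have : (p : ℂ) * s / (e : ℂ) = ((p / e : ℝ) : ℂ) * s := by push_cast; ring
    rw [this, re_ofReal_mul]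
  rw [e1, norm_mul (exp (p * s / e)), e2]
  set Q := exp (p * ep k s / e) * g (tt e s * exp (-(ep k s / e))) - g (tt e s) with hQ
  have hE := Real.exp_pos (p / e * s.re)
  have b2 : ‖L₀‖ / 2 * ‖ep k s‖ ≤ ‖Q‖ := by
    have := norm_sub_norm_le (L₀ * ep k s) Q
    rw [norm_sub_rev (L₀ * ep k s) Q, norm_mul] at this
    linarith
  have b3 : ‖Q‖ ≤ 3 / 2 * ‖L₀‖ * ‖ep k s‖ := by
    have := norm_sub_norm_le Q (L₀ * ep k s)
    rw [norm_mul] at this
    linarith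
  constructor
  · calc _ = Real.exp (p / e * s.re) * (‖L₀‖ / 2 * ‖ep k s‖) := by ring
      _ ≤ _ := mul_le_mul_of_nonneg_left b2 hE.le
  · calc _ ≤ Real.exp (p / e * s.re) * (3 / 2 * ‖L₀‖ * ‖ep k s‖) :=
          mul_le_mul_of_nonneg_left b3 hE.le
      _ = _ := by ring

/-- comparison of the sizes -/
lemma sizes (h : Str 𝓕) (he : 0 < e) {p : ℕ} (hp : 0 < p) {g : ℂ → ℂ}
    (hg : AnalyticAt ℂ g 0) (hg0 : g 0 ≠ 0) : ∀ᶠ s in 𝓕,
      Real.exp (p / e * s.re) * (‖g 0‖ / 2) ≤ ‖zz e p g s‖ ∧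
      ‖zz e p g s‖ ≤ Real.exp (p / e * s.re) * (2 * ‖g 0‖) ∧
      Real.exp (p / e * s.re) ≤ ‖exp s‖ ^ p ∧
      ‖exp s‖ ≤ Real.exp (p / e * s.re) ^ e ∧ 1 ≤ Real.exp (p / e * s.re) := by
  have hgn : 0 < ‖g 0‖ := norm_pos_iff.2 hg0
  have he' : (0 : ℝ) < e := by exact_mod_cast he
  have he1 : (1 : ℝ) ≤ e := by exact_mod_cast he
  have hp1 : (1 : ℝ) ≤ p := by exact_mod_cast hp
  filter_upwards [(h.lim he hg).norm.eventually_const_lt (show ‖g 0‖ / 2 < ‖g 0‖ by linarith),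
    (h.lim he hg).norm.eventually_lt_const (show ‖g 0‖ < 2 * ‖g 0‖ by linarith),
    h.re.eventually_ge_atTop 0] with s a1 a2 a3
  have hE := Real.exp_pos (p / e * s.re)
  rw [norm_zz]
  refine ⟨mul_le_mul_of_nonneg_left a1.le hE.le, mul_le_mul_of_nonneg_left a2.le hE.le, ?_, ?_, ?_⟩
  · rw [norm_exp, ← Real.exp_nat_mul]
    apply Real.exp_le_exp.2
    rw [div_mul_eq_mul_div]
    exact div_le_self (by positivity) he1
  · rw [norm_exp, ← Real.exp_nat_mul]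
    apply Real.exp_le_exp.2
    have : (e : ℝ) * (p / e * s.re) = p * s.re := by field_simp
    rw [this]
    nlinarith
  · exact Real.one_le_exp (by positivity)

/-- the second function has the value `-m` above the pole `-k` -/
lemma at_pole (h : Str 𝓕) (he : 0 < e) {p : ℕ} (hp : 0 < p) {g : ℂ → ℂ}
    (hg : AnalyticAt ℂ g 0) (hg0 : g 0 ≠ 0) {P : ℤ[X][X]} (hP : P ≠ 0)
    (hrel : ∀ᶠ s in 𝓕, evZ P (exp s) (zz e p g s) = 0) {k m : ℂ → ℕ}
    (hk : ∀ᶠ s in 𝓕, ‖exp s + k s‖ ≤ Real.exp (-‖exp s‖))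
    (hm : ∀ᶠ s in 𝓕, ‖zz e p g s + m s‖ ≤ Real.exp (-‖zz e p g s‖)) :
    ∀ᶠ s in 𝓕, zz e p g (s + ep k s) = -(m s : ℂ) := by
  obtain ⟨C, D, hC, hcb⟩ := spec_bound P
  obtain ⟨K, hK⟩ := spec_ne hP
  have hgn : 0 < ‖g 0‖ := norm_pos_iff.2 hg0
  have hid := rel_ident he h hg hrel
  set N : ℝ := P.natDegree + 1 with hN
  have hN0 : 0 < N := by rw [hN]; positivity
  set L : ℝ := ‖(p / e * g 0 : ℂ)‖ with hL
  have hX := exp_norm_tend h
  have hZ := zz_norm_tend h he hp hg hg0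
  set c₁ : ℝ := N * C * (9 * (2 * ‖g 0‖)) ^ D * (9 / 4 * L) with hc₁
  set c₂ : ℝ := N * C * (9 * (2 / ‖g 0‖) ^ e) ^ D with hc₂
  have hs1 := (pow_exp_small hX c₁ ((p + 1) * D + p)).eventually_lt_const
    (show (0:ℝ) < 1 / 3 by norm_num)
  have hs2 := (pow_exp_small hZ c₂ ((e + 1) * D)).eventually_lt_const
    (show (0:ℝ) < 1 / 3 by norm_num)
  filter_upwards [ep_spec h hk, hk, hm, zz_shift h he hp hg hg0 hk, sizes h he hp hg hg0,
    hX.eventually_ge_atTop (K + 1), hX.eventually_ge_atTop 1, hZ.eventually_ge_atTop 1,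
    (t0_tend h he hk).eventually hid, hs1, hs2, pow_exp_small hX (9 / 4 * L) p |>.eventually_lt_const
    (show (0:ℝ) < 1 / 2 by norm_num), pow_exp_small hZ 1 0 |>.eventually_lt_const
    (show (0:ℝ) < 1 / 2 by norm_num)] with s a1 a2 a3 a4 a5 a6 a7 a8 a9 b1 b2 b3 b4
  obtain ⟨X, hXe⟩ : ∃ X, X = ‖exp s‖ := ⟨_, rfl⟩
  obtain ⟨Z, hZe⟩ : ∃ Z, Z = ‖zz e p g s‖ := ⟨_, rfl⟩
  obtain ⟨E, hEe⟩ : ∃ E, E = Real.exp (p / e * s.re) := ⟨_, rfl⟩
  rw [← hXe] at a1 a2 a5 a6 a7 b1 b3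
  rw [← hZe] at a3 a5 a8 b2 b4
  rw [← hEe] at a4 a5
  obtain ⟨c1, c2, c3, c4⟩ := a1
  obtain ⟨d1, d2, d3, d4, d5⟩ := a5
  by_contra hne
  set β := zz e p g (s + ep k s) + m s with hβ
  have hβ0 : β ≠ 0 := fun h0 => hne (by rw [hβ] at h0; linear_combination h0)
  have hE0 : 0 < E := by rw [hEe]; exact Real.exp_pos _
  have hL0 : 0 ≤ L := norm_nonneg _
  -- the size of `β`
  have f1 : ‖β‖ ≤ 9 / 4 * L * X ^ p * Real.exp (-X) + Real.exp (-Z) := by
    have : β = (zz e p g (s + ep k s) - zz e p g s) + (zz e p g s + m s) := by rw [hβ]; ring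
    rw [this]
    refine (norm_add_le _ _).trans ?_
    have g1 : 3 / 2 * L * (E * ‖ep k s‖) ≤ 9 / 4 * L * X ^ p * Real.exp (-X) := by
      calc 3 / 2 * L * (E * ‖ep k s‖) ≤ 3 / 2 * L * (X ^ p * (3 / 2 * Real.exp (-X))) := by
            apply mul_le_mul_of_nonneg_left _ (by positivity)
            exact mul_le_mul d3 c4 (norm_nonneg _) (by positivity)
        _ = _ := by ring
    linarith [a4.2]
  have f2 : ‖β‖ ≤ 1 := by
    rw [pow_zero, mul_one, one_mul] at b4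
    linarith
  -- the size of the integers
  have f3 : (k s : ℝ) ≤ X + 1 := by
    have := abs_norm_sub_norm_le (exp s) (-((k s : ℕ) : ℂ))
    rw [norm_neg, Complex.norm_natCast, sub_neg_eq_add, ← hXe] at this
    have h1 := (abs_le.1 this).1
    have h2 : Real.exp (-X) ≤ 1 := Real.exp_le_one_iff.2 (by linarith)
    linarith
  have f3' : X - 1 ≤ (k s : ℝ) := by
    have := abs_norm_sub_norm_le (exp s) (-((k s : ℕ) : ℂ))
    rw [norm_neg, Complex.norm_natCast, sub_neg_eq_add, ← hXe] at this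
    have h1 := (abs_le.1 this).2
    have h2 : Real.exp (-X) ≤ 1 := Real.exp_le_one_iff.2 (by linarith)
    linarith
  have f4 : (m s : ℝ) ≤ Z + 1 := by
    have := abs_norm_sub_norm_le (zz e p g s) (-((m s : ℕ) : ℂ))
    rw [norm_neg, Complex.norm_natCast, sub_neg_eq_add, ← hZe] at this
    have h1 := (abs_le.1 this).1
    have h2 : Real.exp (-Z) ≤ 1 := Real.exp_le_one_iff.2 (by linarith)
    linarith
  have f5 : K ≤ k s := by
    have : (K : ℝ) ≤ k s := by linarith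
    exact_mod_cast this
  -- Liouville
  have hroot : evZ P (-((k s : ℕ) : ℂ)) (zz e p g (s + ep k s)) = 0 := by
    have := a9
    rw [← exp_inv_pow he, ← zz_eq, c1] at this
    exact this
  have f6 := liou β hβ0 f2 P.natDegree (C * ((1 + k s) * (1 + m s)) ^ D) (by positivity)
    (spec P (k s) (m s)) (hK _ _ f5) (spec_deg _ _ _) (hcb _ _) (spec_root hroot)
  have f7 : ((1 + k s) * (1 + m s) : ℝ) ≤ 9 * X * Z := by
    have h1 : (1 + k s : ℝ) ≤ 3 * X := by linarith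
    have h2 : (1 + m s : ℝ) ≤ 3 * Z := by linarith
    calc _ ≤ (3 * X) * (3 * Z) := mul_le_mul h1 h2 (by positivity) (by positivity)
      _ = _ := by ring
  have f8 : 1 ≤ N * (C * (9 * X * Z) ^ D) * ‖β‖ := by
    refine f6.trans ?_
    apply mul_le_mul_of_nonneg_right _ (norm_nonneg _)
    apply mul_le_mul_of_nonneg_left _ hN0.le
    apply mul_le_mul_of_nonneg_left _ (by linarith)
    exact pow_le_pow_left₀ (by positivity) f7 D
  -- first term
  have f9 : N * (C * (9 * X * Z) ^ D) * (9 / 4 * L * X ^ p * Real.exp (-X)) ≤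
      c₁ * X ^ ((p + 1) * D + p) * Real.exp (-X) := by
    have h1 : Z ≤ X ^ p * (2 * ‖g 0‖) := d2.trans (mul_le_mul_of_nonneg_right d3 (by positivity))
    have h2 : (9 * X * Z) ^ D ≤ (9 * X * (X ^ p * (2 * ‖g 0‖))) ^ D := by
      apply pow_le_pow_left₀ (by positivity)
      exact mul_le_mul_of_nonneg_left h1 (by positivity)
    calc N * (C * (9 * X * Z) ^ D) * (9 / 4 * L * X ^ p * Real.exp (-X))
        ≤ N * (C * (9 * X * (X ^ p * (2 * ‖g 0‖))) ^ D) * (9 / 4 * L * X ^ p * Real.exp (-X)) := by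
          gcongr
      _ = _ := by
          rw [hc₁, pow_add, pow_mul, pow_succ X p]
          simp only [mul_pow]
          ring
  -- second term
  have f10 : N * (C * (9 * X * Z) ^ D) * Real.exp (-Z) ≤
      c₂ * Z ^ ((e + 1) * D) * Real.exp (-Z) := by
    have h1 : E ≤ 2 / ‖g 0‖ * Z := by
      rw [div_mul_eq_mul_div, le_div_iff₀ hgn]
      linarith
    have h2 : X ≤ (2 / ‖g 0‖ * Z) ^ e := d4.trans (pow_le_pow_left₀ hE0.le h1 e)
    have h3 : (9 * X * Z) ^ D ≤ (9 * (2 / ‖g 0‖ * Z) ^ e * Z) ^ D := by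
      apply pow_le_pow_left₀ (by positivity)
      apply mul_le_mul_of_nonneg_right _ (by linarith)
      linarith
    calc N * (C * (9 * X * Z) ^ D) * Real.exp (-Z)
        ≤ N * (C * (9 * (2 / ‖g 0‖ * Z) ^ e * Z) ^ D) * Real.exp (-Z) := by
          gcongr
      _ = _ := by
          rw [hc₂, pow_mul, pow_succ Z e]
          simp only [mul_pow]
          ring
  have f11 : N * (C * (9 * X * Z) ^ D) * ‖β‖ ≤ N * (C * (9 * X * Z) ^ D) *
      (9 / 4 * L * X ^ p * Real.exp (-X) + Real.exp (-Z)) :=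
    mul_le_mul_of_nonneg_left f1 (by positivity)
  rw [mul_add] at f11
  linarith

end Pool.Agent.H489.CU
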