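import Pool.Agent.H489.CU.N4

/-!
Both functions close to the poles: the functions differ by an integer.
-/

open Complex Filter Topology Polynomial

namespace Pool.Agent.H489.CU

variable {e : ℕ}

/-- the logarithms of the factorials are close to each other -/
lemma fact_log {𝓕 : Filter ℂ} (h : Str 𝓕) (he : 0 < e) {p : ℕ} (hp : 0 < p) {g : ℂ → ℂ}
    (hg : AnalyticAt ℂ g 0) (hg0 : g 0 ≠ 0) {P : ℤ[X][X]} (hP : P ≠ 0)
    (hrel : ∀ᶠ s in 𝓕, evZ P (exp s) (zz e p g s) = 0) {k m : ℂ → ℕ}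
    (hk : ∀ᶠ s in 𝓕, ‖exp s + k s‖ ≤ Real.exp (-‖exp s‖))
    (hm : ∀ᶠ s in 𝓕, ‖zz e p g s + m s‖ ≤ Real.exp (-‖zz e p g s‖))
    (hy0 : ∀ᶠ s in 𝓕, Gamma (exp s) ≠ 0) (hz0 : ∀ᶠ s in 𝓕, Gamma (zz e p g s) ≠ 0) {C : ℝ}
    (hy : ∀ᶠ s : ℂ in 𝓕, |Real.log ‖Gamma (exp s)‖| ≤ C * s.re)
    (hG : ∀ᶠ s : ℂ in 𝓕, |Real.log ‖Gamma (zz e p g s)‖| ≤ C * s.re) :
    ∃ A : ℝ, ∀ᶠ s : ℂ in 𝓕,
      |Real.log ((k s).factorial) - Real.log ((m s).factorial)| ≤ A * s.re := by
  obtain ⟨C₁, hC₁, hpole⟩ := gamma_pole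
  have hat := at_pole h he hp hg hg0 hP hrel hk hm
  have hgn : 0 < ‖g 0‖ := norm_pos_iff.2 hg0
  have he' : (0 : ℝ) < e := by exact_mod_cast he
  have hp' : (0 : ℝ) < p := by exact_mod_cast hp
  have hσ : (0 : ℝ) < p / e := by positivity
  set L : ℝ := ‖(p / e * g 0 : ℂ)‖ with hL
  have hL0 : 0 < L := by
    rw [hL]
    apply norm_pos_iff.2
    refine mul_ne_zero (div_ne_zero ?_ ?_) hg0
    · exact_mod_cast hp.ne'
    · exact_mod_cast he.ne'
  set σ : ℝ := p / e with hσd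
  refine ⟨2 * C + C₁ + C₁ * (σ + 1) + (σ + 3), ?_⟩
  filter_upwards [hat, ep_spec h hk, hk, hm, zz_shift h he hp hg hg0 hk,
    sizes h he hp hg hg0, (exp_norm_tend h).eventually_ge_atTop 4,
    (zz_norm_tend h he hp hg hg0).eventually_ge_atTop 4, hy0, hz0, hy, hG,
    h.re.eventually_ge_atTop (|Real.log (2 * ‖g 0‖)|),
    h.re.eventually_ge_atTop (|Real.log (L / 4)|),
    h.re.eventually_ge_atTop (|Real.log (9 / 4 * L)|)] with s a1 a2 a3 a4 a5 a6 a7 a8 a9 b1 b2 b3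
      b4 b5 b6
  have c1 := hpole _ _ a7 a3 a9
  have c2 := hpole _ _ a8 a4 b1
  have hlX : Real.log ‖exp s‖ = s.re := by rw [norm_exp, Real.log_exp]
  have hs0 : 0 ≤ s.re := (abs_nonneg _).trans b4
  obtain ⟨X, hXe⟩ : ∃ X, X = ‖exp s‖ := ⟨_, rfl⟩
  obtain ⟨Z, hZe⟩ : ∃ Z, Z = ‖zz e p g s‖ := ⟨_, rfl⟩
  obtain ⟨E, hEe⟩ : ∃ E, E = Real.exp (σ * s.re) := ⟨_, rfl⟩
  have hE0 : 0 < E := by rw [hEe]; exact Real.exp_pos _
  have hlE : Real.log E = σ * s.re := by rw [hEe, Real.log_exp]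
  rw [hlX] at c1
  rw [← hXe] at a2 a6 a7 hlX
  rw [← hZe] at c2 a6 a8
  rw [← hEe] at a5 a6
  have hX0 : 0 < X := by linarith
  -- the size of `z`
  have hlZ : Real.log Z ≤ (σ + 1) * s.re := by
    have := Real.log_le_log (by linarith) a6.2.1
    rw [Real.log_mul hE0.ne' (by positivity), hlE] at this
    have h2 := le_abs_self (Real.log (2 * ‖g 0‖))
    linarith
  -- comparison of the distances
  have hw0 : 0 < ‖exp s + k s‖ := by
    rw [norm_pos_iff]
    intro h0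
    apply a9
    have : exp s = -((k s : ℕ) : ℂ) := by linear_combination h0
    rw [this, Gamma_neg_nat_eq_zero]
  have hv0 : 0 < ‖zz e p g s + m s‖ := by
    rw [norm_pos_iff]
    intro h0
    apply b1
    have : zz e p g s = -((m s : ℕ) : ℂ) := by linear_combination h0
    rw [this, Gamma_neg_nat_eq_zero]
  have hd : ‖zz e p g (s + ep k s) - zz e p g s‖ = ‖zz e p g s + m s‖ := by
    rw [a1, ← norm_neg]
    congr 1
    ring
  rw [hd] at a5
  obtain ⟨W, hW⟩ : ∃ W, W = ‖exp s + k s‖ := ⟨_, rfl⟩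
  obtain ⟨V, hV⟩ : ∃ V, V = ‖zz e p g s + m s‖ := ⟨_, rfl⟩
  rw [← hW] at a2 c1 hw0
  rw [← hV] at a5 c2 hv0
  obtain ⟨d1, d2, d3, -⟩ := a2
  have hlow : L / 4 * (E * (W / X)) ≤ V := by
    refine le_trans ?_ a5.1
    calc L / 4 * (E * (W / X)) = L / 2 * (E * (W / X / 2)) := by ring
      _ ≤ L / 2 * (E * ‖ep k s‖) := by
          apply mul_le_mul_of_nonneg_left _ (by positivity)
          exact mul_le_mul_of_nonneg_left d2 hE0.le
  have hup : V ≤ 9 / 4 * L * (E * (W / X)) := by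
    refine a5.2.trans ?_
    calc 3 / 2 * L * (E * ‖ep k s‖) ≤ 3 / 2 * L * (E * (3 / 2 * (W / X))) := by
          apply mul_le_mul_of_nonneg_left _ (by positivity)
          exact mul_le_mul_of_nonneg_left d3 hE0.le
      _ = _ := by ring
  have hWX : 0 < W / X := by positivity
  have e1 := Real.log_le_log (by positivity) hlow
  have e2 := Real.log_le_log hv0 hup
  rw [Real.log_mul (by positivity) (by positivity), Real.log_mul hE0.ne' hWX.ne',
    Real.log_div hw0.ne' hX0.ne', hlE, hlX] at e1 e2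
  have f1 := abs_le.1 c1
  have f2 := abs_le.1 c2
  have f3 := abs_le.1 b2
  have f4 := abs_le.1 b3
  have f5 := neg_abs_le (Real.log (L / 4))
  have f6 := le_abs_self (Real.log (9 / 4 * L))
  have f7 : C₁ * Real.log Z ≤ C₁ * ((σ + 1) * s.re) := mul_le_mul_of_nonneg_left hlZ hC₁
  have f8 : 0 ≤ σ * s.re := by positivity
  have hexp : (2 * C + C₁ + C₁ * (σ + 1) + (σ + 3)) * s.re = 2 * (C * s.re) + C₁ * s.re +
      C₁ * ((σ + 1) * s.re) + σ * s.re + 3 * s.re := by ring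
  rw [hexp, abs_le]
  constructor <;> linarith

/-- both functions close to the poles -/
theorem coreNN (U : Ultrafilter ℂ) (h : Str (U : Filter ℂ)) (he : 0 < e) {p : ℕ} (hp : 0 < p)
    {g : ℂ → ℂ} (hg : AnalyticAt ℂ g 0) (hg0 : g 0 ≠ 0) {P : ℤ[X][X]} (hP : P ≠ 0)
    (hrel : ∀ᶠ s in (U : Filter ℂ), evZ P (exp s) (zz e p g s) = 0)
    (hyN : ∀ᶠ s in (U : Filter ℂ), ∃ k : ℕ, ‖exp s + k‖ ≤ Real.exp (-‖exp s‖))
    (hzN : ∀ᶠ s in (U : Filter ℂ), ∃ m : ℕ, ‖zz e p g s + m‖ ≤ Real.exp (-‖zz e p g s‖))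
    (hy0 : ∀ᶠ s in (U : Filter ℂ), Gamma (exp s) ≠ 0)
    (hz0 : ∀ᶠ s in (U : Filter ℂ), Gamma (zz e p g s) ≠ 0) {C : ℝ}
    (hy : ∀ᶠ s : ℂ in (U : Filter ℂ), |Real.log ‖Gamma (exp s)‖| ≤ C * s.re)
    (hG : ∀ᶠ s : ℂ in (U : Filter ℂ), |Real.log ‖Gamma (zz e p g s)‖| ≤ C * s.re) :
    p = e ∧ ∃ n : ℤ, ∀ᶠ t in 𝓝 (0 : ℂ), g t = 1 + t ^ e * n := by
  obtain ⟨k, hk⟩ := hyN.choice
  obtain ⟨m, hm⟩ := hzN.choice
  obtain ⟨A, hA⟩ := fact_log h he hp hg hg0 hP hrel hk hm hy0 hz0 hy hG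
  have hat := at_pole h he hp hg hg0 hP hrel hk hm
  have he' : (0 : ℝ) < e := by exact_mod_cast he
  have hp' : (0 : ℝ) < p := by exact_mod_cast hp
  have hgn : 0 < ‖g 0‖ := norm_pos_iff.2 hg0
  have hσ : (0 : ℝ) < p / e := by positivity
  set σ : ℝ := p / e with hσd
  -- the difference is bounded
  have hbd : ∀ᶠ s in (U : Filter ℂ), |(k s : ℝ) - m s| ≤ |A| / min 1 (σ / 2) := by
    filter_upwards [hA, hk, hm, sizes h he hp hg hg0, (exp_norm_tend h).eventually_ge_atTop 4,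
      (zz_norm_tend h he hp hg hg0).eventually_ge_atTop 4,
      h.re.eventually_ge_atTop (2 / σ * |Real.log (‖g 0‖ / 2)|), h.re.eventually_gt_atTop 0]
      with s a1 a2 a3 a4 a5 a6 a7 a8
    have hlX : Real.log ‖exp s‖ = s.re := by rw [norm_exp, Real.log_exp]
    refine fact_close (L := s.re) a8 ?_ (by positivity) ?_ a1
    · rw [← hlX]
      apply Real.log_le_log (by linarith)
      have := abs_norm_sub_norm_le (exp s) (-((k s : ℕ) : ℂ))
      rw [norm_neg, Complex.norm_natCast, sub_neg_eq_add] at this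
      have h1 := (abs_le.1 this).2
      have h2 : Real.exp (-‖exp s‖) ≤ 1 := Real.exp_le_one_iff.2 (by linarith)
      linarith
    · have h1 : Real.log ‖zz e p g s‖ ≤ Real.log (m s + 1) := by
        apply Real.log_le_log (by linarith)
        have := abs_norm_sub_norm_le (zz e p g s) (-((m s : ℕ) : ℂ))
        rw [norm_neg, Complex.norm_natCast, sub_neg_eq_add] at this
        have h1 := (abs_le.1 this).2
        have h2 : Real.exp (-‖zz e p g s‖) ≤ 1 := Real.exp_le_one_iff.2 (by linarith)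
        linarith
      have h2 := Real.log_le_log (by positivity) a4.1
      rw [Real.log_mul (Real.exp_pos _).ne' (by positivity), Real.log_exp] at h2
      have h3 := neg_abs_le (Real.log (‖g 0‖ / 2))
      have h4 : |Real.log (‖g 0‖ / 2)| ≤ σ / 2 * s.re := by
        rw [div_mul_eq_mul_div, div_le_iff₀ hσ] at a7
        linarith
      linarith
  -- the difference is constant
  obtain ⟨c, -, hc⟩ : ∃ c ∈ Set.Icc (-⌈|A| / min 1 (σ / 2)⌉) ⌈|A| / min 1 (σ / 2)⌉,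
      ∀ᶠ s in (U : Filter ℂ), (k s : ℤ) - m s = c := by
    rw [← Ultrafilter.eventually_exists_mem_iff (Set.finite_Icc _ _)]
    filter_upwards [hbd] with s hs
    refine ⟨_, ?_, rfl⟩
    have h1 := abs_le.1 hs
    have h2 := Int.le_ceil (|A| / min 1 (σ / 2))
    constructor
    · have : ((-⌈|A| / min 1 (σ / 2)⌉ : ℤ) : ℝ) ≤ ((k s : ℤ) - (m s : ℤ) : ℤ) := by
        push_cast
        linarith
      exact_mod_cast this
    · have : (((k s : ℤ) - (m s : ℤ) : ℤ) : ℝ) ≤ (⌈|A| / min 1 (σ / 2)⌉ : ℤ) := by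
        push_cast
        linarith
      exact_mod_cast this
  -- the identity
  have hF1 : AnalyticAt ℂ (fun t : ℂ => t ^ e * g t) 0 := (analyticAt_id.pow e).mul hg
  have hF2 : AnalyticAt ℂ (fun t : ℂ => t ^ p * (1 + c * t ^ e)) 0 :=
    (analyticAt_id.pow p).mul (analyticAt_const.add (analyticAt_const.mul (analyticAt_id.pow e)))
  have hfreq : ∃ᶠ t in 𝓝[≠] (0 : ℂ), t ^ e * g t = t ^ p * (1 + c * t ^ e) := by
    apply (t0_tend h he hk).frequently
    refine Eventually.frequently ?_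
    filter_upwards [hat, hc, ep_spec h hk] with s a1 a2 a3
    have h1 := a3.1
    rw [exp_inv_pow he] at h1
    rw [zz_eq] at a1
    set t := tt e (s + ep k s) with ht
    have ht0 : t ≠ 0 := tt_ne _ _
    have ha2 : (k s : ℂ) - m s = c := by
      rw [← a2]
      push_cast
      rfl
    have h2 : (t ^ p)⁻¹ * g t = (t ^ e)⁻¹ + c := by
      rw [a1, h1]
      linear_combination ha2
    have h3 : t ^ e * t ^ p * ((t ^ p)⁻¹ * g t) = t ^ e * t ^ p * ((t ^ e)⁻¹ + c) := by rw [h2]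
    have h4 : t ^ e * t ^ p * ((t ^ p)⁻¹ * g t) = t ^ e * g t := by
      field_simp
    have h5 : t ^ e * t ^ p * ((t ^ e)⁻¹ + c) = t ^ p * (1 + c * t ^ e) := by
      field_simp
    rw [← h4, ← h5, h3]
  have hev := (hF1.frequently_eq_iff_eventually_eq hF2).1 hfreq
  -- comparison of the orders
  have hpunct : ∀ᶠ t in 𝓝[≠] (0 : ℂ), t ^ e * g t = t ^ p * (1 + c * t ^ e) ∧ t ≠ 0 :=
    (hev.filter_mono nhdsWithin_le_nhds).and (by
      filter_upwards [self_mem_nhdsWithin] with t ht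
      exact ht)
  have hcont1 : Tendsto g (𝓝[≠] (0 : ℂ)) (𝓝 (g 0)) :=
    hg.continuousAt.tendsto.mono_left nhdsWithin_le_nhds
  have hcont2 : Tendsto (fun t : ℂ => 1 + (c : ℂ) * t ^ e) (𝓝[≠] (0 : ℂ)) (𝓝 1) := by
    have h1 : Continuous (fun t : ℂ => 1 + (c : ℂ) * t ^ e) := by fun_prop
    have h2 := (h1.tendsto 0).mono_left (nhdsWithin_le_nhds (s := {0}ᶜ))
    simpa [he.ne'] using h2
  have hpow : ∀ n : ℕ, 0 < n → Tendsto (fun t : ℂ => t ^ n) (𝓝[≠] (0 : ℂ)) (𝓝 0) := by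
    intro n hn
    have h1 : Continuous (fun t : ℂ => t ^ n) := by fun_prop
    have h2 := (h1.tendsto 0).mono_left (nhdsWithin_le_nhds (s := {0}ᶜ))
    simpa [hn.ne'] using h2
  have hpe : p = e := by
    rcases lt_trichotomy p e with hlt | heq | hgt
    · exfalso
      have h1 : ∀ᶠ t in 𝓝[≠] (0 : ℂ), t ^ (e - p) * g t = 1 + c * t ^ e := by
        filter_upwards [hpunct] with t ⟨a1, a2⟩
        have h2 : t ^ e = t ^ p * t ^ (e - p) := by
          rw [← pow_add]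
          congr 1
          omega
        apply mul_left_cancel₀ (pow_ne_zero p a2)
        rw [← a1]
        conv_rhs => rw [h2]
        ring
      have h2 := (hpow (e - p) (by omega)).mul hcont1
      rw [zero_mul] at h2
      have h3 := tendsto_nhds_unique (h2.congr' h1) hcont2
      exact zero_ne_one h3
    · exact heq
    · exfalso
      have h1 : ∀ᶠ t in 𝓝[≠] (0 : ℂ), g t = t ^ (p - e) * (1 + c * t ^ e) := by
        filter_upwards [hpunct] with t ⟨a1, a2⟩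
        have h2 : t ^ p = t ^ e * t ^ (p - e) := by
          rw [← pow_add]
          congr 1
          omega
        apply mul_left_cancel₀ (pow_ne_zero e a2)
        rw [a1, h2]
        ring
      have h2 := (hpow (p - e) (by omega)).mul hcont2
      rw [zero_mul] at h2
      have h3 := tendsto_nhds_unique (hcont1.congr' h1) h2
      exact hg0 h3
  subst hpe
  refine ⟨rfl, c, ?_⟩
  have h1 : ∀ᶠ t in 𝓝[≠] (0 : ℂ), g t = 1 + t ^ p * c := by
    filter_upwards [hpunct] with t ⟨a1, a2⟩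
    apply mul_left_cancel₀ (pow_ne_zero p a2)
    rw [a1]
    ring
  have h2 : AnalyticAt ℂ (fun t : ℂ => 1 + t ^ p * (c : ℂ)) 0 :=
    analyticAt_const.add ((analyticAt_id.pow p).mul analyticAt_const)
  exact (hg.frequently_eq_iff_eventually_eq h2).1 h1.frequently

end Pool.Agent.H489.CU
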