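import Pool.Graph.R_seed8.W688.GF.Stirling

/-!
Where the Gamma function has moderate size.
-/

open Complex Filter Topology

namespace Pool.Agent.H489.CU

open Pool.Agent.W688.GF Pool.Agent.H401R2

lemma re_main (z : ℂ) : (z * log z - z).re = z.re * (Real.log ‖z‖ - 1) - z.im * arg z := by
  rw [sub_re, mul_re, log_re, log_im]
  ring

/-- points of the right half plane where `Γ` has moderate size -/
lemma reG {ι : Type} {𝓕 : Filter ι} {z : ι → ℂ} (hz : Tendsto (fun i => ‖z i‖) 𝓕 atTop)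
    (hre : ∀ᶠ i in 𝓕, 0 ≤ (z i).re) {C : ℝ}
    (hG : ∀ᶠ i in 𝓕, |Real.log ‖Gamma (z i)‖| ≤ C * Real.log ‖z i‖) :
    Tendsto (fun i => (z i).re / ‖z i‖ * Real.log ‖z i‖) 𝓕 (𝓝 (Real.pi / 2)) := by
  have hL : Tendsto (fun i => Real.log ‖z i‖) 𝓕 atTop := Real.tendsto_log_atTop.comp hz
  have hLz : Tendsto (fun i => Real.log ‖z i‖ / ‖z i‖) 𝓕 (𝓝 0) :=
    (Real.isLittleO_log_id_atTop.tendsto_div_nhds_zero).comp hz
  have hinv : Tendsto (fun i => (‖z i‖)⁻¹) 𝓕 (𝓝 0) := tendsto_inv_atTop_zero.comp hz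
  -- the main term divided by the absolute value
  have h1 : Tendsto (fun i => (z i).re / ‖z i‖ * (Real.log ‖z i‖ - 1) -
      (z i).im / ‖z i‖ * arg (z i)) 𝓕 (𝓝 0) := by
    have h2 : Tendsto (fun i => (C + 4) * (Real.log ‖z i‖ / ‖z i‖) + (cS + 2) * (‖z i‖)⁻¹) 𝓕
        (𝓝 ((C + 4) * 0 + (cS + 2) * 0)) := (hLz.const_mul _).add (hinv.const_mul _)
    rw [mul_zero, mul_zero, add_zero] at h2
    refine squeeze_zero_norm' ?_ h2
    filter_upwards [hre, hG, hz.eventually_ge_atTop 2] with i a1 a2 a3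
    have a4 := stir_half a1 a3
    have a5 : 0 < ‖z i‖ := by linarith
    have e1 : (z i).re / ‖z i‖ * (Real.log ‖z i‖ - 1) - (z i).im / ‖z i‖ * arg (z i) =
        (z i * log (z i) - z i).re / ‖z i‖ := by
      rw [re_main]
      ring
    rw [e1, Real.norm_eq_abs, abs_div, abs_of_pos a5]
    have e2 : (C + 4) * (Real.log ‖z i‖ / ‖z i‖) + (cS + 2) * (‖z i‖)⁻¹ =
        ((C + 4) * Real.log ‖z i‖ + (cS + 2)) / ‖z i‖ := by
      field_simp
    rw [e2]
    apply div_le_div_of_nonneg_right _ a5.le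
    have a6 := abs_le.1 a4
    have a7 := abs_le.1 a2
    rw [abs_le]
    constructor <;> linarith
  -- in terms of the argument
  have h3 : ∀ᶠ i in 𝓕, (z i).re / ‖z i‖ = Real.cos |arg (z i)| ∧
      (z i).im / ‖z i‖ * arg (z i) = |arg (z i)| * Real.sin |arg (z i)| ∧
      |arg (z i)| = Real.arccos ((z i).re / ‖z i‖) ∧ 0 ≤ (z i).re / ‖z i‖ ∧
      (z i).im / ‖z i‖ * arg (z i) ≤ Real.pi / 2 := by
    filter_upwards [hre, hz.eventually_ge_atTop 2] with i a1 a3
    have a4 : z i ≠ 0 := by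
      intro h
      rw [h, norm_zero] at a3
      linarith
    have a5 : 0 < ‖z i‖ := by linarith
    have b1 : (z i).re / ‖z i‖ = Real.cos |arg (z i)| := by
      rw [Real.cos_abs, cos_arg a4]
    have b2 : (z i).im / ‖z i‖ * arg (z i) = |arg (z i)| * Real.sin |arg (z i)| := by
      rw [← sin_arg]
      rcases abs_cases (arg (z i)) with ⟨h, _⟩ | ⟨h, _⟩
      · rw [h, mul_comm]
      · rw [h, Real.sin_neg]
        ring
    have b3 : |arg (z i)| ≤ Real.pi / 2 := abs_arg_le_pi_div_two_iff.2 a1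
    refine ⟨b1, b2, ?_, by positivity, ?_⟩
    · rw [b1, Real.arccos_cos (abs_nonneg _) (abs_arg_le_pi _)]
    · rw [b2]
      have b4 : Real.sin |arg (z i)| ≤ 1 := Real.sin_le_one _
      have b5 := abs_nonneg (arg (z i))
      have b6 : |arg (z i)| * Real.sin |arg (z i)| ≤ |arg (z i)| * 1 :=
        mul_le_mul_of_nonneg_left b4 b5
      linarith
  -- the cosine tends to zero
  have h4 : Tendsto (fun i => (z i).re / ‖z i‖) 𝓕 (𝓝 0) := by
    have h5 : Tendsto (fun i => (1 + Real.pi / 2) / (Real.log ‖z i‖ - 1)) 𝓕 (𝓝 0) := by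
      apply Tendsto.div_atTop tendsto_const_nhds
      exact tendsto_atTop_add_const_right _ _ hL
    refine squeeze_zero_norm' ?_ h5
    filter_upwards [h3, h1.eventually (Iio_mem_nhds (show (0:ℝ) < 1 by norm_num)),
      hL.eventually_ge_atTop 2] with i a1 a2 a3
    rw [Real.norm_eq_abs, abs_of_nonneg a1.2.2.2.1, le_div_iff₀ (by linarith)]
    have a4 := a1.2.2.2.2
    have a5 : (z i).re / ‖z i‖ * (Real.log ‖z i‖ - 1) - (z i).im / ‖z i‖ * arg (z i) < 1 := a2
    linarith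
  have h5 : Tendsto (fun i => |arg (z i)|) 𝓕 (𝓝 (Real.pi / 2)) := by
    have h6 := (Real.continuous_arccos.tendsto 0).comp h4
    rw [Real.arccos_zero] at h6
    refine h6.congr' ?_
    filter_upwards [h3] with i a1
    exact a1.2.2.1.symm
  have h6 : Tendsto (fun i => (z i).im / ‖z i‖ * arg (z i)) 𝓕 (𝓝 (Real.pi / 2)) := by
    have h7 := h5.mul ((Real.continuous_sin.tendsto _).comp h5)
    rw [Real.sin_pi_div_two, mul_one] at h7
    refine h7.congr' ?_
    filter_upwards [h3] with i a1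
    exact a1.2.1.symm
  have h7 := (h1.add h6).add h4
  rw [zero_add, add_zero] at h7
  refine h7.congr fun i => ?_
  ring

lemma norm_sin_ge (x : ℂ) (h : |x.re| ≤ Real.pi / 2) : 2 / Real.pi * ‖x‖ ≤ ‖sin x‖ := by
  have hpi := Real.pi_pos
  have h1 : ‖sin x‖ ^ 2 = Real.sin x.re ^ 2 + Real.sinh x.im ^ 2 := by
    rw [← Complex.normSq_eq_norm_sq, Complex.sin_eq, Complex.normSq_apply]
    have e1 : (sin (x.re : ℂ) * cosh (x.im : ℂ) + cos (x.re : ℂ) * sinh (x.im : ℂ) * I) =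
        ((Real.sin x.re * Real.cosh x.im : ℝ) : ℂ) + ((Real.cos x.re * Real.sinh x.im : ℝ) : ℂ) * I := by
      push_cast
      ring
    rw [e1]
    simp only [add_re, ofReal_re, mul_re, I_re, mul_zero, ofReal_im, I_im, mul_one, sub_self,
      add_zero, add_im, mul_im, zero_add]
    have h2 := Real.cosh_sq x.im
    have h3 := Real.sin_sq_add_cos_sq x.re
    nlinarith [h2, h3]
  have h2 : (2 / Real.pi) ^ 2 * x.re ^ 2 ≤ Real.sin x.re ^ 2 := by
    have h3 := Real.mul_le_sin (abs_nonneg x.re) h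
    have h4 : Real.sin |x.re| ^ 2 = Real.sin x.re ^ 2 := by
      rcases abs_cases x.re with ⟨h, _⟩ | ⟨h, _⟩
      · rw [h]
      · rw [h, Real.sin_neg, neg_sq]
    rw [← h4, ← sq_abs x.re, ← mul_pow]
    exact pow_le_pow_left₀ (by positivity) h3 2
  have h3 : x.im ^ 2 ≤ Real.sinh x.im ^ 2 := by
    rw [← sq_abs x.im, ← sq_abs (Real.sinh x.im), Real.abs_sinh]
    exact pow_le_pow_left₀ (abs_nonneg _) (Real.self_le_sinh_iff.2 (abs_nonneg _)) 2
  have h4 : (2 / Real.pi) ^ 2 ≤ 1 := by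
    rw [sq_le_one_iff₀ (by positivity), div_le_one hpi]
    linarith [Real.pi_gt_three]
  have h5 : (2 / Real.pi * ‖x‖) ^ 2 ≤ ‖sin x‖ ^ 2 := by
    rw [h1, mul_pow, ← Complex.normSq_eq_norm_sq, Complex.normSq_apply]
    have h6 : (2 / Real.pi) ^ 2 * x.im ^ 2 ≤ 1 * x.im ^ 2 :=
      mul_le_mul_of_nonneg_right h4 (sq_nonneg _)
    nlinarith
  exact le_of_sq_le_sq h5 (norm_nonneg _)

lemma inv_Gamma {w : ℂ} (hw : w.re ≤ 0) :
    (Gamma w)⁻¹ = Gamma (1 - w) * sin (Real.pi * w) / Real.pi := by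
  have hpi : (Real.pi : ℂ) ≠ 0 := by exact_mod_cast Real.pi_ne_zero
  have h := Gamma_mul_Gamma_one_sub w
  have h2 : Gamma (1 - w) ≠ 0 := Gamma_ne_zero_of_re_pos (by simp; linarith)
  by_cases hs : sin (Real.pi * w) = 0
  · rw [hs, mul_zero, zero_div]
    have h1 : Gamma w * Gamma (1 - w) = 0 := by rw [h, hs, div_zero]
    rw [(mul_eq_zero.1 h1).resolve_right h2, inv_zero]
  · have h1 : Gamma w ≠ 0 := by
      intro h0
      rw [h0, zero_mul] at h
      exact hs ((div_eq_zero_iff.1 h.symm).resolve_left hpi)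
    rw [eq_div_iff hs] at h
    rw [eq_div_iff hpi, inv_mul_eq_iff_eq_mul₀ h1]
    linear_combination -h

lemma log_sinh_ge {x : ℝ} (hx : 1 ≤ |x|) (u : ℂ) (hu : u.im = x) :
    Real.exp |x| / 4 ≤ ‖sin u‖ := by
  rw [norm_sin_eq]
  have h1 : Real.exp |x| - Real.exp (-|x|) ≤ ‖exp (-u * I) - exp (u * I)‖ := by
    rcases abs_cases x with ⟨h, _⟩ | ⟨h, _⟩
    · have := norm_sub_norm_le (exp (-u * I)) (exp (u * I))
      rw [norm_exp_neg_I, norm_exp_I, hu] at this
      rw [h]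
      exact this
    · have := norm_sub_norm_le (exp (u * I)) (exp (-u * I))
      rw [norm_exp_neg_I, norm_exp_I, hu, norm_sub_rev] at this
      rw [h, neg_neg]
      exact this
  have h2 : Real.exp (-|x|) ≤ Real.exp |x| / 2 := by
    have h3 : Real.exp (-|x|) * 2 ≤ Real.exp |x| := by
      have h4 : (2 : ℝ) ≤ Real.exp (|x| + |x|) := by
        have := Real.add_one_le_exp (|x| + |x|)
        linarith
      calc Real.exp (-|x|) * 2 ≤ Real.exp (-|x|) * Real.exp (|x| + |x|) :=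
            mul_le_mul_of_nonneg_left h4 (Real.exp_pos _).le
        _ = Real.exp |x| := by rw [← Real.exp_add]; congr 1; ring
    linarith
  linarith

/-- points of the left half plane where `1 / Γ` is of moderate size are close to the poles -/
lemma leftN (C : ℝ) : ∃ R₀ : ℝ, 2 ≤ R₀ ∧ ∀ w : ℂ, R₀ ≤ ‖w‖ → w.re ≤ 0 →
    Real.log ‖(Gamma w)⁻¹‖ ≤ C * Real.log ‖w‖ → ∃ k : ℕ, ‖w + k‖ ≤ Real.exp (-‖w‖) := by
  have hpi := Real.pi_pos
  have hpi3 := Real.pi_gt_three
  -- the logarithm is small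
  have hlog : Tendsto (fun x : ℝ => Real.log x / x) atTop (𝓝 0) :=
    Real.isLittleO_log_id_atTop.tendsto_div_nhds_zero
  set K : ℝ := |C| + 10 with hK
  have hK0 : 0 < K := by positivity
  have h1 : ∀ᶠ x : ℝ in atTop, K * Real.log x ≤ x / 8 := by
    filter_upwards [hlog.eventually (Iio_mem_nhds (show (0:ℝ) < 1 / (8 * K) by positivity)),
      eventually_gt_atTop 0] with x hx hx0
    have hx' : Real.log x / x < 1 / (8 * K) := hx
    rw [div_lt_iff₀ hx0] at hx'
    have : K * Real.log x ≤ K * (1 / (8 * K) * x) := mul_le_mul_of_nonneg_left hx'.le hK0.le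
    calc K * Real.log x ≤ K * (1 / (8 * K) * x) := this
      _ = x / 8 := by field_simp
  have h2 : ∀ᶠ x : ℝ in atTop, cS + 20 ≤ x / 8 := by
    filter_upwards [eventually_ge_atTop (8 * (cS + 20))] with x hx
    linarith
  have h3 : ∀ᶠ x : ℝ in atTop, 6 ≤ Real.log x := Real.tendsto_log_atTop.eventually_ge_atTop 6
  obtain ⟨R₀, hR₀⟩ := eventually_atTop.1 ((h1.and h2).and (h3.and (eventually_ge_atTop 4)))
  refine ⟨max R₀ 4, (by norm_num : (2:ℝ) ≤ 4).trans (le_max_right _ _), ?_⟩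
  intro w hw hre hH
  have hwR : R₀ ≤ ‖w‖ := (le_max_left _ _).trans hw
  obtain ⟨⟨b1, b2⟩, b3, b4⟩ := hR₀ ‖w‖ hwR
  by_cases hH0 : sin (Real.pi * w) = 0
  · rw [Complex.sin_eq_zero_iff] at hH0
    obtain ⟨k, hk⟩ := hH0
    have hw' : w = k := by
      have h3 : (Real.pi : ℂ) * w = Real.pi * k := by rw [hk]; ring
      exact mul_left_cancel₀ (by exact_mod_cast Real.pi_ne_zero) h3
    have hk0 : k ≤ 0 := by
      rw [hw'] at hre
      simp only [intCast_re] at hre
      exact_mod_cast hre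
    refine ⟨k.natAbs, ?_⟩
    have : w + (k.natAbs : ℂ) = 0 := by
      have h4 : ((k.natAbs : ℤ) : ℂ) = ((-k : ℤ) : ℂ) := by
        rw [Int.ofNat_natAbs_of_nonpos hk0]
      have h5 : ((k.natAbs : ℕ) : ℂ) = ((k.natAbs : ℤ) : ℂ) := by rw [Int.cast_natCast]
      rw [hw', h5, h4]
      push_cast
      ring
    rw [this, norm_zero]
    exact (Real.exp_pos _).le
  set z : ℂ := 1 - w with hz
  have hzre : z.re = 1 - w.re := by simp [hz]
  have hzim : z.im = -w.im := by simp [hz]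
  have hz1 : 1 ≤ z.re := by rw [hzre]; linarith
  have hzn : ‖w‖ ≤ ‖z‖ := by
    have e1 : ‖w‖ ^ 2 ≤ ‖z‖ ^ 2 := by
      rw [← Complex.normSq_eq_norm_sq, ← Complex.normSq_eq_norm_sq, Complex.normSq_apply,
        Complex.normSq_apply, hzre, hzim]
      nlinarith
    exact le_of_sq_le_sq e1 (norm_nonneg _)
  have hzn2 : ‖z‖ ≤ ‖w‖ + 1 := by
    have := norm_sub_le (1 : ℂ) w
    rw [norm_one] at this
    linarith
  have hlz : Real.log ‖w‖ ≤ Real.log ‖z‖ := Real.log_le_log (by linarith) hzn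
  have hlz2 : Real.log ‖z‖ ≤ 2 * Real.log ‖w‖ := by
    have e1 : ‖z‖ ≤ ‖w‖ ^ 2 := by nlinarith
    calc Real.log ‖z‖ ≤ Real.log (‖w‖ ^ 2) := Real.log_le_log (by linarith) e1
      _ = 2 * Real.log ‖w‖ := by rw [Real.log_pow]; norm_num
  -- Stirling
  have hst := (abs_le.1 (stir_half (w := z) (by linarith) (by linarith))).1
  have hmain : z.re * (Real.log ‖z‖ - 1) - Real.pi / 2 * |w.im| ≤ (z * log z - z).re := by
    rw [re_main]
    have e1 : z.im * arg z ≤ |w.im| * (Real.pi / 2) := by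
      calc z.im * arg z ≤ |z.im * arg z| := le_abs_self _
        _ = |w.im| * |arg z| := by rw [abs_mul, hzim, abs_neg]
        _ ≤ _ := mul_le_mul_of_nonneg_left (abs_arg_le_pi_div_two_iff.2 (by linarith))
            (abs_nonneg _)
    linarith
  have hG0 : Gamma z ≠ 0 := Gamma_ne_zero_of_re_pos (by linarith)
  have hsum : Real.log ‖(Gamma w)⁻¹‖ = Real.log ‖Gamma z‖ + Real.log ‖sin (Real.pi * w)‖ -
      Real.log Real.pi := by
    rw [inv_Gamma hre, norm_div, norm_mul, Real.log_div, Real.log_mul (norm_ne_zero_iff.2 hG0)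
      (norm_ne_zero_iff.2 hH0)]
    · congr 2
      rw [norm_real, Real.norm_eq_abs, abs_of_pos hpi]
    · exact mul_ne_zero (norm_ne_zero_iff.2 hG0) (norm_ne_zero_iff.2 hH0)
    · rw [norm_real, Real.norm_eq_abs, abs_of_pos hpi]
      exact hpi.ne'
  have hlpi : Real.log Real.pi ≤ 3 := by
    have := Real.log_le_sub_one_of_pos hpi
    linarith [Real.pi_lt_four]
  have hn1 : ‖w‖ ≤ |w.re| + |w.im| := Complex.norm_le_abs_re_add_abs_im w
  have hre' : |w.re| = -w.re := abs_of_nonpos hre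
  have hmain2 : 2 * (1 + |w.re|) ≤ z.re * (Real.log ‖z‖ - 1) := by
    rw [hzre]
    have : 1 - w.re = 1 + |w.re| := by rw [hre']; ring
    rw [this]
    have h5 := abs_nonneg w.re
    nlinarith
  have hC : C * Real.log ‖w‖ ≤ |C| * Real.log ‖w‖ :=
    mul_le_mul_of_nonneg_right (le_abs_self _) (by linarith)
  have hKl : K * Real.log ‖w‖ = |C| * Real.log ‖w‖ + 10 * Real.log ‖w‖ := by rw [hK]; ring
  by_cases him : 1 ≤ |w.im|
  · exfalso
    have h5 : 1 ≤ |Real.pi * w.im| := by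
      rw [abs_mul, abs_of_pos hpi]
      nlinarith
    have h6 := log_sinh_ge h5 (Real.pi * w) (by simp)
    have h7 : Real.pi * |w.im| - 2 ≤ Real.log ‖sin (Real.pi * w)‖ := by
      have h8 : Real.log (Real.exp |Real.pi * w.im| / 4) ≤ Real.log ‖sin (Real.pi * w)‖ :=
        Real.log_le_log (by positivity) h6
      rw [Real.log_div (Real.exp_pos _).ne' (by norm_num), Real.log_exp, abs_mul,
        abs_of_pos hpi] at h8
      have h9 : Real.log 4 ≤ 2 := by
        rw [show (4:ℝ) = 2 ^ 2 by norm_num, Real.log_pow]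
        have := Real.log_two_lt_d9
        push_cast
        linarith
      linarith
    have h8 := abs_nonneg w.im
    have h10 := abs_nonneg w.re
    nlinarith
  · push Not at him
    have h6 : Real.pi / 2 * |w.im| ≤ 2 := by nlinarith [Real.pi_lt_four, abs_nonneg w.im]
    have h7 : Real.log ‖sin (Real.pi * w)‖ ≤ -‖w‖ := by
      nlinarith [abs_nonneg w.im, abs_nonneg w.re]
    have h8 : ‖sin (Real.pi * w)‖ ≤ Real.exp (-‖w‖) := by
      rw [← Real.exp_log (norm_pos_iff.2 hH0)]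
      exact Real.exp_le_exp.2 h7
    -- the nearest integer
    set k : ℤ := round w.re with hk
    have hk1 : |w.re - k| ≤ 1 / 2 := abs_sub_round w.re
    have hk0 : k ≤ 0 := by
      have h9 : (k : ℝ) < 1 := by
        have := (abs_le.1 hk1).1
        linarith
      have : k < 1 := by exact_mod_cast h9
      omega
    refine ⟨k.natAbs, ?_⟩
    have h5 : ((k.natAbs : ℕ) : ℂ) = -(k : ℂ) := by
      have h4 : ((k.natAbs : ℤ) : ℂ) = ((-k : ℤ) : ℂ) := by
        rw [Int.ofNat_natAbs_of_nonpos hk0]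
      have h5 : ((k.natAbs : ℕ) : ℂ) = ((k.natAbs : ℤ) : ℂ) := by rw [Int.cast_natCast]
      rw [h5, h4]
      push_cast
      ring
    rw [h5, ← sub_eq_add_neg]
    have h9 : ‖sin (Real.pi * (w - k))‖ = ‖sin (Real.pi * w)‖ := by
      have e1 : (Real.pi : ℂ) * (w - k) = Real.pi * w - k * Real.pi := by ring
      have e2 : ‖cos ((k : ℂ) * Real.pi)‖ = 1 := by
        have e3 : ((k : ℂ) * Real.pi) = (((k : ℝ) * Real.pi : ℝ) : ℂ) := by push_cast; rfl
        rw [e3, ← ofReal_cos, norm_real, Real.norm_eq_abs, Real.abs_cos_int_mul_pi]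
      rw [e1, Complex.sin_sub, Complex.sin_int_mul_pi, mul_zero, sub_zero, norm_mul, e2, mul_one]
    have hre2 : ((Real.pi : ℂ) * (w - k)).re = Real.pi * (w.re - k) := by
      simp
    have h10 := norm_sin_ge ((Real.pi : ℂ) * (w - k)) (by
      rw [hre2, abs_mul, abs_of_pos hpi]
      have := mul_le_mul_of_nonneg_left hk1 hpi.le
      linarith)
    rw [h9, norm_mul, norm_real, Real.norm_eq_abs, abs_of_pos hpi] at h10
    have h11 : 2 / Real.pi * (Real.pi * ‖w - k‖) = 2 * ‖w - k‖ := by field_simp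
    rw [h11] at h10
    have := norm_nonneg (w - k)
    linarith

end Pool.Agent.H489.CU
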