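import Pool.Agent.H489.CU.Fil

/-!
The upper family of solutions: the leading terms.
-/

open Complex Filter Topology

namespace Pool.Agent.H489.CU

open Pool.Agent.W688.GF Pool.Agent.H401R2

variable {𝓕 : Filter ℂ} {e : ℕ}

lemma exp_norm_tend (h : Str 𝓕) : Tendsto (fun s : ℂ => ‖exp s‖) 𝓕 atTop := by
  refine (Real.tendsto_exp_atTop.comp h.re).congr fun s => ?_
  rw [norm_exp]
  rfl

/-- the solutions in the right half plane with positive imaginary part are upper -/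
lemma up_of (h : Str 𝓕) (hre : ∀ᶠ s in 𝓕, 0 ≤ (exp s).re) (him : ∀ᶠ s : ℂ in 𝓕, 0 ≤ s.im) {C : ℝ}
    (hG : ∀ᶠ s : ℂ in 𝓕, |Real.log ‖Gamma (exp s)‖| ≤ C * s.re) : Up 𝓕 := by
  have hpi := Real.pi_pos
  have h1 := reG (C := C) (exp_norm_tend h) hre (by
    filter_upwards [hG] with s hs
    rw [norm_exp, Real.log_exp]
    exact hs)
  have h2 : Tendsto (fun s : ℂ => Real.sin (Real.pi / 2 - s.im) * s.re) 𝓕
      (𝓝 (Real.pi / 2)) := by
    refine h1.congr fun s => ?_
    rw [norm_exp, Real.log_exp, exp_re, Real.sin_pi_div_two_sub]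
    have := Real.exp_pos s.re
    field_simp
  have h3 : ∀ᶠ s : ℂ in 𝓕, 0 ≤ Real.pi / 2 - s.im ∧ Real.pi / 2 - s.im ≤ Real.pi / 2 := by
    filter_upwards [h.im, hre, him] with s a1 a2 a3
    constructor
    · by_contra hcon
      push Not at hcon
      rw [exp_re] at a2
      have a4 : Real.cos s.im < 0 := by
        apply Real.cos_neg_of_pi_div_two_lt_of_lt (by linarith)
        have := (abs_le.1 a1).2
        linarith
      have := mul_neg_of_pos_of_neg (Real.exp_pos s.re) a4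
      linarith
    · linarith
  -- the angle tends to zero
  have h4 : Tendsto (fun s : ℂ => Real.pi / 2 - s.im) 𝓕 (𝓝 0) := by
    have h5 : Tendsto (fun s : ℂ => Real.pi / 2 * ((Real.sin (Real.pi / 2 - s.im) * s.re) *
        (s.re)⁻¹)) 𝓕 (𝓝 (Real.pi / 2 * (Real.pi / 2 * 0))) :=
      (h2.mul (tendsto_inv_atTop_zero.comp h.re)).const_mul _
    rw [mul_zero, mul_zero] at h5
    refine squeeze_zero' (h3.mono fun s hs => hs.1) ?_ h5
    filter_upwards [h3, h.re.eventually_gt_atTop 0] with s a1 a2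
    have a3 := Real.mul_le_sin a1.1 a1.2
    have e1 : Real.sin (Real.pi / 2 - s.im) * s.re * (s.re)⁻¹ = Real.sin (Real.pi / 2 - s.im) := by
      field_simp
    rw [e1]
    calc Real.pi / 2 - s.im = Real.pi / 2 * (2 / Real.pi * (Real.pi / 2 - s.im)) := by
          field_simp
      _ ≤ _ := mul_le_mul_of_nonneg_left a3 (by positivity)
  -- comparison of the sine and the angle
  have h5 : Tendsto (fun s : ℂ => (Real.pi / 2 - s.im) * s.re -
      Real.sin (Real.pi / 2 - s.im) * s.re) 𝓕 (𝓝 0) := by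
    have h6 : Tendsto (fun s : ℂ => Real.pi / 2 * (Real.sin (Real.pi / 2 - s.im) * s.re) *
        (Real.pi / 2 - s.im) ^ 2) 𝓕 (𝓝 (Real.pi / 2 * (Real.pi / 2) * 0 ^ 2)) :=
      (h2.const_mul _).mul (h4.pow 2)
    rw [zero_pow two_ne_zero, mul_zero] at h6
    refine squeeze_zero' ?_ ?_ h6
    · filter_upwards [h3, h.re.eventually_gt_atTop 0] with s a1 a2
      have := Real.sin_le a1.1
      nlinarith
    · filter_upwards [h3, h.re.eventually_gt_atTop 0,
        h4.eventually_lt_const (show (0:ℝ) < 1 by norm_num)] with s a1 a2 a3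
      set ψ := Real.pi / 2 - s.im with hψ
      have b1 : ψ - Real.sin ψ ≤ ψ ^ 3 := by
        rcases a1.1.eq_or_lt with h0 | h0
        · rw [← h0]
          simp
        · have := Real.sin_gt_sub_cube h0
          have : 0 < ψ ^ 3 := by positivity
          linarith
      have b2 : ψ ≤ Real.pi / 2 * Real.sin ψ := by
        have := Real.mul_le_sin a1.1 a1.2
        calc ψ = Real.pi / 2 * (2 / Real.pi * ψ) := by field_simp
          _ ≤ _ := mul_le_mul_of_nonneg_left this (by positivity)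
      calc ψ * s.re - Real.sin ψ * s.re = (ψ - Real.sin ψ) * s.re := by ring
        _ ≤ ψ ^ 3 * s.re := mul_le_mul_of_nonneg_right b1 a2.le
        _ = ψ * (ψ ^ 2 * s.re) := by ring
        _ ≤ (Real.pi / 2 * Real.sin ψ) * (ψ ^ 2 * s.re) :=
            mul_le_mul_of_nonneg_right b2 (by positivity)
        _ = _ := by ring
  have h6 := h5.add h2
  rw [zero_add] at h6
  exact ⟨h, h6.congr fun s => by ring⟩

lemma unit_sub {x y : ℂ} (hx : x ≠ 0) (hy : y ≠ 0) : ‖x / ‖x‖ - y / ‖y‖‖ ≤ 2 / ‖y‖ * ‖x - y‖ := by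
  have hx' : 0 < ‖x‖ := norm_pos_iff.2 hx
  have hy' : 0 < ‖y‖ := norm_pos_iff.2 hy
  have e1 : x / ‖x‖ - y / ‖y‖ = (x - y) / ‖y‖ + (x / ‖x‖) * ((‖y‖ - ‖x‖ : ℝ) : ℂ) / ‖y‖ := by
    have h1 : (‖x‖ : ℂ) ≠ 0 := by exact_mod_cast hx'.ne'
    have h2 : (‖y‖ : ℂ) ≠ 0 := by exact_mod_cast hy'.ne'
    push_cast
    field_simp
    ring
  rw [e1]
  refine (norm_add_le _ _).trans ?_
  have h1 : ‖(x - y) / ‖y‖‖ = ‖x - y‖ / ‖y‖ := by
    rw [norm_div, norm_real, Real.norm_eq_abs, abs_of_pos hy']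
  have h2 : ‖(x / ‖x‖) * ((‖y‖ - ‖x‖ : ℝ) : ℂ) / ‖y‖‖ ≤ ‖x - y‖ / ‖y‖ := by
    rw [norm_div, norm_mul, norm_div, norm_real, norm_real, norm_real, Real.norm_eq_abs,
      Real.norm_eq_abs, Real.norm_eq_abs, abs_of_pos hx', abs_of_pos hy', div_self hx'.ne',
      one_mul]
    apply div_le_div_of_nonneg_right _ hy'.le
    have := abs_norm_sub_norm_le y x
    rwa [norm_sub_rev] at this
  rw [h1]
  calc ‖x - y‖ / ‖y‖ + _ ≤ ‖x - y‖ / ‖y‖ + ‖x - y‖ / ‖y‖ := by linarith
    _ = _ := by ring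

/-- the second function -/
noncomputable def zz (e p : ℕ) (g : ℂ → ℂ) (s : ℂ) : ℂ := exp (p * s / e) * g (tt e s)

lemma norm_zz (p : ℕ) (g : ℂ → ℂ) (s : ℂ) :
    ‖zz e p g s‖ = Real.exp (p / e * s.re) * ‖g (tt e s)‖ := by
  unfold zz
  rw [norm_mul, norm_exp]
  congr 2
  have : (p : ℂ) * s / (e : ℂ) = ((p / e : ℝ) : ℂ) * s := by push_cast; ring
  rw [this, re_ofReal_mul]

lemma zz_unit (p : ℕ) (g : ℂ → ℂ) (s : ℂ) (hg : g (tt e s) ≠ 0) :
    zz e p g s / ‖zz e p g s‖ = exp (I * ((p / e : ℝ) : ℂ) * s.im) * (g (tt e s) / ‖g (tt e s)‖) := by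
  have h1 : exp ((p : ℂ) * s / e) = ((Real.exp (p / e * s.re) : ℝ) : ℂ) *
      exp (I * ((p / e : ℝ) : ℂ) * s.im) := by
    rw [ofReal_exp, ← exp_add]
    congr 1
    have : s = s.re + s.im * I := (re_add_im s).symm
    push_cast
    conv_lhs => rw [this]
    ring
  rw [norm_zz]
  unfold zz
  rw [h1]
  have h2 : ((Real.exp (p / e * s.re) : ℝ) : ℂ) ≠ 0 := by
    exact_mod_cast (Real.exp_pos _).ne'
  have h3 : (‖g (tt e s)‖ : ℂ) ≠ 0 := by exact_mod_cast norm_ne_zero_iff.2 hg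
  push_cast
  push_cast at h2
  field_simp

lemma zz_norm_tend (h : Str 𝓕) (he : 0 < e) {p : ℕ} (hp : 0 < p) {g : ℂ → ℂ}
    (hg : AnalyticAt ℂ g 0) (hg0 : g 0 ≠ 0) : Tendsto (fun s => ‖zz e p g s‖) 𝓕 atTop := by
  have he' : (0 : ℝ) < e := by exact_mod_cast he
  have hp' : (0 : ℝ) < p := by exact_mod_cast hp
  have h1 : Tendsto (fun s : ℂ => Real.exp (p / e * s.re)) 𝓕 atTop :=
    Real.tendsto_exp_atTop.comp (h.re.const_mul_atTop (by positivity))
  have h2 := (h.lim he hg).norm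
  refine (h1.atTop_mul_pos (norm_pos_iff.2 hg0) h2).congr fun s => ?_
  rw [norm_zz]

/-- the direction of the second function -/
lemma zz_dir (h : Str 𝓕) (he : 0 < e) {p : ℕ} {g : ℂ → ℂ}
    (hg : AnalyticAt ℂ g 0) (hg0 : g 0 ≠ 0) :
    Tendsto (fun s : ℂ => ‖zz e p g s / ‖zz e p g s‖ -
      exp (I * ((p / e : ℝ) : ℂ) * s.im) * (g 0 / ‖g 0‖)‖ * s.re) 𝓕 (𝓝 0) := by
  have h1 := (h.small he hg 1).const_mul (2 / ‖g 0‖)
  rw [mul_zero] at h1
  refine squeeze_zero' ?_ ?_ h1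
  · filter_upwards [h.re.eventually_ge_atTop 0] with s hs
    positivity
  · filter_upwards [h.re.eventually_ge_atTop 0, (h.lim he hg).eventually_ne hg0] with s a1 a2
    rw [zz_unit p g s a2, ← mul_sub, norm_mul]
    have e1 : ‖exp (I * ((p / e : ℝ) : ℂ) * s.im)‖ = 1 := by
      rw [norm_exp]
      have : (I * ((p / e : ℝ) : ℂ) * s.im) = ((p / e * s.im : ℝ) : ℂ) * I := by push_cast; ring
      rw [this, re_ofReal_mul, I_re, mul_zero, Real.exp_zero]
    rw [e1, one_mul, pow_one]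
    calc _ ≤ (2 / ‖g 0‖ * ‖g (tt e s) - g 0‖) * s.re :=
          mul_le_mul_of_nonneg_right (unit_sub a2 hg0) a1
      _ = _ := by ring

/-- if the first function is upper, the second is not close to the poles -/
lemma no_pole (h : Up 𝓕) (he : 0 < e) {p : ℕ} (hp : 0 < p) {g : ℂ → ℂ}
    (hg : AnalyticAt ℂ g 0) (hg0 : g 0 ≠ 0)
    (hN : ∀ᶠ s in 𝓕, ∃ k : ℕ, ‖zz e p g s + k‖ ≤ Real.exp (-‖zz e p g s‖)) : False := by
  have := h.ne
  have he' : (0 : ℝ) < e := by exact_mod_cast he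
  have hp' : (0 : ℝ) < p := by exact_mod_cast hp
  have hσ : (0 : ℝ) < p / e := by positivity
  -- the direction is close to `-1`
  have h1 : Tendsto (fun s : ℂ => ‖zz e p g s / ‖zz e p g s‖ + 1‖ * s.re) 𝓕 (𝓝 0) := by
    have h2 : Tendsto (fun s : ℂ => 2 / ‖g (tt e s)‖ * (‖tt e s‖ * s.re ^ 1)) 𝓕
        (𝓝 (2 / ‖g 0‖ * 0)) :=
      ((tendsto_const_nhds (x := (2:ℝ))).div (h.lim he hg).norm (norm_ne_zero_iff.2 hg0)).mul
        (h.pow he 1)
    rw [mul_zero] at h2
    refine squeeze_zero' ?_ ?_ h2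
    · filter_upwards [h.re.eventually_ge_atTop 0] with s hs
      positivity
    · filter_upwards [h.re.eventually_ge_atTop 0, (h.lim he hg).eventually_ne hg0, hN,
        (zz_norm_tend h.toStr he hp hg hg0).eventually_ge_atTop 1] with s a1 a2 ⟨k, a3⟩ a4
      have b0 : 0 < ‖zz e p g s‖ := by linarith
      have b1 : ‖zz e p g s / ‖zz e p g s‖ + 1‖ ≤ 2 * ‖zz e p g s + k‖ := by
        have e1 : zz e p g s / ‖zz e p g s‖ + 1 =
            ((zz e p g s + k) + ((‖zz e p g s‖ - k : ℝ) : ℂ)) / ‖zz e p g s‖ := by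
          have : (‖zz e p g s‖ : ℂ) ≠ 0 := by exact_mod_cast b0.ne'
          push_cast
          field_simp
          ring
        rw [e1, norm_div, norm_real, Real.norm_eq_abs, abs_of_pos b0]
        have b2 : ‖(((‖zz e p g s‖ - k : ℝ)) : ℂ)‖ ≤ ‖zz e p g s + k‖ := by
          rw [norm_real, Real.norm_eq_abs]
          have := abs_norm_sub_norm_le (zz e p g s) (-(k : ℂ))
          rw [norm_neg, Complex.norm_natCast, sub_neg_eq_add] at this
          exact this
        calc _ ≤ (‖zz e p g s + k‖ + ‖zz e p g s + k‖) / ‖zz e p g s‖ :=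
              div_le_div_of_nonneg_right ((norm_add_le _ _).trans (by linarith)) b0.le
          _ ≤ (‖zz e p g s + k‖ + ‖zz e p g s + k‖) / 1 :=
              div_le_div_of_nonneg_left (by positivity) one_pos a4
          _ = _ := by ring
      have b2 : Real.exp (-‖zz e p g s‖) ≤ ‖tt e s‖ / ‖g (tt e s)‖ := by
        have c1 : Real.exp (-‖zz e p g s‖) ≤ (‖zz e p g s‖)⁻¹ := by
          rw [Real.exp_neg]
          apply inv_anti₀ b0
          have := Real.add_one_le_exp ‖zz e p g s‖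
          linarith
        have c2 : (‖zz e p g s‖)⁻¹ ≤ ‖tt e s‖ / ‖g (tt e s)‖ := by
          rw [norm_zz, norm_tt, mul_inv, ← Real.exp_neg, div_eq_mul_inv (Real.exp _)]
          apply mul_le_mul_of_nonneg_right _ (by positivity)
          apply Real.exp_le_exp.2
          have : (1 : ℝ) ≤ p := by exact_mod_cast hp
          have : s.re / e ≤ p / e * s.re := by
            rw [div_mul_eq_mul_div]
            apply div_le_div_of_nonneg_right _ he'.le
            nlinarith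
          linarith
        exact c1.trans c2
      calc _ ≤ (2 * (‖tt e s‖ / ‖g (tt e s)‖)) * s.re :=
            mul_le_mul_of_nonneg_right (b1.trans (by linarith)) a1
        _ = _ := by ring
  have h2 := zz_dir (p := p) h.toStr he hg hg0
  have h3 : Tendsto (fun s : ℂ => (exp (I * ((p / e : ℝ) : ℂ) * s.im) * (g 0 / ‖g 0‖) + 1) *
      (s.re : ℂ)) 𝓕 (𝓝 0) := by
    rw [tendsto_zero_iff_norm_tendsto_zero]
    have h4 := h1.add h2
    rw [zero_add] at h4
    refine squeeze_zero' (Eventually.of_forall fun _ => norm_nonneg _) ?_ h4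
    filter_upwards [h.re.eventually_ge_atTop 0] with s a1
    rw [norm_mul, norm_real, Real.norm_eq_abs, abs_of_nonneg a1, ← add_mul]
    apply mul_le_mul_of_nonneg_right _ a1
    have := norm_sub_le (zz e p g s / ‖zz e p g s‖ + 1) (zz e p g s / ‖zz e p g s‖ -
      exp (I * ((p / e : ℝ) : ℂ) * s.im) * (g 0 / ‖g 0‖))
    refine le_trans (le_of_eq ?_) this
    congr 1
    ring
  have h4 := h.vec (p / e : ℝ) (g 0 / ‖g 0‖)
  set ℓ := exp (I * ((p / e : ℝ) : ℂ) * (Real.pi / 2)) * (g 0 / ‖g 0‖) with hℓ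
  have h5 := h3.sub h4
  rw [zero_sub] at h5
  have h6 : Tendsto (fun s : ℂ => (ℓ + 1) * (s.re : ℂ)) 𝓕
      (𝓝 (-(-(I * ((p / e : ℝ) : ℂ) * (Real.pi / 2)) * ℓ))) := by
    refine h5.congr fun s => ?_
    ring
  have h7 : ℓ + 1 = 0 := by
    by_contra h0
    have h8 : Tendsto (fun s : ℂ => ‖(ℓ + 1) * (s.re : ℂ)‖) 𝓕 atTop := by
      have h9 : Tendsto (fun s : ℂ => ‖ℓ + 1‖ * s.re) 𝓕 atTop :=
        h.re.const_mul_atTop (norm_pos_iff.2 h0)
      refine h9.congr' ?_
      filter_upwards [h.re.eventually_ge_atTop 0] with s hs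
      rw [norm_mul, norm_real, Real.norm_eq_abs, abs_of_nonneg hs]
    exact not_tendsto_nhds_of_tendsto_atTop h8 _ h6.norm
  rw [h7] at h6
  simp only [zero_mul] at h6
  have h8 := tendsto_nhds_unique h6 tendsto_const_nhds
  have h9 : ℓ = -1 := by linear_combination h7
  rw [h9] at h8
  have h10 := congrArg Complex.im h8
  have e1 : (-(-(I * ((p / e : ℝ) : ℂ) * (Real.pi / 2)) * (-1 : ℂ))) =
      ((-(p / e * (Real.pi / 2)) : ℝ) : ℂ) * I := by
    push_cast
    ring
  rw [e1, im_ofReal_mul, I_im, mul_one, zero_im] at h10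
  have := Real.pi_pos
  have : 0 < (p : ℝ) / e * (Real.pi / 2) := by positivity
  linarith

/-- if both functions are in the right half plane, they are equal up to a positive factor -/
lemma same_order (h : Up 𝓕) (he : 0 < e) {p : ℕ} (hp : 0 < p) {g : ℂ → ℂ}
    (hg : AnalyticAt ℂ g 0) (hg0 : g 0 ≠ 0) (hre : ∀ᶠ s in 𝓕, 0 ≤ (zz e p g s).re) {C : ℝ}
    (hG : ∀ᶠ s : ℂ in 𝓕, |Real.log ‖Gamma (zz e p g s)‖| ≤ C * s.re) :
    p = e ∧ g 0 = ((‖g 0‖ : ℝ) : ℂ) := by
  have := h.ne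
  have hpi := Real.pi_pos
  have he' : (0 : ℝ) < e := by exact_mod_cast he
  have hp' : (0 : ℝ) < p := by exact_mod_cast hp
  set σ : ℝ := p / e with hσdef
  have hσ : 0 < σ := by positivity
  have hz := zz_norm_tend h.toStr he hp hg hg0
  have hlog : ∀ᶠ s in 𝓕, Real.log ‖zz e p g s‖ = σ * s.re + Real.log ‖g (tt e s)‖ := by
    filter_upwards [(h.lim he hg).eventually_ne hg0] with s hs
    rw [norm_zz, Real.log_mul (Real.exp_pos _).ne' (norm_ne_zero_iff.2 hs), Real.log_exp]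
  have hlg : Tendsto (fun s => Real.log ‖g (tt e s)‖) 𝓕 (𝓝 (Real.log ‖g 0‖)) :=
    ((Real.continuousAt_log (norm_ne_zero_iff.2 hg0)).tendsto.comp (h.lim he hg).norm)
  have h1 := reG (z := zz e p g) (C := 2 * |C| / σ) hz hre (by
    filter_upwards [hG, hlog, h.re.eventually_ge_atTop (2 * (|Real.log ‖g 0‖| + 1) / σ),
      hlg.norm.eventually_lt_const (show ‖Real.log ‖g 0‖‖ < |Real.log ‖g 0‖| + 1 by
        rw [Real.norm_eq_abs]; linarith)] with s a1 a2 a3 a4
    refine a1.trans ?_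
    rw [a2]
    rw [div_le_iff₀ hσ] at a3
    rw [Real.norm_eq_abs] at a4
    have a5 := (abs_lt.1 a4).1
    have a6 : σ * s.re / 2 ≤ σ * s.re + Real.log ‖g (tt e s)‖ := by linarith
    have a7 : 0 ≤ s.re := by
      have := abs_nonneg (Real.log ‖g 0‖)
      nlinarith
    calc C * s.re ≤ |C| * s.re := mul_le_mul_of_nonneg_right (le_abs_self _) a7
      _ = 2 * |C| / σ * (σ * s.re / 2) := by field_simp
      _ ≤ _ := mul_le_mul_of_nonneg_left a6 (by positivity))
  -- multiply by `L` only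
  have h2 : Tendsto (fun s => (zz e p g s).re / ‖zz e p g s‖) 𝓕 (𝓝 0) := by
    have h3 := h1.mul (tendsto_inv_atTop_zero.comp (Real.tendsto_log_atTop.comp hz))
    rw [mul_zero] at h3
    refine h3.congr' ?_
    filter_upwards [(Real.tendsto_log_atTop.comp hz).eventually_gt_atTop 0] with s hs
    simp only [Function.comp] at hs ⊢
    field_simp
  have h3 : Tendsto (fun s : ℂ => (zz e p g s).re / ‖zz e p g s‖ * s.re) 𝓕
      (𝓝 (Real.pi / (2 * σ))) := by
    have h4 := (h1.sub (h2.mul hlg)).div_const σ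
    rw [zero_mul, sub_zero] at h4
    have e1 : Real.pi / 2 / σ = Real.pi / (2 * σ) := by rw [div_div]
    rw [e1] at h4
    refine h4.congr' ?_
    filter_upwards [hlog] with s hs
    rw [hs]
    field_simp
    ring
  have h4 : Tendsto (fun s : ℂ => (exp (I * (σ : ℂ) * s.im) * (g 0 / ‖g 0‖)).re * s.re) 𝓕
      (𝓝 (Real.pi / (2 * σ))) := by
    have h5 := zz_dir (p := p) h.toStr he hg hg0
    have h6 : Tendsto (fun s : ℂ => (exp (I * (σ : ℂ) * s.im) * (g 0 / ‖g 0‖)).re * s.re -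
        (zz e p g s).re / ‖zz e p g s‖ * s.re) 𝓕 (𝓝 0) := by
      refine squeeze_zero_norm' ?_ h5
      filter_upwards [h.re.eventually_ge_atTop 0] with s a1
      rw [← sub_mul, norm_mul, Real.norm_eq_abs, Real.norm_eq_abs, abs_of_nonneg a1]
      apply mul_le_mul_of_nonneg_right _ a1
      rw [norm_sub_rev]
      refine le_trans (le_of_eq ?_) (abs_re_le_norm _)
      congr 1
      rw [sub_re]
      congr 1
      rw [div_ofReal_re]
    have h7 := h6.add h3
    rw [zero_add] at h7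
    refine h7.congr fun s => ?_
    ring
  obtain ⟨h5, h6⟩ := h.vec_re σ (g 0 / ‖g 0‖) h4
  set ℓ := exp (I * (σ : ℂ) * (Real.pi / 2)) * (g 0 / ‖g 0‖) with hℓ
  have hn : ‖ℓ‖ = 1 := by
    rw [hℓ, norm_mul, norm_exp, norm_div, norm_real, norm_norm, div_self (norm_ne_zero_iff.2 hg0),
      mul_one]
    have : (I * (σ : ℂ) * (Real.pi / 2)) = ((σ * (Real.pi / 2) : ℝ) : ℂ) * I := by
      push_cast
      ring
    rw [this, re_ofReal_mul, I_re, mul_zero, Real.exp_zero]
  have him : ℓ.im ^ 2 = 1 := by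
    have := Complex.sq_norm ℓ
    rw [hn, Complex.normSq_apply, h5] at this
    nlinarith
  have h7 : σ ^ 2 * ℓ.im = 1 := by
    have h8 : Real.pi / (2 * σ) * (2 * σ / Real.pi) = 1 := by field_simp
    rw [h6] at h8
    have : σ * (Real.pi / 2) * ℓ.im * (2 * σ / Real.pi) = σ ^ 2 * ℓ.im := by field_simp
    rw [this] at h8
    exact h8
  have h8 : 0 < ℓ.im := by
    by_contra hcon
    push Not at hcon
    have : σ ^ 2 * ℓ.im ≤ 0 := mul_nonpos_of_nonneg_of_nonpos (by positivity) hcon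
    linarith
  have h9 : ℓ.im = 1 := by nlinarith
  rw [h9, mul_one] at h7
  have h10 : σ = 1 := by nlinarith
  have h11 : (p : ℝ) = e := by
    rw [hσdef, div_eq_one_iff_eq he'.ne'] at h10
    exact h10
  refine ⟨by exact_mod_cast h11, ?_⟩
  have h12 : ℓ = I := Complex.ext (by rw [h5, I_re]) (by rw [h9, I_im])
  rw [hℓ, h10] at h12
  have h13 : exp (I * ((1 : ℝ) : ℂ) * (Real.pi / 2)) = I := by
    have : (I * ((1 : ℝ) : ℂ) * (Real.pi / 2)) = Real.pi / 2 * I := by push_cast; ring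
    rw [this, exp_pi_div_two_mul_I]
  rw [h13] at h12
  have h14 : g 0 / ‖g 0‖ = 1 := by
    have := mul_left_cancel₀ I_ne_zero (h12.trans (mul_one I).symm)
    exact this
  have h15 : (‖g 0‖ : ℂ) ≠ 0 := by exact_mod_cast norm_ne_zero_iff.2 hg0
  rw [div_eq_one_iff_eq h15] at h14
  exact h14

end Pool.Agent.H489.CU
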