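import Pool.Agent.H489.CU.U1

/-!
The upper family of solutions: the difference of the two functions is bounded.
-/

open Complex Filter Topology

namespace Pool.Agent.H489.CU

open Pool.Agent.W688.GF Pool.Agent.H401R2

variable {𝓕 : Filter ℂ} {e : ℕ}

lemma Up.cos_lim (h : Up 𝓕) : Tendsto (fun s : ℂ => (exp (I * s.im)).re * s.re) 𝓕
    (𝓝 (Real.pi / 2)) := by
  have h1 := (continuous_re.tendsto _).comp (h.vec 1 1)
  have e1 : (-(I * ((1 : ℝ) : ℂ) * (Real.pi / 2)) * (exp (I * ((1 : ℝ) : ℂ) * (Real.pi / 2)) * 1)).re =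
      Real.pi / 2 := by
    have : exp (I * ((1 : ℝ) : ℂ) * (Real.pi / 2)) = I := by
      have : (I * ((1 : ℝ) : ℂ) * (Real.pi / 2)) = Real.pi / 2 * I := by push_cast; ring
      rw [this, exp_pi_div_two_mul_I]
    rw [this]
    have : (-(I * ((1 : ℝ) : ℂ) * (Real.pi / 2)) * (I * 1)) = ((Real.pi / 2 : ℝ) : ℂ) := by
      push_cast
      linear_combination (-(Real.pi : ℂ) / 2) * I_mul_I
    rw [this, ofReal_re]
  rw [e1] at h1
  refine h1.congr fun s => ?_
  simp only [Function.comp]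
  have e2 : exp (I * ((1 : ℝ) : ℂ) * (Real.pi / 2)) = I := by
    have : (I * ((1 : ℝ) : ℂ) * (Real.pi / 2)) = Real.pi / 2 * I := by push_cast; ring
    rw [this, exp_pi_div_two_mul_I]
  rw [e2, ofReal_one, mul_one, mul_one, re_mul_ofReal, sub_re, I_re, sub_zero]

lemma zz_self (he : 0 < e) (g : ℂ → ℂ) (s : ℂ) : zz e e g s = exp s * g (tt e s) := by
  unfold zz
  have he' : (e : ℂ) ≠ 0 := by exact_mod_cast he.ne'
  rw [mul_div_cancel_left₀ s he']

/-- the main term is small -/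
lemma main_small (h : Str 𝓕) {z : ℂ → ℂ} (hz : Tendsto (fun s => ‖z s‖) 𝓕 atTop)
    (hzl : ∀ᶠ s in 𝓕, Real.log ‖z s‖ ≤ 2 * s.re) (hre : ∀ᶠ s in 𝓕, 0 ≤ (z s).re) {C : ℝ}
    (hG : ∀ᶠ s : ℂ in 𝓕, |Real.log ‖Gamma (z s)‖| ≤ C * s.re) :
    ∃ K : ℝ, 0 ≤ K ∧ ∀ᶠ s in 𝓕, |(z s * log (z s) - z s).re| ≤ K * s.re := by
  refine ⟨|C| + (cS + 10), by have := cS_nonneg; positivity, ?_⟩
  filter_upwards [hz.eventually_ge_atTop 2, hzl, hre, hG, h.re.eventually_ge_atTop 1] with s a1
    a2 a3 a4 a5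
  have b1 := stir_half a3 a1
  have b2 := abs_le.1 b1
  have b3 := abs_le.1 a4
  have b4 : C * s.re ≤ |C| * s.re := mul_le_mul_of_nonneg_right (le_abs_self _) (by linarith)
  have b5 := cS_nonneg
  rw [abs_le]
  constructor <;> nlinarith

lemma exp_decay (h : Str 𝓕) (k : ℕ) : Tendsto (fun s : ℂ => s.re ^ k / ‖exp s‖) 𝓕 (𝓝 0) := by
  have h1 := (Real.tendsto_pow_mul_exp_neg_atTop_nhds_zero k).comp h.re
  refine h1.congr fun s => ?_
  simp only [Function.comp]
  rw [norm_exp, Real.exp_neg]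
  rfl

lemma log_z (h : Up 𝓕) (he : 0 < e) {g : ℂ → ℂ} (hg : AnalyticAt ℂ g 0) {b : ℝ} (hb : 0 < b)
    (hg0 : g 0 = b) : ∀ᶠ s in 𝓕, log (exp s * g (tt e s)) = s + log (g (tt e s)) := by
  have hpi := Real.pi_pos
  have hb' : (b : ℂ) ≠ 0 := by exact_mod_cast hb.ne'
  have h1 : Tendsto (fun s => arg (g (tt e s))) 𝓕 (𝓝 0) := by
    have h2 : ContinuousAt arg (g 0) := by
      apply continuousAt_arg
      rw [hg0]
      exact Or.inl (by simpa using hb)
    have h3 := h2.tendsto.comp (h.toStr.lim he hg)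
    rw [hg0, arg_ofReal_of_nonneg hb.le] at h3
    exact h3
  have h2 := h.im_lim
  filter_upwards [h1.eventually (Ioo_mem_nhds (show -(Real.pi / 4) < 0 by linarith)
    (show (0 : ℝ) < Real.pi / 4 by linarith)), h2.eventually (Ioo_mem_nhds
    (show Real.pi / 4 < Real.pi / 2 by linarith) (show Real.pi / 2 < 3 * Real.pi / 4 by linarith)),
    (h.toStr.lim he hg).eventually_ne (show g 0 ≠ 0 by rw [hg0]; exact hb')] with s a1 a2 a3
  have e1 : log (exp s) = s := log_exp (by linarith [a2.1]) (by linarith [a2.2])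
  have e2 : arg (exp s) = s.im := by
    rw [← log_im, e1]
  rw [Complex.log_mul (exp_ne_zero s) a3 (by
    rw [e2]
    constructor <;> linarith [a1.1, a1.2, a2.1, a2.2]), e1]

lemma y_cond (h : Up 𝓕) : ∀ᶠ s in 𝓕, 0 ≤ (exp s).re ∧ log (exp s) = s := by
  have hpi := Real.pi_pos
  filter_upwards [h.cos_lim.eventually_const_lt (show (0:ℝ) < Real.pi / 2 by linarith),
    h.re.eventually_gt_atTop 0, h.im_lim.eventually (Ioo_mem_nhds
    (show Real.pi / 4 < Real.pi / 2 by linarith)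
    (show Real.pi / 2 < 3 * Real.pi / 4 by linarith))] with s a1 a2 a3
  constructor
  · have e1 : (exp (I * s.im)).re = Real.cos s.im := by
      rw [mul_comm, exp_ofReal_mul_I_re]
    rw [e1] at a1
    rw [exp_re]
    have : 0 < Real.cos s.im := by
      by_contra hcon
      push Not at hcon
      have := mul_nonpos_of_nonpos_of_nonneg hcon a2.le
      linarith
    have := Real.exp_pos s.re
    positivity
  · exact log_exp (by linarith [a3.1]) (by linarith [a3.2])

lemma log_zz_le (h : Str 𝓕) (he : 0 < e) {g : ℂ → ℂ} (hg : AnalyticAt ℂ g 0) (hg0 : g 0 ≠ 0) :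
    ∀ᶠ s in 𝓕, Real.log ‖exp s * g (tt e s)‖ ≤ 2 * s.re := by
  have hlg : Tendsto (fun s => Real.log ‖g (tt e s)‖) 𝓕 (𝓝 (Real.log ‖g 0‖)) :=
    ((Real.continuousAt_log (norm_ne_zero_iff.2 hg0)).tendsto.comp (h.lim he hg).norm)
  filter_upwards [hlg.eventually_lt_const (show Real.log ‖g 0‖ < Real.log ‖g 0‖ + 1 by linarith),
    h.re.eventually_ge_atTop (Real.log ‖g 0‖ + 1), (h.lim he hg).eventually_ne hg0] with s a1 a2 a3
  rw [norm_mul, Real.log_mul (norm_ne_zero_iff.2 (exp_ne_zero s)) (norm_ne_zero_iff.2 a3),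
    norm_exp, Real.log_exp]
  linarith

/-- the quotient of the two functions tends to one -/
lemma factor_one (h : Up 𝓕) (he : 0 < e) {g : ℂ → ℂ} (hg : AnalyticAt ℂ g 0) {b : ℝ} (hb : 0 < b)
    (hg0 : g 0 = b) (hre : ∀ᶠ s in 𝓕, 0 ≤ (zz e e g s).re) {C : ℝ}
    (hy : ∀ᶠ s : ℂ in 𝓕, |Real.log ‖Gamma (exp s)‖| ≤ C * s.re)
    (hG : ∀ᶠ s : ℂ in 𝓕, |Real.log ‖Gamma (zz e e g s)‖| ≤ C * s.re) : b = 1 := by
  have := h.ne
  have hpi := Real.pi_pos
  have hb' : (b : ℂ) ≠ 0 := by exact_mod_cast hb.ne'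
  have hg00 : g 0 ≠ 0 := by rw [hg0]; exact hb'
  obtain ⟨K₁, hK₁, b1⟩ := main_small h.toStr (z := exp) (exp_norm_tend h.toStr)
    (by
      filter_upwards [h.re.eventually_ge_atTop 0] with s hs
      rw [norm_exp, Real.log_exp]
      linarith) ((y_cond h).mono fun s hs => hs.1) hy
  obtain ⟨K₂, hK₂, b2⟩ := main_small h.toStr (z := zz e e g)
    (zz_norm_tend h.toStr he he hg hg00)
    (by
      filter_upwards [log_zz_le h.toStr he hg hg00] with s hs
      rw [zz_self he]
      exact hs) hre hG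
  have hlan : AnalyticAt ℂ (fun t => g t * log (g t)) 0 := by
    refine hg.mul (hg.clog ?_)
    rw [hg0]
    exact Or.inl (by simpa using hb)
  -- the quantity
  have h1 : Tendsto (fun s : ℂ => (exp (I * s.im) * ((g (tt e s) - g 0) * (s - 1) +
      g (tt e s) * log (g (tt e s)))).re * s.re) 𝓕 (𝓝 0) := by
    have h2 := (exp_decay h.toStr 2).const_mul (K₂ + b * K₁)
    rw [mul_zero] at h2
    refine squeeze_zero_norm' ?_ h2
    filter_upwards [b1, b2, y_cond h, log_z h he hg hb hg0, h.re.eventually_ge_atTop 0] with s a1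
      a2 a3 a4 a5
    have hE : (exp s * log (exp s) - exp s) = exp s * (s - 1) := by rw [a3.2]; ring
    have hZ : zz e e g s * log (zz e e g s) - zz e e g s =
        exp s * (g (tt e s) * (s + log (g (tt e s)) - 1)) := by
      rw [zz_self he, a4]
      ring
    have hexp : exp s = ((‖exp s‖ : ℝ) : ℂ) * exp (I * s.im) := by
      rw [norm_exp, ofReal_exp, ← exp_add]
      congr 1
      rw [mul_comm]
      exact (re_add_im s).symm
    have hn : 0 < ‖exp s‖ := norm_pos_iff.2 (exp_ne_zero s)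
    have hX : (exp (I * s.im) * ((g (tt e s) - g 0) * (s - 1) +
        g (tt e s) * log (g (tt e s)))).re = ((zz e e g s * log (zz e e g s) - zz e e g s).re -
        b * (exp s * log (exp s) - exp s).re) / ‖exp s‖ := by
      rw [eq_div_iff hn.ne', hE, hZ, ← re_ofReal_mul, ← sub_re, ← re_mul_ofReal]
      congr 1
      conv_rhs => rw [hexp]
      rw [hg0]
      ring
    rw [hX, Real.norm_eq_abs, abs_mul, abs_div, abs_of_pos hn, abs_of_nonneg a5]
    have a6 : |(zz e e g s * log (zz e e g s) - zz e e g s).re -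
        b * (exp s * log (exp s) - exp s).re| ≤ (K₂ + b * K₁) * s.re := by
      refine (abs_sub _ _).trans ?_
      rw [abs_mul, abs_of_pos hb]
      have := mul_le_mul_of_nonneg_left a1 hb.le
      linarith
    calc _ ≤ (K₂ + b * K₁) * s.re / ‖exp s‖ * s.re := by
          apply mul_le_mul_of_nonneg_right _ a5
          exact div_le_div_of_nonneg_right a6 hn.le
      _ = (K₂ + b * K₁) * (s.re ^ 2 / ‖exp s‖) := by ring
  -- the error terms
  have h2 : Tendsto (fun s : ℂ => (exp (I * s.im) * ((g (tt e s) - g 0) * (s - 1) +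
      (g (tt e s) * log (g (tt e s)) - g 0 * log (g 0)))).re * s.re) 𝓕 (𝓝 0) := by
    have h3 := ((h.toStr.small he hg 2).const_mul 3).add (h.toStr.small he hlan 1)
    rw [mul_zero, zero_add] at h3
    refine squeeze_zero_norm' ?_ h3
    filter_upwards [h.toStr.norm_le, h.re.eventually_ge_atTop 1] with s a1 a2
    have hn : ‖exp (I * s.im)‖ = 1 := by
      rw [norm_exp]
      have : (I * (s.im : ℂ)).re = 0 := by simp
      rw [this, Real.exp_zero]
    rw [norm_mul, Real.norm_eq_abs, Real.norm_eq_abs, abs_of_pos a1.2]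
    have a3 := abs_re_le_norm (exp (I * s.im) * ((g (tt e s) - g 0) * (s - 1) +
      (g (tt e s) * log (g (tt e s)) - g 0 * log (g 0))))
    rw [norm_mul, hn, one_mul] at a3
    have a4 : ‖(g (tt e s) - g 0) * (s - 1) + (g (tt e s) * log (g (tt e s)) - g 0 * log (g 0))‖ ≤
        ‖g (tt e s) - g 0‖ * (3 * s.re) + ‖g (tt e s) * log (g (tt e s)) - g 0 * log (g 0)‖ := by
      refine (norm_add_le _ _).trans ?_
      rw [norm_mul]
      have : ‖s - 1‖ ≤ 3 * s.re := by
        have := norm_sub_le s 1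
        rw [norm_one] at this
        linarith [a1.1]
      have := mul_le_mul_of_nonneg_left this (norm_nonneg (g (tt e s) - g 0))
      linarith
    calc _ ≤ (‖g (tt e s) - g 0‖ * (3 * s.re) +
          ‖g (tt e s) * log (g (tt e s)) - g 0 * log (g 0)‖) * s.re :=
          mul_le_mul_of_nonneg_right (a3.trans a4) a1.2.le
      _ = _ := by ring
  have h3 : Tendsto (fun s : ℂ => (exp (I * s.im) * (g 0 * log (g 0))).re * s.re) 𝓕 (𝓝 0) := by
    have h4 := h1.sub h2
    rw [sub_zero] at h4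
    refine h4.congr fun s => ?_
    rw [← sub_mul, ← sub_re]
    congr 2
    ring
  have h4 : Tendsto (fun s : ℂ => (exp (I * s.im) * (g 0 * log (g 0))).re * s.re) 𝓕
      (𝓝 (b * Real.log b * (Real.pi / 2))) := by
    refine (h.cos_lim.const_mul (b * Real.log b)).congr fun s => ?_
    have : g 0 * log (g 0) = ((b * Real.log b : ℝ) : ℂ) := by
      rw [hg0, ← ofReal_log hb.le]
      push_cast
      ring
    rw [this, re_mul_ofReal]
    ring
  have h5 := tendsto_nhds_unique h3 h4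
  have h6 : Real.log b = 0 := by
    have h7 : b * (Real.pi / 2) ≠ 0 := by positivity
    have : b * (Real.pi / 2) * Real.log b = 0 := by linarith
    exact (mul_eq_zero.1 this).resolve_left h7
  exact Real.eq_one_of_pos_of_log_eq_zero hb h6

/-- `(1 + x) log (1 + x) - x` has a double zero -/
lemma phi_ord : ∃ φ : ℂ → ℂ, AnalyticAt ℂ φ 0 ∧
    ∀ x : ℂ, (1 + x) * log (1 + x) - x = x ^ 2 * φ x := by
  set f : ℂ → ℂ := fun x => (1 + x) * log (1 + x) - x with hf
  have hfa : AnalyticAt ℂ f 0 :=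
    ((analyticAt_const.add analyticAt_id).mul log_an).sub analyticAt_id
  obtain ⟨h1, h2⟩ := div_var hfa (by simp [hf])
  have h3 : dslope f 0 0 = 0 := by
    rw [dslope_same]
    have d1 : HasDerivAt (fun x : ℂ => 1 + x) 1 0 := (hasDerivAt_id 0).const_add 1
    have d2 : HasDerivAt (fun x : ℂ => log (1 + x)) (1 / (1 + 0)) 0 := d1.clog (by simp)
    have d3 := (d1.mul d2).sub (hasDerivAt_id (0:ℂ))
    have d4 : deriv f 0 = _ := d3.deriv
    rw [d4]
    simp
  obtain ⟨h4, h5⟩ := div_var h1 h3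
  refine ⟨_, h4, fun x => ?_⟩
  have e1 := h2 x
  simp only [hf] at e1
  rw [e1]
  have e2 := h5 x
  simp only [hf] at e2
  rw [e2]
  ring

/-- the difference of the two functions is bounded -/
lemma diff_bounded (h : Up 𝓕) (he : 0 < e) {g : ℂ → ℂ} (hg : AnalyticAt ℂ g 0)
    (hg0 : g 0 = 1) (hre : ∀ᶠ s in 𝓕, 0 ≤ (zz e e g s).re) {C : ℝ}
    (hy : ∀ᶠ s : ℂ in 𝓕, |Real.log ‖Gamma (exp s)‖| ≤ C * s.re)
    (hG : ∀ᶠ s : ℂ in 𝓕, |Real.log ‖Gamma (zz e e g s)‖| ≤ C * s.re) :
    ∃ W : ℂ → ℂ, AnalyticAt ℂ W 0 ∧ ∀ᶠ t in 𝓝 (0 : ℂ), g t = 1 + t ^ e * W t := by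
  have := h.ne
  have hpi := Real.pi_pos
  have he' : (0 : ℝ) < e := by exact_mod_cast he
  have hg00 : g 0 ≠ 0 := by rw [hg0]; exact one_ne_zero
  have hga : AnalyticAt ℂ (fun t => g t - 1) 0 := hg.sub analyticAt_const
  rcases ord_cases hga with h0 | ⟨m, η, hη, hη0, hgm⟩
  · refine ⟨fun _ => 0, analyticAt_const, ?_⟩
    filter_upwards [h0] with t ht
    rw [mul_zero, add_zero]
    exact sub_eq_zero.1 ht
  rcases le_or_gt e m with hem | hme
  · refine ⟨fun t => t ^ (m - e) * η t, (analyticAt_id.pow _).mul hη, ?_⟩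
    filter_upwards [hgm] with t ht
    rw [← mul_assoc, ← pow_add, show e + (m - e) = m by omega, ← ht]
    ring
  exfalso
  have hm0 : 0 < m := by
    rcases Nat.eq_zero_or_pos m with hm | hm
    · exfalso
      apply hη0
      have := hgm.self_of_nhds
      rw [hm, pow_zero, one_mul, hg0, sub_self] at this
      exact this.symm
    · exact hm
  obtain ⟨K₁, hK₁, b1⟩ := main_small h.toStr (z := exp) (exp_norm_tend h.toStr)
    (by
      filter_upwards [h.re.eventually_ge_atTop 0] with s hs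
      rw [norm_exp, Real.log_exp]
      linarith) ((y_cond h).mono fun s hs => hs.1) hy
  obtain ⟨K₂, hK₂, b2⟩ := main_small h.toStr (z := zz e e g)
    (zz_norm_tend h.toStr he he hg hg00)
    (by
      filter_upwards [log_zz_le h.toStr he hg hg00] with s hs
      rw [zz_self he]
      exact hs) hre hG
  obtain ⟨φ, hφ, hφe⟩ := phi_ord
  set γ : ℝ := 1 - m / e with hγ
  have hga' : AnalyticAt ℂ (fun t => t ^ m * η t ^ 2 * φ (g t - 1)) 0 := by
    refine ((analyticAt_id.pow m).mul (hη.pow 2)).mul ?_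
    have : AnalyticAt ℂ φ ((fun t => g t - 1) 0) := by
      simp only [hg0, sub_self]
      exact hφ
    exact AnalyticAt.fun_comp (f := fun t => g t - 1) this hga
  -- the quantity
  have h1 : Tendsto (fun s : ℂ => (exp (I * (γ : ℂ) * s.im) * (η (tt e s) * s +
      (tt e s) ^ m * η (tt e s) ^ 2 * φ (g (tt e s) - 1))).re) 𝓕 (𝓝 0) := by
    have h2 := (h.toStr.pow he 1).const_mul (K₂ + K₁)
    rw [mul_zero] at h2
    refine squeeze_zero_norm' ?_ h2
    filter_upwards [b1, b2, y_cond h, log_z h he hg one_pos (by rw [hg0]; simp),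
      h.re.eventually_ge_atTop 0, (h.toStr.zero' he).eventually hgm] with s a1 a2 a3 a4 a5 a6
    set t := tt e s with ht
    have hD : (zz e e g s * log (zz e e g s) - zz e e g s) - (exp s * log (exp s) - exp s) =
        exp s * (t ^ m) * (η t * s + t ^ m * η t ^ 2 * φ (g t - 1)) := by
      rw [zz_self he, a4, a3.2]
      have e1 := hφe (g t - 1)
      have e2 : (1 : ℂ) + (g t - 1) = g t := by ring
      rw [e2] at e1
      have e3 : exp s * g t * (s + log (g t)) - exp s * g t - (exp s * s - exp s) =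
          exp s * ((g t - 1) * s + (g t * log (g t) - (g t - 1))) := by ring
      rw [e3, e1, a6]
      ring
    have hexp : exp s * t ^ m = ((‖exp s * t ^ m‖ : ℝ) : ℂ) * exp (I * (γ : ℂ) * s.im) := by
      rw [norm_mul, norm_pow, norm_exp, norm_tt, ← Real.exp_nat_mul, ← Real.exp_add, ofReal_exp,
        ← exp_add, ht, tt, ← exp_nat_mul, ← exp_add]
      congr 1
      have : s = s.re + s.im * I := (re_add_im s).symm
      rw [hγ]
      push_cast
      conv_lhs => rw [this]
      ring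
    have hn : 0 < ‖exp s * t ^ m‖ :=
      norm_pos_iff.2 (mul_ne_zero (exp_ne_zero s) (pow_ne_zero _ (tt_ne e s)))
    have hX : (exp (I * (γ : ℂ) * s.im) * (η t * s + t ^ m * η t ^ 2 * φ (g t - 1))).re =
        ((zz e e g s * log (zz e e g s) - zz e e g s).re -
        (exp s * log (exp s) - exp s).re) / ‖exp s * t ^ m‖ := by
      rw [eq_div_iff hn.ne', ← sub_re, hD, ← re_mul_ofReal, hexp]
      congr 1
      rw [norm_mul (((‖exp s * t ^ m‖ : ℝ) : ℂ)), norm_real, norm_norm]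
      have : ‖exp (I * (γ : ℂ) * s.im)‖ = 1 := by
        rw [norm_exp]
        have : (I * (γ : ℂ) * s.im) = ((γ * s.im : ℝ) : ℂ) * I := by push_cast; ring
        rw [this, re_ofReal_mul, I_re, mul_zero, Real.exp_zero]
      rw [this, mul_one]
      ring
    rw [hX, Real.norm_eq_abs, abs_div, abs_of_pos hn, div_le_iff₀ hn]
    have a7 : |(zz e e g s * log (zz e e g s) - zz e e g s).re -
        (exp s * log (exp s) - exp s).re| ≤ (K₂ + K₁) * s.re := by
      refine (abs_sub _ _).trans ?_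
      linarith
    refine a7.trans ?_
    have a8 : 1 ≤ ‖t‖ * ‖exp s * t ^ m‖ := by
      rw [norm_mul, norm_pow, norm_exp, ht, norm_tt, ← Real.exp_nat_mul, ← Real.exp_add,
        ← Real.exp_add]
      apply Real.one_le_exp
      have c1 : ((m : ℝ) + 1) * (s.re / e) ≤ s.re := by
        have : (m : ℝ) + 1 ≤ e := by exact_mod_cast hme
        calc ((m : ℝ) + 1) * (s.re / e) ≤ e * (s.re / e) :=
              mul_le_mul_of_nonneg_right this (by positivity)
          _ = s.re := by field_simp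
      linarith
    calc (K₂ + K₁) * s.re = (K₂ + K₁) * s.re * 1 := by ring
      _ ≤ (K₂ + K₁) * s.re * (‖t‖ * ‖exp s * t ^ m‖) :=
          mul_le_mul_of_nonneg_left a8 (by positivity)
      _ = _ := by ring
  have h2 : Tendsto (fun s : ℂ => (exp (I * (γ : ℂ) * s.im) * ((η (tt e s) - η 0) * s +
      (tt e s) ^ m * η (tt e s) ^ 2 * φ (g (tt e s) - 1))).re) 𝓕 (𝓝 0) := by
    have h3 : Tendsto (fun s : ℂ => (η (tt e s) - η 0) * s) 𝓕 (𝓝 0) :=
      h.toStr.mul_s he (hη.sub analyticAt_const) (sub_self _)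
    have h4 : Tendsto (fun s : ℂ => (tt e s) ^ m * η (tt e s) ^ 2 * φ (g (tt e s) - 1)) 𝓕
        (𝓝 0) := by
      have := h.toStr.lim he hga'
      simp only [zero_pow hm0.ne', zero_mul] at this
      exact this
    have h5 := (h3.add h4).norm
    rw [add_zero, norm_zero] at h5
    refine squeeze_zero_norm (fun s => ?_) h5
    have hn : ‖exp (I * (γ : ℂ) * s.im)‖ = 1 := by
      rw [norm_exp]
      have : (I * (γ : ℂ) * s.im) = ((γ * s.im : ℝ) : ℂ) * I := by push_cast; ring
      rw [this, re_ofReal_mul, I_re, mul_zero, Real.exp_zero]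
    have := abs_re_le_norm (exp (I * (γ : ℂ) * s.im) * ((η (tt e s) - η 0) * s +
      (tt e s) ^ m * η (tt e s) ^ 2 * φ (g (tt e s) - 1)))
    rw [norm_mul, hn, one_mul] at this
    rw [Real.norm_eq_abs]
    exact this
  have h3 : Tendsto (fun s : ℂ => (exp (I * (γ : ℂ) * s.im) * η 0 * s).re) 𝓕 (𝓝 0) := by
    have h4 := h1.sub h2
    rw [sub_zero] at h4
    refine h4.congr fun s => ?_
    rw [← sub_re]
    congr 1
    ring
  set ℓ := exp (I * (γ : ℂ) * (Real.pi / 2)) * η 0 with hℓ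
  have h4 : Tendsto (fun s : ℂ => (exp (I * (γ : ℂ) * s.im) * η 0).im * s.im) 𝓕
      (𝓝 (ℓ.im * (Real.pi / 2))) := by
    refine Tendsto.mul ?_ h.im_lim
    have hc : Continuous fun x : ℝ => (exp (I * (γ : ℂ) * x) * η 0).im := by fun_prop
    have := (hc.tendsto _).comp h.im_lim
    have e1 : (exp (I * (γ : ℂ) * ((Real.pi / 2 : ℝ) : ℂ)) * η 0).im = ℓ.im := by
      rw [hℓ]
      push_cast
      rfl
    rw [e1] at this
    exact this
  have h5 : Tendsto (fun s : ℂ => (exp (I * (γ : ℂ) * s.im) * η 0).re * s.re) 𝓕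
      (𝓝 (ℓ.im * (Real.pi / 2))) := by
    have h6 := h3.add h4
    rw [zero_add] at h6
    refine h6.congr fun s => ?_
    rw [mul_re (exp (I * (γ : ℂ) * s.im) * η 0) s]
    ring
  obtain ⟨h6, h7⟩ := h.vec_re γ (η 0) h5
  rw [← hℓ] at h6 h7
  have h8 : ℓ.im = 0 := by
    have h9 : (1 - γ) * (Real.pi / 2) * ℓ.im = 0 := by linarith
    have h10 : (1 - γ) * (Real.pi / 2) ≠ 0 := by
      rw [hγ]
      have : (0 : ℝ) < m / e := by positivity
      have : 0 < (1 - (1 - (m : ℝ) / e)) * (Real.pi / 2) := by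
        have e1 : (1 - (1 - (m : ℝ) / e)) = m / e := by ring
        rw [e1]
        positivity
      exact this.ne'
    exact (mul_eq_zero.1 h9).resolve_left h10
  have h9 : ℓ = 0 := Complex.ext h6 h8
  rw [hℓ] at h9
  exact hη0 ((mul_eq_zero.1 h9).resolve_left (exp_ne_zero _))

end Pool.Agent.H489.CU
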