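import Pool.Agent.H489.CU.U2

/-!
The upper family of solutions: the difference of the two functions is constant.
-/

open Complex Filter Topology

namespace Pool.Agent.H489.CU

open Pool.Agent.W688.GF Pool.Agent.H401R2

variable {𝓕 : Filter ℂ} {e : ℕ}

lemma Gamma_mu {x : ℂ} (hx : 1 ≤ x.re) : Gamma x = ((√(2 * Real.pi) : ℝ) : ℂ) *
    exp (mu x + ((x - 1/2) * log x - x)) := by
  have h1 := sA_mu hx
  unfold sA at h1
  have h2 : Gamma x = Gamma x * exp (-((x - 1/2) * log x - x)) * exp ((x - 1/2) * log x - x) := by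
    rw [mul_assoc, ← exp_add, neg_add_cancel, exp_zero, mul_one]
  rw [h2, h1, exp_add, mul_assoc]

lemma exp_tt (he : 0 < e) (s : ℂ) : exp s * (tt e s) ^ e = 1 := by
  have he' : (e : ℂ) ≠ 0 := by exact_mod_cast he.ne'
  unfold tt
  rw [← exp_nat_mul, ← exp_add]
  have : s + (e : ℂ) * -(s / e) = 0 := by field_simp; ring
  rw [this, exp_zero]

lemma tt_pow (he : 0 < e) (s : ℂ) : (tt e s) ^ e = (exp s)⁻¹ :=
  eq_inv_of_mul_eq_one_right (exp_tt he s)

/-- the correction term -/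
noncomputable def kap (e : ℕ) (W : ℂ → ℂ) (t : ℂ) : ℂ :=
  (1 + t ^ e * (W t - 1/2)) * W t * dslope (fun ξ => log (1 + ξ)) 0 (t ^ e * W t) - W t

lemma kap_an (he : 0 < e) {W : ℂ → ℂ} (hW : AnalyticAt ℂ W 0) : AnalyticAt ℂ (kap e W) 0 := by
  unfold kap
  have h1 : AnalyticAt ℂ (fun t => t ^ e * W t) 0 := (analyticAt_id.pow e).mul hW
  have h2 : AnalyticAt ℂ (dslope (fun ξ : ℂ => log (1 + ξ)) 0) ((fun t => t ^ e * W t) 0) := by
    simp only [zero_pow he.ne', zero_mul]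
    exact (div_var log_an (by simp)).1
  have h3 := AnalyticAt.fun_comp (f := fun t => t ^ e * W t) h2 h1
  exact (((analyticAt_const.add ((analyticAt_id.pow e).mul (hW.sub analyticAt_const))).mul
    hW).mul h3).sub hW

lemma kap_zero (he : 0 < e) (W : ℂ → ℂ) : kap e W 0 = 0 := by
  unfold kap
  rw [zero_pow he.ne', zero_mul, zero_mul, add_zero, one_mul, dslope_same]
  have d1 : HasDerivAt (fun x : ℂ => 1 + x) 1 0 := (hasDerivAt_id 0).const_add 1
  have d2 : HasDerivAt (fun x : ℂ => log (1 + x)) (1 / (1 + 0)) 0 := d1.clog (by simp)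
  rw [d2.deriv]
  simp

/-- the quotient of the values of the Gamma function -/
lemma gamma_ratio (he : 0 < e) {W : ℂ → ℂ} {s : ℂ} (h1 : log (exp s) = s)
    (h2 : log (exp s * (1 + (tt e s) ^ e * W (tt e s))) =
      s + log (1 + (tt e s) ^ e * W (tt e s))) (h3 : 1 ≤ (exp s).re)
    (h4 : 1 ≤ (exp s * (1 + (tt e s) ^ e * W (tt e s))).re) :
    Gamma (exp s * (1 + (tt e s) ^ e * W (tt e s))) = Gamma (exp s) *
      exp (mu (exp s * (1 + (tt e s) ^ e * W (tt e s))) - mu (exp s) + W (tt e s) * s +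
        kap e W (tt e s)) := by
  set t := tt e s with ht
  set z := exp s * (1 + t ^ e * W t) with hz
  have h5 := exp_tt he s
  rw [← ht] at h5
  have h6 : z = exp s + W t := by
    rw [hz, mul_add, mul_one, ← mul_assoc, h5, one_mul]
  rw [Gamma_mu h4, Gamma_mu h3, mul_assoc, ← exp_add]
  congr 2
  rw [h2, h1, log_eq (t ^ e * W t)]
  unfold kap
  rw [h6]
  linear_combination (W t * dslope (fun ξ => log (1 + ξ)) 0 (t ^ e * W t)) * h5

lemma mu_le : ∃ C X : ℝ, 0 ≤ C ∧ 1 ≤ X ∧ ∀ x : ℂ, 1 ≤ x.re → X ≤ ‖x‖ → ‖mu x‖ ≤ C / ‖x‖ := by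
  obtain ⟨q, C, X, hq0, hC, hX, h⟩ := mu_exp 1
  have hqa : AnalyticAt ℂ (fun ξ => q.eval ξ) 0 := by
    have := AnalyticOnNhd.eval_polynomial (𝕜 := ℂ) (A := ℂ) q
    exact this 0 (Set.mem_univ _)
  obtain ⟨C', hC', hb⟩ := an_bound hqa
  obtain ⟨ε, hε, hball⟩ := Metric.eventually_nhds_iff_ball.1 hb
  refine ⟨C + C', max X (2 / ε), by positivity, hX.trans (le_max_left _ _), ?_⟩
  intro x hx hxX
  have h1 := h x hx ((le_max_left _ _).trans hxX)
  have hxn : 0 < ‖x‖ := by linarith [(le_max_left X (2 / ε)).trans hxX]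
  have hmem : x⁻¹ ∈ Metric.ball (0 : ℂ) ε := by
    rw [mem_ball_zero_iff, norm_inv]
    have h1 : 2 / ε ≤ ‖x‖ := (le_max_right _ _).trans hxX
    have h2 : 0 < 2 / ε := by positivity
    calc ‖x‖⁻¹ ≤ (2 / ε)⁻¹ := inv_anti₀ h2 h1
      _ = ε / 2 := by rw [inv_div]
      _ < ε := by linarith
  have h2 := hball _ hmem
  simp only [hq0, sub_zero] at h2
  have h3 : ‖mu x‖ ≤ ‖mu x - q.eval x⁻¹‖ + ‖q.eval x⁻¹‖ := by
    have := norm_add_le (mu x - q.eval x⁻¹) (q.eval x⁻¹)
    rwa [sub_add_cancel] at this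
  rw [pow_one] at h1
  rw [norm_inv] at h1 h2
  calc ‖mu x‖ ≤ C * ‖x‖⁻¹ + C' * ‖x‖⁻¹ := by linarith
    _ = (C + C') / ‖x‖ := by ring

lemma re_tend (h : Up 𝓕) : Tendsto (fun s : ℂ => (exp s).re) 𝓕 atTop := by
  have hpi := Real.pi_pos
  have h1 : Tendsto (fun s : ℂ => Real.exp s.re / s.re ^ 1) 𝓕 atTop :=
    (Real.tendsto_exp_div_pow_atTop 1).comp h.re
  have h2 := h1.atTop_mul_pos (show 0 < Real.pi / 2 by positivity) h.cos_lim
  refine h2.congr' ?_
  filter_upwards [h.re.eventually_gt_atTop 0] with s hs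
  rw [mul_comm I, exp_ofReal_mul_I_re, exp_re]
  field_simp

/-- the situation of a bounded difference -/
structure Sit (𝓕 : Filter ℂ) (e : ℕ) (g W : ℂ → ℂ) : Prop extends Str 𝓕 where
  he : 0 < e
  gan : AnalyticAt ℂ g 0
  Wan : AnalyticAt ℂ W 0
  gW : ∀ᶠ t in 𝓝 (0 : ℂ), g t = 1 + t ^ e * W t
  ret : Tendsto (fun s : ℂ => (exp s).re) 𝓕 atTop
  log1 : ∀ᶠ s in 𝓕, log (exp s) = s
  log2 : ∀ᶠ s in 𝓕, log (exp s * g (tt e s)) = s + log (g (tt e s))

lemma Sit.g0 {g W : ℂ → ℂ} (h : Sit 𝓕 e g W) : g 0 = 1 := by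
  have := h.gW.self_of_nhds
  rw [this, zero_pow h.he.ne', zero_mul, add_zero]

lemma Sit.zret {g W : ℂ → ℂ} (h : Sit 𝓕 e g W) :
    Tendsto (fun s : ℂ => (exp s * g (tt e s)).re) 𝓕 atTop := by
  have h1 : Tendsto (fun s : ℂ => (W (tt e s)).re) 𝓕 (𝓝 (W 0).re) :=
    (continuous_re.tendsto _).comp (h.toStr.lim h.he h.Wan)
  have h2 := h.ret.atTop_add h1
  refine h2.congr' ?_
  filter_upwards [(h.toStr.zero' h.he).eventually h.gW] with s hs
  rw [hs, mul_add, mul_one, ← mul_assoc, exp_tt h.he, one_mul, add_re]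

lemma Sit.ratio {g W : ℂ → ℂ} (h : Sit 𝓕 e g W) : ∀ᶠ s in 𝓕,
    Gamma (exp s * g (tt e s)) = Gamma (exp s) *
      exp (mu (exp s * g (tt e s)) - mu (exp s) + W (tt e s) * s + kap e W (tt e s)) := by
  filter_upwards [(h.toStr.zero' h.he).eventually h.gW, h.log1, h.log2,
    h.ret.eventually_ge_atTop 1, h.zret.eventually_ge_atTop 1] with s a1 a2 a3 a4 a5
  rw [a1] at a3 a5 ⊢
  exact gamma_ratio h.he a2 a3 a4 a5

lemma Sit.half {g W : ℂ → ℂ} (h : Sit 𝓕 e g W) : ∀ᶠ s in 𝓕,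
    ‖exp s‖ / 2 ≤ ‖exp s * g (tt e s)‖ := by
  have h1 := (h.toStr.lim h.he h.gan).norm
  rw [h.g0, norm_one] at h1
  filter_upwards [h1.eventually_const_lt (show (1/2 : ℝ) < 1 by norm_num)] with s hs
  rw [norm_mul]
  have := norm_nonneg (exp s)
  nlinarith

/-- the values of `mu` are negligible -/
lemma Sit.mu_small {g W : ℂ → ℂ} (h : Sit 𝓕 e g W) (k : ℕ) :
    Tendsto (fun s : ℂ => ‖mu (exp s * g (tt e s)) - mu (exp s)‖ * s.re ^ k) 𝓕 (𝓝 0) := by
  obtain ⟨C, X, hC, hX, hmu⟩ := mu_le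
  have h1 := (exp_decay h.toStr k).const_mul (3 * C)
  rw [mul_zero] at h1
  refine squeeze_zero' ?_ ?_ h1
  · filter_upwards [h.re.eventually_ge_atTop 0] with s hs
    positivity
  · filter_upwards [h.re.eventually_ge_atTop 0, h.ret.eventually_ge_atTop 1,
      h.zret.eventually_ge_atTop 1, h.half,
      (exp_norm_tend h.toStr).eventually_ge_atTop (2 * X)] with s a1 a2 a3 a4 a5
    have b1 := hmu _ a2 (by linarith)
    have b2 := hmu _ a3 (by linarith)
    have hn : 0 < ‖exp s‖ := by linarith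
    have b3 : C / ‖exp s * g (tt e s)‖ ≤ 2 * C / ‖exp s‖ := by
      have : C / ‖exp s * g (tt e s)‖ ≤ C / (‖exp s‖ / 2) :=
        div_le_div_of_nonneg_left hC (by positivity) a4
      calc _ ≤ _ := this
        _ = _ := by field_simp
    have b4 : ‖mu (exp s * g (tt e s)) - mu (exp s)‖ ≤ 3 * C / ‖exp s‖ := by
      refine (norm_sub_le _ _).trans ?_
      calc _ ≤ 2 * C / ‖exp s‖ + C / ‖exp s‖ := by linarith
        _ = _ := by ring
    calc _ ≤ 3 * C / ‖exp s‖ * s.re ^ k := mul_le_mul_of_nonneg_right b4 (by positivity)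
      _ = _ := by ring

/-- the remainder -/
noncomputable def Er (e : ℕ) (g W : ℂ → ℂ) (s : ℂ) : ℂ :=
  mu (exp s * g (tt e s)) - mu (exp s) + (W (tt e s) - W 0) * s + kap e W (tt e s)

lemma Sit.er_small {g W : ℂ → ℂ} (h : Sit 𝓕 e g W) :
    Tendsto (fun s : ℂ => ‖Er e g W s‖ * s.re) 𝓕 (𝓝 0) := by
  have h1 := h.mu_small 1
  have h2 := (h.toStr.small h.he h.Wan 2).const_mul 2
  have h3 := h.toStr.small h.he (kap_an h.he h.Wan) 1
  have h4 := (h1.add h2).add h3
  rw [mul_zero, add_zero, add_zero] at h4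
  refine squeeze_zero' ?_ ?_ h4
  · filter_upwards [h.re.eventually_ge_atTop 0] with s hs
    positivity
  · filter_upwards [h.toStr.norm_le] with s a1
    have b1 : ‖Er e g W s‖ ≤ ‖mu (exp s * g (tt e s)) - mu (exp s)‖ +
        ‖W (tt e s) - W 0‖ * (2 * s.re) + ‖kap e W (tt e s) - kap e W 0‖ := by
      unfold Er
      rw [kap_zero h.he, sub_zero]
      refine (norm_add_le _ _).trans ?_
      gcongr
      refine (norm_add_le _ _).trans ?_
      gcongr
      rw [norm_mul]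
      exact mul_le_mul_of_nonneg_left a1.1 (norm_nonneg _)
    calc _ ≤ (‖mu (exp s * g (tt e s)) - mu (exp s)‖ +
          ‖W (tt e s) - W 0‖ * (2 * s.re) + ‖kap e W (tt e s) - kap e W 0‖) * s.re :=
          mul_le_mul_of_nonneg_right b1 a1.2.le
      _ = _ := by ring

lemma Sit.er_lim {g W : ℂ → ℂ} (h : Sit 𝓕 e g W) : Tendsto (Er e g W) 𝓕 (𝓝 0) := by
  rw [tendsto_zero_iff_norm_tendsto_zero]
  refine squeeze_zero' (Eventually.of_forall fun _ => norm_nonneg _) ?_ h.er_small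
  filter_upwards [h.re.eventually_ge_atTop 1] with s hs
  have := norm_nonneg (Er e g W s)
  nlinarith

/-- the identity -/
lemma Sit.ident {g W : ℂ → ℂ} (h : Sit 𝓕 e g W) {ρ : ℂ → ℂ} {q : ℤ}
    (hR : ∀ᶠ s in 𝓕, Gamma (exp s * g (tt e s)) = exp (q * s / e) * ρ (tt e s) * Gamma (exp s)) :
    ∀ᶠ s in 𝓕, exp ((q / e - W 0) * s) * ρ (tt e s) = exp (Er e g W s) := by
  filter_upwards [hR, h.ratio, h.ret.eventually_ge_atTop 1] with s a1 a2 a3
  rw [a1] at a2
  have hG : Gamma (exp s) ≠ 0 := Gamma_ne_zero_of_re_pos (by linarith)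
  have a4 : exp (q * s / e) * ρ (tt e s) = exp (mu (exp s * g (tt e s)) - mu (exp s) +
      W (tt e s) * s + kap e W (tt e s)) := by
    apply mul_right_cancel₀ hG
    rw [a2]
    ring
  have e1 : exp ((q / e - W 0) * s) = exp (q * s / e) * exp (-(W 0 * s)) := by
    rw [← exp_add]
    congr 1
    ring
  rw [e1, mul_right_comm, a4, ← exp_add]
  congr 1
  unfold Er
  ring

/-- the constant is rational -/
lemma const_rat (hU : Up 𝓕) {g W : ℂ → ℂ} (h : Sit 𝓕 e g W) {ρ : ℂ → ℂ} {q : ℤ}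
    (hρ : AnalyticAt ℂ ρ 0) (hρ0 : ρ 0 ≠ 0)
    (hR : ∀ᶠ s in 𝓕, Gamma (exp s * g (tt e s)) = exp (q * s / e) * ρ (tt e s) * Gamma (exp s)) :
    W 0 = q / e ∧ ρ 0 = 1 := by
  have := hU.ne
  have hpi := Real.pi_pos
  have he := h.he
  have hid := h.ident hR
  set c := W 0 with hc
  have hρl := h.toStr.lim he hρ
  -- logarithms of the absolute values
  have h1 : ∀ᶠ s in 𝓕, ((q / e : ℝ) - c.re) * s.re = (Er e g W s).re - Real.log ‖ρ (tt e s)‖ -
      c.im * s.im := by
    filter_upwards [hid, hρl.eventually_ne hρ0] with s a1 a2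
    have a3 := congrArg (fun x : ℂ => Real.log ‖x‖) a1
    simp only [norm_mul, norm_exp] at a3
    rw [Real.log_mul (Real.exp_pos _).ne' (norm_ne_zero_iff.2 a2), Real.log_exp,
      Real.log_exp] at a3
    have e1 : ((q / e - c) * s).re = ((q / e : ℝ) - c.re) * s.re + c.im * s.im := by
      have : ((q : ℂ) / (e : ℂ)) = (((q / e : ℝ)) : ℂ) := by push_cast; rfl
      rw [this, mul_re, sub_re, sub_im, ofReal_re, ofReal_im]
      ring
    rw [e1] at a3
    linarith
  have hlog : Tendsto (fun s => Real.log ‖ρ (tt e s)‖) 𝓕 (𝓝 (Real.log ‖ρ 0‖)) :=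
    (Real.continuousAt_log (norm_ne_zero_iff.2 hρ0)).tendsto.comp hρl.norm
  have hEre : Tendsto (fun s => (Er e g W s).re) 𝓕 (𝓝 0) := by
    have := (continuous_re.tendsto _).comp h.er_lim
    rw [zero_re] at this
    exact this
  have h2 : Tendsto (fun s : ℂ => ((q / e : ℝ) - c.re) * s.re) 𝓕
      (𝓝 (0 - Real.log ‖ρ 0‖ - c.im * (Real.pi / 2))) := by
    refine ((hEre.sub hlog).sub (hU.im_lim.const_mul c.im)).congr' ?_
    filter_upwards [h1] with s hs using hs.symm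
  have h3 : (q / e : ℝ) - c.re = 0 := by
    by_contra h0
    have h8 : Tendsto (fun s : ℂ => |((q / e : ℝ) - c.re) * s.re|) 𝓕 atTop := by
      have h9 : Tendsto (fun s : ℂ => |(q / e : ℝ) - c.re| * s.re) 𝓕 atTop :=
        hU.re.const_mul_atTop (abs_pos.2 h0)
      refine h9.congr' ?_
      filter_upwards [h.re.eventually_ge_atTop 0] with s hs
      rw [abs_mul, abs_of_nonneg hs]
    exact not_tendsto_nhds_of_tendsto_atTop h8 _ h2.abs
  rw [h3] at h2
  simp only [zero_mul] at h2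
  have h4 := tendsto_nhds_unique h2 tendsto_const_nhds
  -- the rate
  have h5 : Tendsto (fun s : ℂ => (Real.log ‖ρ (tt e s)‖ - Real.log ‖ρ 0‖) * s.re) 𝓕 (𝓝 0) := by
    have h6 : AnalyticAt ℂ (fun t => log (ρ t / ρ 0)) 0 := by
      apply AnalyticAt.clog
      · exact hρ.div_const
      · rw [div_self hρ0]
        simp
    have h7 := h.toStr.small he h6 1
    refine squeeze_zero_norm' ?_ h7
    filter_upwards [h.re.eventually_ge_atTop 0, hρl.eventually_ne hρ0] with s a1 a2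
    rw [div_self hρ0, log_one, sub_zero, pow_one, norm_mul, Real.norm_eq_abs, Real.norm_eq_abs,
      abs_of_nonneg a1]
    apply mul_le_mul_of_nonneg_right _ a1
    have := abs_re_le_norm (log (ρ (tt e s) / ρ 0))
    rw [log_re, norm_div, Real.log_div (norm_ne_zero_iff.2 a2) (norm_ne_zero_iff.2 hρ0)] at this
    exact this
  have h6 : Tendsto (fun s : ℂ => (Er e g W s).re * s.re) 𝓕 (𝓝 0) := by
    refine squeeze_zero_norm' ?_ h.er_small
    filter_upwards [h.re.eventually_ge_atTop 0] with s a1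
    rw [norm_mul, Real.norm_eq_abs, Real.norm_eq_abs, abs_of_nonneg a1]
    exact mul_le_mul_of_nonneg_right (abs_re_le_norm _) a1
  have h7 : Tendsto (fun s : ℂ => c.im * ((Real.pi / 2 - s.im) * s.re)) 𝓕 (𝓝 0) := by
    have h8 := h6.sub h5
    rw [sub_zero] at h8
    have h9 := h8.neg
    rw [neg_zero] at h9
    refine h9.congr' ?_
    filter_upwards [h1] with s hs
    rw [h3, zero_mul] at hs
    have e1 : (Er e g W s).re = Real.log ‖ρ (tt e s)‖ + c.im * s.im := by linarith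
    have e2 : Real.log ‖ρ 0‖ = -(c.im * (Real.pi / 2)) := by linarith
    rw [e1, e2]
    ring
  have h8 := tendsto_nhds_unique h7 (hU.lim2.const_mul c.im)
  have h9 : c.im = 0 := by
    have : c.im * (Real.pi / 2) = 0 := h8.symm
    exact (mul_eq_zero.1 this).resolve_right (by positivity)
  have h10 : c = q / e := by
    apply Complex.ext
    · have : ((q : ℂ) / (e : ℂ)) = (((q / e : ℝ)) : ℂ) := by push_cast; rfl
      rw [this, ofReal_re]
      linarith
    · have : ((q : ℂ) / (e : ℂ)) = (((q / e : ℝ)) : ℂ) := by push_cast; rfl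
      rw [this, ofReal_im]
      exact h9
  refine ⟨h10, ?_⟩
  have h11 : Tendsto (fun s => ρ (tt e s)) 𝓕 (𝓝 (exp 0)) := by
    refine ((continuous_exp.tendsto _).comp h.er_lim).congr' ?_
    filter_upwards [hid] with s hs
    simp only [Function.comp]
    rw [← hs, h10, sub_self, zero_mul, exp_zero, one_mul]
  rw [exp_zero] at h11
  exact tendsto_nhds_unique hρl h11

lemma exp_inj_small {x : ℂ} (h1 : exp x = 1) (h2 : ‖x‖ < 1) : x = 0 := by
  obtain ⟨n, hn⟩ := exp_eq_one_iff.1 h1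
  have hpi := Real.pi_gt_three
  have h3 : ‖x‖ = |(n : ℝ)| * (2 * Real.pi) := by
    rw [hn, norm_mul, norm_mul, norm_I, mul_one, norm_mul, norm_real, Real.norm_eq_abs,
      abs_of_pos (by linarith : 0 < Real.pi)]
    simp
  have h4 : n = 0 := by
    by_contra h0
    have h5 : (1 : ℝ) ≤ |(n : ℝ)| := by
      have : (1 : ℤ) ≤ |n| := Int.one_le_abs h0
      exact_mod_cast this
    rw [h3] at h2
    nlinarith
  rw [hn, h4]
  simp

/-- two analytic functions, one of them multiplied by `s` -/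
lemma dicho (h : Str 𝓕) (he : 0 < e) {η k : ℂ → ℂ} (hk : AnalyticAt ℂ k 0) {p : ℕ}
    {g : ℂ → ℂ} (hg : AnalyticAt ℂ g 0) (hg0 : g 0 ≠ 0)
    (hη : ∀ᶠ t in 𝓝 (0 : ℂ), η t = t ^ p * g t) {C : ℝ}
    (hb : ∀ᶠ s in 𝓕, ‖η (tt e s) * s - k (tt e s)‖ ≤ C * ‖tt e s‖ ^ (p + 1)) : False := by
  have := h.ne
  have hsn : Tendsto (fun s : ℂ => ‖s‖) 𝓕 atTop := by
    refine tendsto_atTop_mono (fun s => (le_abs_self _).trans (abs_re_le_norm s)) h.re
  have hgs : Tendsto (fun s : ℂ => ‖g (tt e s)‖ * ‖s‖) 𝓕 atTop := by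
    refine (hsn.atTop_mul_pos (norm_pos_iff.2 hg0) (h.lim he hg).norm).congr fun s => ?_
    ring
  have hCt : Tendsto (fun s : ℂ => C * ‖tt e s‖) 𝓕 (𝓝 0) := by
    have := (h.norm0 he).const_mul C
    rwa [mul_zero] at this
  rcases ord_cases hk with h0 | ⟨q, hh, hha, hh0, hke⟩
  · have : ∀ᶠ s in 𝓕, False := by
      filter_upwards [hb, (h.zero' he).eventually h0, (h.zero' he).eventually hη,
        hgs.eventually_gt_atTop 1, hCt.eventually_lt_const one_pos] with s a1 a2 a3 a4 a5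
      rw [a2, sub_zero, a3, norm_mul, norm_mul, norm_pow] at a1
      have hn : 0 < ‖tt e s‖ := norm_pos_iff.2 (tt_ne e s)
      have a6 : ‖tt e s‖ ^ p * (‖g (tt e s)‖ * ‖s‖) ≤ ‖tt e s‖ ^ p * (C * ‖tt e s‖) := by
        calc _ = ‖tt e s‖ ^ p * ‖g (tt e s)‖ * ‖s‖ := by ring
          _ ≤ C * ‖tt e s‖ ^ (p + 1) := a1
          _ = _ := by ring
      have := le_of_mul_le_mul_left a6 (by positivity)
      linarith
    exact this.exists.elim fun _ h => h
  · rcases le_or_gt p q with hpq | hqp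
    · have hlim := (h.lim he hha).norm
      have : ∀ᶠ s in 𝓕, False := by
        filter_upwards [hb, (h.zero' he).eventually hke, (h.zero' he).eventually hη,
          hgs.eventually_gt_atTop (1 + (‖hh 0‖ + 1)), hCt.eventually_lt_const one_pos,
          hlim.eventually_lt_const (show ‖hh 0‖ < ‖hh 0‖ + 1 by linarith),
          (h.norm0 he).eventually_lt_const one_pos] with s a1 a2 a3 a4 a5 a6 a7
        have hn : 0 < ‖tt e s‖ := norm_pos_iff.2 (tt_ne e s)
        rw [a2, a3] at a1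
        have b1 : ‖(tt e s) ^ p * g (tt e s) * s‖ ≤ C * ‖tt e s‖ ^ (p + 1) +
            ‖(tt e s) ^ q * hh (tt e s)‖ := by
          have := norm_add_le ((tt e s) ^ p * g (tt e s) * s - (tt e s) ^ q * hh (tt e s))
            ((tt e s) ^ q * hh (tt e s))
          rw [sub_add_cancel] at this
          linarith
        rw [norm_mul, norm_mul, norm_pow, norm_mul, norm_pow] at b1
        have b2 : ‖tt e s‖ ^ q ≤ ‖tt e s‖ ^ p := pow_le_pow_of_le_one hn.le a7.le hpq
        have b3 : ‖tt e s‖ ^ p * (‖g (tt e s)‖ * ‖s‖) ≤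
            ‖tt e s‖ ^ p * (C * ‖tt e s‖ + ‖hh (tt e s)‖) := by
          have := mul_le_mul_of_nonneg_right b2 (norm_nonneg (hh (tt e s)))
          calc _ = ‖tt e s‖ ^ p * ‖g (tt e s)‖ * ‖s‖ := by ring
            _ ≤ C * ‖tt e s‖ ^ (p + 1) + ‖tt e s‖ ^ q * ‖hh (tt e s)‖ := b1
            _ ≤ C * ‖tt e s‖ ^ (p + 1) + ‖tt e s‖ ^ p * ‖hh (tt e s)‖ := by linarith
            _ = _ := by ring
        have := le_of_mul_le_mul_left b3 (by positivity)
        linarith
      exact this.exists.elim fun _ h => h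
    · have hlim := (h.lim he hha).norm
      have hts : Tendsto (fun s : ℂ => ‖g (tt e s)‖ * (2 * (‖tt e s‖ * s.re ^ 1))) 𝓕 (𝓝 0) := by
        have := ((h.lim he hg).norm).mul ((h.pow he 1).const_mul 2)
        rwa [mul_zero, mul_zero] at this
      have hpos := norm_pos_iff.2 hh0
      have : ∀ᶠ s in 𝓕, False := by
        filter_upwards [hb, (h.zero' he).eventually hke, (h.zero' he).eventually hη,
          hCt.eventually_lt_const (show 0 < ‖hh 0‖ / 4 by positivity),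
          hlim.eventually_const_lt (show ‖hh 0‖ / 2 < ‖hh 0‖ by linarith),
          (h.norm0 he).eventually_lt_const one_pos,
          hts.eventually_lt_const (show 0 < ‖hh 0‖ / 4 by positivity), h.norm_le]
          with s a1 a2 a3 a5 a6 a7 a8 a9
        have hn : 0 < ‖tt e s‖ := norm_pos_iff.2 (tt_ne e s)
        rw [a2, a3] at a1
        have b1 : ‖(tt e s) ^ q * hh (tt e s)‖ ≤ C * ‖tt e s‖ ^ (p + 1) +
            ‖(tt e s) ^ p * g (tt e s) * s‖ := by
          have := norm_sub_le ((tt e s) ^ p * g (tt e s) * s)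
            ((tt e s) ^ p * g (tt e s) * s - (tt e s) ^ q * hh (tt e s))
          rw [sub_sub_cancel] at this
          linarith
        rw [norm_mul, norm_pow, norm_mul, norm_mul, norm_pow] at b1
        have hC0 : 0 ≤ C * ‖tt e s‖ ^ (p + 1) := (norm_nonneg _).trans a1
        have hC1 : 0 ≤ C * ‖tt e s‖ := by
          have h9 : 0 ≤ C := by
            by_contra hneg
            push Not at hneg
            have : C * ‖tt e s‖ ^ (p + 1) < 0 := mul_neg_of_neg_of_pos hneg (by positivity)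
            linarith
          positivity
        have b2 : ‖tt e s‖ ^ p ≤ ‖tt e s‖ ^ q * ‖tt e s‖ := by
          rw [← pow_succ]
          exact pow_le_pow_of_le_one hn.le a7.le hqp
        have b3 : ‖tt e s‖ ^ q * ‖hh (tt e s)‖ ≤
            ‖tt e s‖ ^ q * (C * ‖tt e s‖ + ‖g (tt e s)‖ * (2 * (‖tt e s‖ * s.re ^ 1))) := by
          have c1 : C * ‖tt e s‖ ^ (p + 1) ≤ ‖tt e s‖ ^ q * (C * ‖tt e s‖) := by
            have c2 : ‖tt e s‖ ^ p ≤ ‖tt e s‖ ^ q := pow_le_pow_of_le_one hn.le a7.le hqp.le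
            calc _ = ‖tt e s‖ ^ p * (C * ‖tt e s‖) := by ring
              _ ≤ _ := mul_le_mul_of_nonneg_right c2 hC1
          have c3 : ‖tt e s‖ ^ p * ‖g (tt e s)‖ * ‖s‖ ≤
              ‖tt e s‖ ^ q * (‖g (tt e s)‖ * (2 * (‖tt e s‖ * s.re ^ 1))) := by
            calc _ ≤ ‖tt e s‖ ^ p * ‖g (tt e s)‖ * (2 * s.re) :=
                  mul_le_mul_of_nonneg_left a9.1 (by positivity)
              _ = ‖tt e s‖ ^ p * (‖g (tt e s)‖ * (2 * s.re)) := by ring
              _ ≤ (‖tt e s‖ ^ q * ‖tt e s‖) * (‖g (tt e s)‖ * (2 * s.re)) := by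
                  have := a9.2.le
                  exact mul_le_mul_of_nonneg_right b2 (by positivity)
              _ = _ := by ring
          calc _ ≤ _ := b1
            _ ≤ ‖tt e s‖ ^ q * (C * ‖tt e s‖) +
                ‖tt e s‖ ^ q * (‖g (tt e s)‖ * (2 * (‖tt e s‖ * s.re ^ 1))) := add_le_add c1 c3
            _ = _ := by ring
        have := le_of_mul_le_mul_left b3 (by positivity)
        linarith
      exact this.exists.elim fun _ h => h

end Pool.Agent.H489.CU
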