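import Pool.Agent.H489.CU.U3

/-!
The upper family of solutions: the difference of the two functions is a constant integer.
-/

open Complex Filter Topology

namespace Pool.Agent.H489.CU

open Pool.Agent.W688.GF Pool.Agent.H401R2

variable {𝓕 : Filter ℂ} {e : ℕ}

/-- the expansion of the difference of the values of `mu` -/
noncomputable def mmf (e : ℕ) (g : ℂ → ℂ) (q : Polynomial ℂ) (t : ℂ) : ℂ :=
  q.eval (t ^ e * (g t)⁻¹) - q.eval (t ^ e)

lemma poly_an (q : Polynomial ℂ) (x : ℂ) : AnalyticAt ℂ (fun ξ => q.eval ξ) x :=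
  AnalyticOnNhd.eval_polynomial (𝕜 := ℂ) (A := ℂ) q x (Set.mem_univ _)

lemma mmf_an {g : ℂ → ℂ} (hg : AnalyticAt ℂ g 0) (hg0 : g 0 ≠ 0) (q : Polynomial ℂ) :
    AnalyticAt ℂ (mmf e g q) 0 := by
  unfold mmf
  have h1 : AnalyticAt ℂ (fun t => t ^ e * (g t)⁻¹) 0 := (analyticAt_id.pow e).mul (hg.inv hg0)
  have h2 : AnalyticAt ℂ (fun t : ℂ => t ^ e) 0 := analyticAt_id.pow e
  exact (AnalyticAt.fun_comp (g := fun ξ => q.eval ξ) (f := fun t => t ^ e * (g t)⁻¹)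
    (poly_an q _) h1).sub
    (AnalyticAt.fun_comp (g := fun ξ => q.eval ξ) (f := fun t : ℂ => t ^ e) (poly_an q _) h2)

lemma mu_diff (e : ℕ) (g W : ℂ → ℂ) (M : ℕ) : ∃ (q : Polynomial ℂ) (C : ℝ), 0 ≤ C ∧
    ∀ {𝓖 : Filter ℂ}, Sit 𝓖 e g W → ∀ᶠ s in 𝓖,
      ‖(mu (exp s * g (tt e s)) - mu (exp s)) - mmf e g q (tt e s)‖ ≤ C * ‖tt e s‖ ^ M := by
  obtain ⟨q, C, X, hq0, hC, hX, hb⟩ := mu_exp M
  refine ⟨q, C * 2 ^ M + C, by positivity, ?_⟩
  intro 𝓖 h
  have he := h.he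
  filter_upwards [h.ret.eventually_ge_atTop 1, h.zret.eventually_ge_atTop 1, h.half,
    (exp_norm_tend h.toStr).eventually_ge_atTop (2 * X),
    (h.toStr.norm0 he).eventually_lt_const one_pos] with s a1 a2 a3 a4 a5
  have hn : 0 < ‖exp s‖ := by linarith
  have b1 := hb _ a1 (by linarith)
  have b2 := hb _ a2 (by linarith)
  have e1 : (exp s)⁻¹ = (tt e s) ^ e := (tt_pow he s).symm
  have e2 : (exp s * g (tt e s))⁻¹ = (tt e s) ^ e * (g (tt e s))⁻¹ := by rw [mul_inv, e1]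
  have ht : ‖(exp s)⁻¹‖ ≤ ‖tt e s‖ := by
    rw [e1, norm_pow]
    exact pow_le_of_le_one (norm_nonneg _) a5.le he.ne'
  have hz : ‖(exp s * g (tt e s))⁻¹‖ ≤ 2 * ‖tt e s‖ := by
    rw [norm_inv]
    calc ‖exp s * g (tt e s)‖⁻¹ ≤ (‖exp s‖ / 2)⁻¹ := inv_anti₀ (by positivity) a3
      _ = 2 * ‖(exp s)⁻¹‖ := by rw [norm_inv, inv_div]; ring
      _ ≤ _ := by linarith
  unfold mmf
  rw [← e2, ← e1]
  have e3 : mu (exp s * g (tt e s)) - mu (exp s) - (q.eval (exp s * g (tt e s))⁻¹ -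
      q.eval (exp s)⁻¹) = (mu (exp s * g (tt e s)) - q.eval (exp s * g (tt e s))⁻¹) -
      (mu (exp s) - q.eval (exp s)⁻¹) := by ring
  rw [e3]
  refine (norm_sub_le _ _).trans ?_
  have b3 : C * ‖(exp s * g (tt e s))⁻¹‖ ^ M ≤ C * (2 * ‖tt e s‖) ^ M :=
    mul_le_mul_of_nonneg_left (pow_le_pow_left₀ (norm_nonneg _) hz M) hC
  have b4 : C * ‖(exp s)⁻¹‖ ^ M ≤ C * ‖tt e s‖ ^ M :=
    mul_le_mul_of_nonneg_left (pow_le_pow_left₀ (norm_nonneg _) ht M) hC
  calc _ ≤ C * (2 * ‖tt e s‖) ^ M + C * ‖tt e s‖ ^ M := by linarith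
    _ = _ := by rw [mul_pow]; ring

/-- the remaining analytic function -/
noncomputable def kk (e : ℕ) (g W ρ : ℂ → ℂ) (q : Polynomial ℂ) (t : ℂ) : ℂ :=
  log (ρ t) - kap e W t - mmf e g q t

lemma kk_an (he : 0 < e) {g W ρ : ℂ → ℂ} (hg : AnalyticAt ℂ g 0) (hg0 : g 0 ≠ 0)
    (hW : AnalyticAt ℂ W 0) (hρ : AnalyticAt ℂ ρ 0) (hρ1 : ρ 0 = 1) (q : Polynomial ℂ) :
    AnalyticAt ℂ (kk e g W ρ q) 0 := by
  unfold kk
  refine ((hρ.clog ?_).sub (kap_an he hW)).sub (mmf_an hg hg0 q)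
  rw [hρ1]
  simp

lemma map_tt_le (h : Str 𝓕) (he : 0 < e) : map (tt e) 𝓕 ≤ 𝓝[≠] 0 := h.zero he

/-- the difference is constant -/
lemma eta_zero (hU : Up 𝓕) {g W : ℂ → ℂ} (h : Sit 𝓕 e g W) {ρ : ℂ → ℂ} {q : ℤ}
    (hρ : AnalyticAt ℂ ρ 0) (hρ0 : ρ 0 ≠ 0)
    (hR : ∀ᶠ s in 𝓕, Gamma (exp s * g (tt e s)) = exp (q * s / e) * ρ (tt e s) * Gamma (exp s)) :
    (∀ᶠ t in 𝓝 (0 : ℂ), W t = W 0) ∧ ∀ M : ℕ, ∃ (qq : Polynomial ℂ) (C : ℝ), 0 ≤ C ∧
      (∀ {𝓖 : Filter ℂ}, Sit 𝓖 e g W → ∀ᶠ s in 𝓖,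
        ‖(mu (exp s * g (tt e s)) - mu (exp s)) - mmf e g qq (tt e s)‖ ≤ C * ‖tt e s‖ ^ M) ∧
      Ord M (kk e g W ρ qq) := by
  have := hU.ne
  have he := h.he
  obtain ⟨hc, hρ1⟩ := const_rat hU h hρ hρ0 hR
  have hg00 : g 0 ≠ 0 := by rw [h.g0]; exact one_ne_zero
  -- the logarithm of the identity
  have h1 : ∀ᶠ s in 𝓕, log (ρ (tt e s)) = Er e g W s := by
    have hl : Tendsto (fun s => log (ρ (tt e s))) 𝓕 (𝓝 0) := by
      have h2 : AnalyticAt ℂ (fun t => log (ρ t)) 0 := hρ.clog (by rw [hρ1]; simp)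
      have h3 := h.toStr.lim he h2
      rw [hρ1, log_one] at h3
      exact h3
    have hd : Tendsto (fun s => ‖log (ρ (tt e s)) - Er e g W s‖) 𝓕 (𝓝 0) := by
      have := (hl.sub h.er_lim).norm
      rwa [sub_zero, norm_zero] at this
    filter_upwards [h.ident hR, hd.eventually_lt_const one_pos,
      (h.toStr.lim he hρ).eventually_ne hρ0] with s a1 a2 a3
    rw [hc, sub_self, zero_mul, exp_zero, one_mul] at a1
    have a4 : exp (log (ρ (tt e s)) - Er e g W s) = 1 := by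
      rw [exp_sub, exp_log a3, a1, div_self (exp_ne_zero _)]
    exact sub_eq_zero.1 (exp_inj_small a4 a2)
  have h2 : ∀ (M : ℕ) (qq : Polynomial ℂ) (C : ℝ),
      (∀ᶠ s in 𝓕, ‖(mu (exp s * g (tt e s)) - mu (exp s)) - mmf e g qq (tt e s)‖ ≤
        C * ‖tt e s‖ ^ M) → ∀ᶠ s in 𝓕, ‖(W (tt e s) - W 0) * s - kk e g W ρ qq (tt e s)‖ ≤
        C * ‖tt e s‖ ^ M := by
    intro M qq C hb
    filter_upwards [hb, h1] with s a1 a2
    have e1 : (W (tt e s) - W 0) * s - kk e g W ρ qq (tt e s) =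
        -((mu (exp s * g (tt e s)) - mu (exp s)) - mmf e g qq (tt e s)) := by
      unfold kk
      rw [a2]
      unfold Er
      ring
    rw [e1, norm_neg]
    exact a1
  have hWc : ∀ᶠ t in 𝓝 (0 : ℂ), W t = W 0 := by
    rcases ord_cases (h.Wan.sub analyticAt_const : AnalyticAt ℂ (fun t => W t - W 0) 0) with
      h0 | ⟨p, hh, hha, hh0, hhe⟩
    · filter_upwards [h0] with t ht using sub_eq_zero.1 ht
    · exfalso
      obtain ⟨qq, C, hC, hb⟩ := mu_diff e g W (p + 1)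
      exact dicho (η := fun t => W t - W 0) h.toStr he
        (kk_an he h.gan hg00 h.Wan hρ hρ1 qq) hha hh0 hhe (h2 _ qq C (hb h))
  refine ⟨hWc, fun M => ?_⟩
  obtain ⟨qq, C, hC, hb⟩ := mu_diff e g W M
  refine ⟨qq, C, hC, hb, ?_⟩
  have hne : NeBot (map (tt e) 𝓕) := map_neBot
  refine ord_of_le (kk_an he h.gan hg00 h.Wan hρ hρ1 qq) (map_tt_le h.toStr he) (C := C) ?_
  rw [eventually_map]
  filter_upwards [h2 M qq C (hb h), (h.toStr.zero' he).eventually hWc] with s a1 a2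
  rw [a2, sub_self, zero_mul, zero_sub, norm_neg] at a1
  exact a1

/-- the real axis -/
noncomputable def RR : Filter ℂ := map (fun x : ℝ => (x : ℂ)) atTop

lemma RR_str : Str RR where
  ne := by unfold RR; exact map_neBot
  re := by
    unfold RR
    rw [tendsto_map'_iff]
    exact tendsto_id
  im := by
    unfold RR
    rw [eventually_map]
    refine Eventually.of_forall fun x => ?_
    rw [ofReal_im, abs_zero]
    exact Real.pi_pos.le

lemma RR_sit (he : 0 < e) {g W : ℂ → ℂ} (hg : AnalyticAt ℂ g 0) (hW : AnalyticAt ℂ W 0)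
    (hgW : ∀ᶠ t in 𝓝 (0 : ℂ), g t = 1 + t ^ e * W t) : Sit RR e g W where
  toStr := RR_str
  he := he
  gan := hg
  Wan := hW
  gW := hgW
  ret := by
    unfold RR
    rw [tendsto_map'_iff]
    refine Real.tendsto_exp_atTop.congr fun x => ?_
    simp only [Function.comp]
    rw [← ofReal_exp, ofReal_re]
  log1 := by
    unfold RR
    rw [eventually_map]
    refine Eventually.of_forall fun x => ?_
    rw [← ofReal_exp, ← ofReal_log (Real.exp_pos x).le, Real.log_exp]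
  log2 := by
    have h0 : g 0 ≠ 0 := by
      have := hgW.self_of_nhds
      rw [this, zero_pow he.ne', zero_mul, add_zero]
      exact one_ne_zero
    have h1 := (RR_str.lim he hg).eventually_ne h0
    unfold RR at h1 ⊢
    rw [eventually_map] at h1 ⊢
    filter_upwards [h1] with x hx
    rw [← ofReal_exp, log_ofReal_mul (Real.exp_pos x) hx, Real.log_exp]

lemma zero_of_ord {f : ℂ → ℂ} (hf : AnalyticAt ℂ f 0) (h : ∀ M, Ord M f) :
    ∀ᶠ t in 𝓝 (0 : ℂ), f t = 0 := by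
  rcases ord_cases hf with h0 | ⟨p, g, hg, hg0, hge⟩
  · exact h0
  exfalso
  obtain ⟨g', hg', hg'e⟩ := h (p + 1)
  have h1 : ∀ᶠ t in 𝓝[≠] (0 : ℂ), g t = t * g' t := by
    filter_upwards [nhdsWithin_le_nhds hge, nhdsWithin_le_nhds hg'e, self_mem_nhdsWithin]
      with t a1 a2 a3
    have a4 : t ≠ 0 := a3
    rw [a1] at a2
    have : t ^ p * g t = t ^ p * (t * g' t) := by rw [a2]; ring
    exact mul_left_cancel₀ (pow_ne_zero _ a4) this
  have h2 : Tendsto g (𝓝[≠] (0 : ℂ)) (𝓝 (g 0)) :=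
    hg.continuousAt.tendsto.mono_left nhdsWithin_le_nhds
  have h3 : Tendsto (fun t => t * g' t) (𝓝[≠] (0 : ℂ)) (𝓝 (0 * g' 0)) :=
    (continuousAt_id.mul hg'.continuousAt).tendsto.mono_left nhdsWithin_le_nhds
  have h4 := tendsto_nhds_unique (h2.congr' h1) h3
  rw [zero_mul] at h4
  exact hg0 h4

/-- the function which will be equal to one -/
noncomputable def FF (e : ℕ) (ρ : ℂ → ℂ) (q : ℤ) (c s : ℂ) : ℂ :=
  exp (q * s / e) * ρ (tt e s) * Gamma (exp s) / Gamma (exp s + c)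

lemma FF_near (hU : Up 𝓕) {g W : ℂ → ℂ} (h : Sit 𝓕 e g W) {ρ : ℂ → ℂ} {q : ℤ}
    (hρ : AnalyticAt ℂ ρ 0) (hρ0 : ρ 0 ≠ 0)
    (hR : ∀ᶠ s in 𝓕, Gamma (exp s * g (tt e s)) = exp (q * s / e) * ρ (tt e s) * Gamma (exp s))
    (M : ℕ) : ∃ C : ℝ, 0 ≤ C ∧ ∀ᶠ x : ℝ in atTop,
      ‖FF e ρ q (W 0) x - 1‖ ≤ C * ‖tt e x‖ ^ M := by
  obtain ⟨hc, hρ1⟩ := const_rat hU h hρ hρ0 hR
  obtain ⟨hWc, hexp⟩ := eta_zero hU h hρ hρ0 hR
  have he := h.he
  obtain ⟨qq, C, hC, hb, hord⟩ := hexp (M + 1)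
  obtain ⟨C', hC', hb'⟩ := hord.bound
  have hs := RR_sit he h.gan h.Wan h.gW
  have key : ∀ᶠ s in RR, ‖FF e ρ q (W 0) s - 1‖ ≤ (2 * (C + C')) * ‖tt e s‖ ^ M := by
    have hz := hs.toStr.zero' he
    have hsmall : Tendsto (fun s : ℂ => (C + C') * ‖tt e s‖) RR (𝓝 0) := by
      have := (hs.toStr.norm0 he).const_mul (C + C')
      rwa [mul_zero] at this
    filter_upwards [hb hs, hz.eventually hb', hz.eventually hWc, hs.ratio,
      (hs.toStr.lim he hρ).eventually_ne hρ0, hs.ret.eventually_ge_atTop 1,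
      hz.eventually h.gW, hsmall.eventually_lt_const one_pos,
      (hs.toStr.norm0 he).eventually_lt_const one_pos, hs.zret.eventually_ge_atTop 1]
      with s a1 a2 a3 a4 a5 a6 a7 a8 a9 a10
    have hzz : exp s * g (tt e s) = exp s + W 0 := by
      rw [a7, mul_add, mul_one, ← mul_assoc, exp_tt he, one_mul, a3]
    have hGy : Gamma (exp s) ≠ 0 := Gamma_ne_zero_of_re_pos (by linarith)
    have hx : FF e ρ q (W 0) s = exp (kk e g W ρ qq (tt e s) -
        ((mu (exp s * g (tt e s)) - mu (exp s)) - mmf e g qq (tt e s))) := by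
      unfold FF
      rw [← hzz, a4, a3]
      have e1 : exp (mu (exp s * g (tt e s)) - mu (exp s) + W 0 * s + kap e W (tt e s)) =
          exp (q * s / e) * exp (mu (exp s * g (tt e s)) - mu (exp s) + kap e W (tt e s)) := by
        rw [← exp_add]
        congr 1
        rw [hc]
        ring
      have e2 : kk e g W ρ qq (tt e s) - ((mu (exp s * g (tt e s)) - mu (exp s)) -
          mmf e g qq (tt e s)) = log (ρ (tt e s)) - (mu (exp s * g (tt e s)) - mu (exp s) +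
          kap e W (tt e s)) := by
        unfold kk
        ring
      rw [e1, e2, exp_sub, exp_log a5]
      have e3 := exp_ne_zero (q * s / e)
      have e4 := exp_ne_zero (mu (exp s * g (tt e s)) - mu (exp s) + kap e W (tt e s))
      field_simp
    rw [hx]
    set X := kk e g W ρ qq (tt e s) - ((mu (exp s * g (tt e s)) - mu (exp s)) -
      mmf e g qq (tt e s)) with hX
    have b1 : ‖X‖ ≤ (C + C') * ‖tt e s‖ ^ (M + 1) := by
      refine (norm_sub_le _ _).trans ?_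
      linarith
    have b2 : ‖X‖ ≤ (C + C') * ‖tt e s‖ := by
      refine b1.trans (mul_le_mul_of_nonneg_left ?_ (by positivity))
      exact pow_le_of_le_one (norm_nonneg _) a9.le (by omega)
    have b3 : ‖X‖ ≤ (C + C') * ‖tt e s‖ ^ M := by
      refine b1.trans (mul_le_mul_of_nonneg_left ?_ (by positivity))
      exact pow_le_pow_of_le_one (norm_nonneg _) a9.le (by omega)
    have b4 : ‖exp X - 1‖ ≤ 2 * ‖X‖ := by
      have := Complex.norm_exp_sub_one_le (x := X) (by linarith)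
      exact this
    linarith
  refine ⟨2 * (C + C'), by positivity, ?_⟩
  unfold RR at key
  rw [eventually_map] at key
  exact key

end Pool.Agent.H489.CU
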