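import Pool.Agent.H489.CU.U4

/-!
The constant is an integer.
-/

open Complex Filter Topology

namespace Pool.Agent.H489.CU

open Pool.Agent.W688.GF Pool.Agent.H401R2

variable {e : ℕ}

/-- the shift in the logarithmic coordinate -/
noncomputable def sh (x : ℝ) : ℝ := x + Real.log (1 + Real.exp (-x))

lemma exp_sh (x : ℝ) : Real.exp (sh x) = Real.exp x + 1 := by
  unfold sh
  have := Real.exp_pos (-x)
  rw [Real.exp_add, Real.exp_log (by linarith), mul_add, mul_one, ← Real.exp_add, add_neg_cancel,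
    Real.exp_zero]

lemma le_sh (x : ℝ) : x ≤ sh x := by
  unfold sh
  have := Real.exp_pos (-x)
  have := Real.log_nonneg (show (1:ℝ) ≤ 1 + Real.exp (-x) by linarith)
  linarith

lemma sh_eq (he : 0 < e) (x : ℝ) : ((sh x : ℝ) : ℂ) = x + log (1 + (tt e x) ^ e) := by
  unfold sh
  rw [tt_pow he]
  have := Real.exp_pos (-x)
  push_cast
  rw [ofReal_log (by linarith)]
  push_cast
  rw [exp_neg]

lemma tt_sh (he : 0 < e) (x : ℝ) : tt e ((sh x : ℝ) : ℂ) =
    tt e x * exp (-(log (1 + (tt e x) ^ e) / e)) := by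
  rw [sh_eq he]
  unfold tt
  rw [← exp_add]
  congr 1
  ring

/-- the algebraic function which measures the shift -/
noncomputable def del (e : ℕ) (ρ : ℂ → ℂ) (q : ℤ) (c t : ℂ) : ℂ :=
  exp (q * log (1 + t ^ e) / e) * ρ (t * exp (-(log (1 + t ^ e) / e))) - ρ t * (1 + c * t ^ e)

lemma del_an (he : 0 < e) {ρ : ℂ → ℂ} (hρ : AnalyticAt ℂ ρ 0) (q : ℤ) (c : ℂ) :
    AnalyticAt ℂ (del e ρ q c) 0 := by
  unfold del
  have h1 : AnalyticAt ℂ (fun t : ℂ => log (1 + t ^ e)) 0 := by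
    apply AnalyticAt.clog
    · exact analyticAt_const.add (analyticAt_id.pow e)
    · simp [he.ne']
  have h2 : AnalyticAt ℂ (fun t : ℂ => exp (q * log (1 + t ^ e) / e)) 0 :=
    ((analyticAt_const.mul h1).div_const).cexp
  have h3 : AnalyticAt ℂ (fun t : ℂ => t * exp (-(log (1 + t ^ e) / e))) 0 :=
    analyticAt_id.mul (h1.div_const.neg.cexp)
  have h4 : AnalyticAt ℂ ρ ((fun t : ℂ => t * exp (-(log (1 + t ^ e) / e))) 0) := by
    simp only [zero_mul]
    exact hρ
  have h5 := AnalyticAt.fun_comp (f := fun t : ℂ => t * exp (-(log (1 + t ^ e) / e))) h4 h3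
  exact (h2.mul h5).sub (hρ.mul (analyticAt_const.add (analyticAt_const.mul
    (analyticAt_id.pow e))))

lemma FF_shift (he : 0 < e) {ρ : ℂ → ℂ} {q : ℤ} {c : ℂ} {x : ℝ}
    (h1 : Gamma (exp x + c) ≠ 0) (h2 : exp (x : ℂ) + c ≠ 0) :
    FF e ρ q c ((sh x : ℝ) : ℂ) * (ρ (tt e x) * (1 + c * (tt e x) ^ e)) =
      FF e ρ q c x * (exp (q * log (1 + (tt e x) ^ e) / e) *
        ρ (tt e x * exp (-(log (1 + (tt e x) ^ e) / e)))) := by
  have h3 : exp ((sh x : ℝ) : ℂ) = exp x + 1 := by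
    rw [← ofReal_exp, exp_sh]
    push_cast
    rfl
  have h4 : Gamma (exp (x : ℂ) + 1) = exp x * Gamma (exp x) := Gamma_add_one _ (exp_ne_zero _)
  have h5 : Gamma (exp (x : ℂ) + 1 + c) = (exp x + c) * Gamma (exp x + c) := by
    rw [show exp (x : ℂ) + 1 + c = (exp x + c) + 1 by ring, Gamma_add_one _ h2]
  have h6 : (tt e x) ^ e = (exp (x : ℂ))⁻¹ := tt_pow he _
  have h7 : exp ((q : ℂ) * ((sh x : ℝ) : ℂ) / e) = exp (q * x / e) *
      exp (q * log (1 + (tt e x) ^ e) / e) := by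
    rw [sh_eq he, ← exp_add]
    congr 1
    ring
  unfold FF
  rw [h3, h4, h5, tt_sh he, h7]
  have h8 : (1 : ℂ) + c * (tt e x) ^ e = (exp x + c) / exp x := by
    rw [h6]
    have := exp_ne_zero (x : ℂ)
    field_simp
  rw [h8]
  have := exp_ne_zero (x : ℂ)
  field_simp

lemma norm_tt_sh (x : ℝ) : ‖tt e ((sh x : ℝ) : ℂ)‖ ≤ ‖tt e x‖ := by
  rw [norm_tt, norm_tt, ofReal_re, ofReal_re]
  apply Real.exp_le_exp.2
  have h1 : x / e ≤ sh x / e := div_le_div_of_nonneg_right (le_sh x) (Nat.cast_nonneg e)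
  linarith

/-- the constant is an integer -/
theorem const_int (he : 0 < e) {ρ : ℂ → ℂ} {q : ℤ} {c : ℂ} (hρ : AnalyticAt ℂ ρ 0)
    (hρ1 : ρ 0 = 1) (hF : ∀ M : ℕ, ∃ C : ℝ, 0 ≤ C ∧ ∀ᶠ x : ℝ in atTop,
      ‖FF e ρ q c x - 1‖ ≤ C * ‖tt e x‖ ^ M) : ∃ n : ℤ, c = n := by
  have hρ0 : ρ 0 ≠ 0 := by rw [hρ1]; exact one_ne_zero
  have hR := RR_str
  have hexp : Tendsto (fun x : ℝ => (exp (x : ℂ) + c).re) atTop atTop := by
    have : Tendsto (fun x : ℝ => Real.exp x + c.re) atTop atTop :=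
      tendsto_atTop_add_const_right _ _ Real.tendsto_exp_atTop
    refine this.congr fun x => ?_
    rw [add_re, ← ofReal_exp, ofReal_re]
  have hgood : ∀ᶠ x : ℝ in atTop, Gamma (exp x + c) ≠ 0 ∧ exp (x : ℂ) + c ≠ 0 := by
    filter_upwards [hexp.eventually_gt_atTop 0] with x hx
    refine ⟨Gamma_ne_zero_of_re_pos hx, fun h => ?_⟩
    rw [h, zero_re] at hx
    exact lt_irrefl _ hx
  have htR : ∀ {P : ℂ → Prop}, (∀ᶠ t in 𝓝 (0 : ℂ), P t) → ∀ᶠ x : ℝ in atTop, P (tt e x) := by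
    intro P hP
    have := (hR.zero' he).eventually hP
    unfold RR at this
    rw [eventually_map] at this
    exact this
  have hsh : Tendsto sh atTop atTop := tendsto_atTop_mono le_sh tendsto_id
  have hnt : ∀ᶠ x : ℝ in atTop, ‖tt e (x : ℂ)‖ < 1 :=
    htR ((continuous_norm.tendsto (0 : ℂ)).eventually_lt_const (by rw [norm_zero]; exact one_pos))
  -- the coefficient `ρ (1 + c t^e)`
  have hco : AnalyticAt ℂ (fun t => ρ t * (1 + c * t ^ e)) 0 :=
    hρ.mul (analyticAt_const.add (analyticAt_const.mul (analyticAt_id.pow e)))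
  have hco1 : (fun t => ρ t * (1 + c * t ^ e)) 0 = 1 := by simp [hρ1, he.ne']
  have hcoev : ∀ᶠ t in 𝓝 (0 : ℂ), ‖ρ t * (1 + c * t ^ e)‖ < 2 ∧ ρ t * (1 + c * t ^ e) ≠ 0 := by
    have h1 := hco.continuousAt.norm
    have h2 : ‖(fun t => ρ t * (1 + c * t ^ e)) 0‖ < 2 := by rw [hco1, norm_one]; norm_num
    exact (h1.eventually_lt_const h2).and (hco.continuousAt.eventually_ne (by
      simp [hρ1, he.ne']))
  -- the function `del` vanishes
  have hdel : ∀ᶠ t in 𝓝 (0 : ℂ), del e ρ q c t = 0 := by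
    refine zero_of_ord (del_an he hρ q c) fun M => ?_
    obtain ⟨C, hC, hb⟩ := hF M
    obtain ⟨C1, hC1, hb1⟩ := hF 1
    have hne : NeBot (map (tt e) RR) := by
      have := hR.ne
      exact map_neBot
    refine ord_of_le (del_an he hρ q c) (map_tt_le hR he) (C := 8 * C) ?_
    rw [eventually_map]
    have hsm : Tendsto (fun x : ℝ => C1 * ‖tt e (x : ℂ)‖ ^ 1) atTop (𝓝 0) := by
      have h1 := (hR.norm0 he).const_mul C1
      rw [mul_zero] at h1
      unfold RR at h1
      rw [tendsto_map'_iff] at h1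
      exact h1.congr fun x => by simp [Function.comp]
    have key : ∀ᶠ x : ℝ in atTop, ‖del e ρ q c (tt e x)‖ ≤ 8 * C * ‖tt e x‖ ^ M := by
      filter_upwards [hb, hsh.eventually hb, hb1, hsm.eventually_lt_const
        (show (0:ℝ) < 1/2 by norm_num), hgood, htR hcoev] with x a1 a2 a3 a4 a5 a6
      have e1 := FF_shift he (ρ := ρ) (q := q) a5.1 a5.2
      have e2 : FF e ρ q c x * del e ρ q c (tt e x) = (FF e ρ q c ((sh x : ℝ) : ℂ) -
          FF e ρ q c x) * (ρ (tt e x) * (1 + c * (tt e x) ^ e)) := by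
        unfold del
        rw [mul_sub, ← e1]
        ring
      have hF1 : 1 / 2 ≤ ‖FF e ρ q c x‖ := by
        have := norm_sub_norm_le (1 : ℂ) (1 - FF e ρ q c x)
        rw [sub_sub_cancel, norm_one, norm_sub_rev] at this
        linarith
      have hd : ‖FF e ρ q c ((sh x : ℝ) : ℂ) - FF e ρ q c x‖ ≤ 2 * C * ‖tt e x‖ ^ M := by
        have b1 : FF e ρ q c ((sh x : ℝ) : ℂ) - FF e ρ q c x =
            (FF e ρ q c ((sh x : ℝ) : ℂ) - 1) - (FF e ρ q c x - 1) := by ring
        rw [b1]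
        refine (norm_sub_le _ _).trans ?_
        have b2 : C * ‖tt e ((sh x : ℝ) : ℂ)‖ ^ M ≤ C * ‖tt e x‖ ^ M :=
          mul_le_mul_of_nonneg_left (pow_le_pow_left₀ (norm_nonneg _) (norm_tt_sh x) M) hC
        linarith
      have e3 := congrArg norm e2
      rw [norm_mul, norm_mul] at e3
      have b3 : 1 / 2 * ‖del e ρ q c (tt e x)‖ ≤ (2 * C * ‖tt e x‖ ^ M) * 2 := by
        calc 1 / 2 * ‖del e ρ q c (tt e x)‖ ≤ ‖FF e ρ q c x‖ * ‖del e ρ q c (tt e x)‖ :=
              mul_le_mul_of_nonneg_right hF1 (norm_nonneg _)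
          _ = _ := e3
          _ ≤ _ := mul_le_mul hd a6.1.le (norm_nonneg _) (by positivity)
      linarith
    unfold RR
    rw [eventually_map]
    exact key
  -- periodicity
  have hper : ∀ᶠ x : ℝ in atTop, FF e ρ q c ((sh x : ℝ) : ℂ) = FF e ρ q c x := by
    filter_upwards [hgood, htR hcoev, htR hdel] with x a1 a2 a3
    have e1 := FF_shift he (ρ := ρ) (q := q) a1.1 a1.2
    unfold del at a3
    rw [sub_eq_zero.1 a3] at e1
    exact mul_right_cancel₀ a2.2 e1
  have hlim : Tendsto (fun x : ℝ => FF e ρ q c x) atTop (𝓝 1) := by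
    obtain ⟨C1, hC1, hb1⟩ := hF 1
    rw [tendsto_iff_norm_sub_tendsto_zero]
    have hsm : Tendsto (fun x : ℝ => C1 * ‖tt e (x : ℂ)‖ ^ 1) atTop (𝓝 0) := by
      have h1 := (hR.norm0 he).const_mul C1
      rw [mul_zero] at h1
      unfold RR at h1
      rw [tendsto_map'_iff] at h1
      exact h1.congr fun x => by simp [Function.comp]
    exact squeeze_zero' (Eventually.of_forall fun _ => norm_nonneg _) hb1 hsm
  obtain ⟨X₁, hX₁⟩ := eventually_atTop.1 hper
  have hone : ∀ x : ℝ, X₁ ≤ x → FF e ρ q c x = 1 := by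
    intro x hx
    have h1 : ∀ n : ℕ, X₁ ≤ sh^[n] x ∧ FF e ρ q c ((sh^[n] x : ℝ) : ℂ) = FF e ρ q c x ∧
        Real.exp (sh^[n] x) = Real.exp x + n := by
      intro n
      induction n with
      | zero => exact ⟨hx, rfl, by simp⟩
      | succ n ih =>
        rw [Function.iterate_succ_apply']
        refine ⟨ih.1.trans (le_sh _), ?_, ?_⟩
        · rw [hX₁ _ ih.1]
          exact ih.2.1
        · rw [exp_sh, ih.2.2]
          push_cast
          ring
    have h2 : Tendsto (fun n : ℕ => sh^[n] x) atTop atTop := by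
      have h3 : Tendsto (fun n : ℕ => Real.exp x + n) atTop atTop :=
        tendsto_atTop_add_const_left _ _ tendsto_natCast_atTop_atTop
      refine (Real.tendsto_log_atTop.comp h3).congr fun n => ?_
      simp only [Function.comp]
      rw [← (h1 n).2.2, Real.log_exp]
    have h3 := hlim.comp h2
    have h4 : Tendsto (fun n : ℕ => FF e ρ q c x) atTop (𝓝 1) := by
      refine h3.congr fun n => ?_
      exact (h1 n).2.1
    exact tendsto_nhds_unique tendsto_const_nhds h4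
  -- the entire function
  obtain ⟨r, hr, hball⟩ := Metric.eventually_nhds_iff_ball.1
    (hρ.eventually_analyticAt.and (hρ.continuousAt.eventually_ne hρ0))
  have he' : (0 : ℝ) < e := by exact_mod_cast he
  set X₂ : ℝ := -(e * Real.log r) with hX₂
  have hmem : ∀ s : ℂ, X₂ < s.re → tt e s ∈ Metric.ball (0 : ℂ) r := by
    intro s hs
    rw [mem_ball_zero_iff, norm_tt, ← Real.lt_log_iff_exp_lt hr]
    have : -(s.re / e) < Real.log r := by
      rw [neg_lt, lt_div_iff₀ he']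
      rw [hX₂] at hs
      linarith
    exact this
  set f : ℂ → ℂ := fun s => exp (q * s / e) * ρ (tt e s) * (Gamma (exp s + c))⁻¹ -
    (Gamma (exp s))⁻¹ with hf
  have hfan : AnalyticOnNhd ℂ f {s | X₂ < s.re} := by
    intro s hs
    have h1 : AnalyticAt ℂ (fun s : ℂ => exp (q * s / e)) s :=
      ((analyticAt_const.mul analyticAt_id).div_const).cexp
    have h2 : AnalyticAt ℂ (tt e) s := by
      unfold tt
      exact (analyticAt_id.div_const.neg).cexp
    have h3 : AnalyticAt ℂ (fun s => ρ (tt e s)) s :=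
      AnalyticAt.fun_comp (f := tt e) (hball _ (hmem s hs)).1 h2
    have hH : ∀ w, AnalyticAt ℂ (fun s : ℂ => (Gamma s)⁻¹) w := fun w =>
      Complex.differentiable_one_div_Gamma.analyticAt w
    have h4 : AnalyticAt ℂ (fun s : ℂ => exp s + c) s := (analyticAt_id.cexp).add analyticAt_const
    have h5 : AnalyticAt ℂ (fun s : ℂ => (Gamma (exp s + c))⁻¹) s :=
      AnalyticAt.fun_comp (g := fun s : ℂ => (Gamma s)⁻¹) (f := fun s : ℂ => exp s + c) (hH _) h4
    have h6 : AnalyticAt ℂ (fun s : ℂ => (Gamma (exp s))⁻¹) s :=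
      AnalyticAt.fun_comp (g := fun s : ℂ => (Gamma s)⁻¹) (f := fun s : ℂ => exp s) (hH _)
        (analyticAt_id.cexp)
    exact ((h1.mul h3).mul h5).sub h6
  have hpre : IsPreconnected {s : ℂ | X₂ < s.re} := (convex_halfSpace_re_gt X₂).isPreconnected
  have hreal : ∀ᶠ x : ℝ in atTop, f x = 0 := by
    filter_upwards [eventually_ge_atTop X₁, hgood] with x a1 a2
    have h1 := hone x a1
    unfold FF at h1
    rw [div_eq_one_iff_eq a2.1] at h1
    have h2 : Gamma (exp (x : ℂ)) ≠ 0 := by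
      apply Gamma_ne_zero_of_re_pos
      rw [← ofReal_exp, ofReal_re]
      exact Real.exp_pos x
    simp only [hf]
    rw [← h1, sub_eq_zero]
    have h3 : exp (q * (x : ℂ) / e) * ρ (tt e x) ≠ 0 := by
      intro h0
      rw [h0, zero_mul] at h1
      exact a2.1 h1.symm
    rw [mul_inv, ← mul_assoc, mul_inv_cancel₀ h3, one_mul]
  obtain ⟨X₃, hX₃⟩ := eventually_atTop.1 hreal
  set x₀ : ℝ := max X₂ X₃ + 1 with hx₀
  have hx₀2 : X₂ < x₀ := by
    have := le_max_left X₂ X₃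
    linarith
  have hx₀3 : X₃ < x₀ := by
    have := le_max_right X₂ X₃
    linarith
  have hfreq : ∃ᶠ z in 𝓝[≠] (x₀ : ℂ), f z = 0 := by
    have h1 : Tendsto (fun x : ℝ => (x : ℂ)) (𝓝[≠] x₀) (𝓝[≠] (x₀ : ℂ)) := by
      refine tendsto_nhdsWithin_iff.2 ⟨(continuous_ofReal.tendsto _).mono_left
        nhdsWithin_le_nhds, ?_⟩
      filter_upwards [self_mem_nhdsWithin] with x hx
      have hx' : x ≠ x₀ := hx
      show (x : ℂ) ≠ x₀
      exact_mod_cast hx'
    apply h1.frequently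
    apply Eventually.frequently
    filter_upwards [nhdsWithin_le_nhds (Ioi_mem_nhds hx₀3)] with x hx
    exact hX₃ x (le_of_lt hx)
  have hzero := hfan.eqOn_zero_of_preconnected_of_frequently_eq_zero hpre
    (show (x₀ : ℂ) ∈ {s : ℂ | X₂ < s.re} by simpa using hx₀2) hfreq
  -- evaluation at the poles
  obtain ⟨k, hk⟩ := exists_nat_gt (Real.exp X₂)
  have hk0 : (0 : ℝ) < k := (Real.exp_pos _).trans hk
  set s : ℂ := (Real.log k : ℂ) + Real.pi * I with hs
  have hsre : s.re = Real.log k := by simp [hs, Complex.log_re]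
  have hsm : X₂ < s.re := by
    rw [hsre, Real.lt_log_iff_exp_lt hk0]
    exact hk
  have hes : exp s = -(k : ℂ) := by
    rw [hs, exp_add, exp_pi_mul_I, ← ofReal_exp, Real.exp_log hk0]
    push_cast
    ring
  have h1 := hzero hsm
  simp only [hf, hes, Pi.zero_apply, Complex.Gamma_neg_nat_eq_zero, inv_zero, sub_zero,
    mul_eq_zero] at h1
  rcases h1 with (h1 | h1) | h1
  · exact absurd h1 (exp_ne_zero _)
  · exact absurd h1 (hball _ (hmem s hsm)).2
  · rw [inv_eq_zero, Complex.Gamma_eq_zero_iff] at h1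
    obtain ⟨m, hm⟩ := h1
    refine ⟨(k : ℤ) - m, ?_⟩
    push_cast
    linear_combination hm

end Pool.Agent.H489.CU
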