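import Pool.Agent.H489.CU.U5

/-!
The upper family: the two functions differ by an integer.
-/

open Complex Filter Topology

namespace Pool.Agent.H489.CU

variable {𝓕 : Filter ℂ} {e : ℕ}

theorem coreU (h : Up 𝓕) (he : 0 < e) {p : ℕ} (hp : 0 < p) {g ρ : ℂ → ℂ} {q : ℤ}
    (hg : AnalyticAt ℂ g 0) (hg0 : g 0 ≠ 0) (hρ : AnalyticAt ℂ ρ 0) (hρ0 : ρ 0 ≠ 0)
    (hre : ∀ᶠ s in 𝓕, 0 ≤ (zz e p g s).re) {C : ℝ}
    (hy : ∀ᶠ s : ℂ in 𝓕, |Real.log ‖Gamma (exp s)‖| ≤ C * s.re)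
    (hG : ∀ᶠ s : ℂ in 𝓕, |Real.log ‖Gamma (zz e p g s)‖| ≤ C * s.re)
    (hR : ∀ᶠ s in 𝓕, Gamma (zz e p g s) = exp (q * s / e) * ρ (tt e s) * Gamma (exp s)) :
    p = e ∧ ∃ n : ℤ, ∀ᶠ t in 𝓝 (0 : ℂ), g t = 1 + t ^ e * n := by
  obtain ⟨hpe, hgb⟩ := same_order h he hp hg hg0 hre hG
  subst hpe
  have hb : 0 < ‖g 0‖ := norm_pos_iff.2 hg0
  have hb1 := factor_one h he hg hb hgb hre hy hG
  rw [hb1, ofReal_one] at hgb
  obtain ⟨W, hW, hgW⟩ := diff_bounded h he hg hgb hre hy hG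
  have hS : Sit 𝓕 p g W := by
    refine ⟨h.toStr, he, hg, hW, hgW, re_tend h, (y_cond h).mono fun s hs => hs.2, ?_⟩
    refine log_z h he hg one_pos ?_
    rw [hgb, ofReal_one]
  have hR' : ∀ᶠ s in 𝓕, Gamma (exp s * g (tt p s)) =
      exp (q * s / p) * ρ (tt p s) * Gamma (exp s) := by
    filter_upwards [hR] with s hs
    rw [← zz_self he]
    exact hs
  obtain ⟨-, hρ1⟩ := const_rat h hS hρ hρ0 hR'
  obtain ⟨hWc, -⟩ := eta_zero h hS hρ hρ0 hR'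
  obtain ⟨n, hn⟩ := const_int he hρ hρ1 (FF_near h hS hρ hρ0 hR')
  refine ⟨rfl, n, ?_⟩
  filter_upwards [hgW, hWc] with t a1 a2
  rw [a1, a2, hn]

end Pool.Agent.H489.CU
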