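import Pool.Agent.H489.CU.U6

/-!
The lower family, by conjugation.
-/

open Complex Filter Topology ComplexConjugate

namespace Pool.Agent.H489.CU

variable {𝓕 : Filter ℂ} {e : ℕ}

/-- the conjugate function -/
noncomputable def cc (g : ℂ → ℂ) (t : ℂ) : ℂ := conj (g (conj t))

lemma cc_an {g : ℂ → ℂ} (hg : AnalyticAt ℂ g 0) : AnalyticAt ℂ (cc g) 0 := by
  have h1 : ∀ᶠ t in 𝓝 (0 : ℂ), DifferentiableAt ℂ g t :=
    hg.eventually_analyticAt.mono fun t ht => ht.differentiableAt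
  rw [analyticAt_iff_eventually_differentiableAt]
  have h2 : Tendsto (fun t : ℂ => conj t) (𝓝 0) (𝓝 0) := by
    have := Complex.continuous_conj.tendsto (0 : ℂ)
    rwa [map_zero] at this
  filter_upwards [h2.eventually h1] with t ht
  have h3 := ht.conj_conj
  rw [Complex.conj_conj] at h3
  exact h3

lemma cc_zero (g : ℂ → ℂ) : cc g 0 = conj (g 0) := by
  unfold cc
  rw [map_zero]

lemma tt_conj (e : ℕ) (s : ℂ) : tt e (conj s) = conj (tt e s) := by
  unfold tt
  rw [← exp_conj]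
  congr 1
  simp

lemma cc_tt (g : ℂ → ℂ) (s : ℂ) : cc g (tt e (conj s)) = conj (g (tt e s)) := by
  unfold cc
  rw [tt_conj, Complex.conj_conj]

lemma exp_conj_mul (q : ℤ) (s : ℂ) : exp (q * conj s / e) = conj (exp (q * s / e)) := by
  rw [← exp_conj]
  congr 1
  simp

lemma exp_conj_mul' (q : ℕ) (s : ℂ) : exp (q * conj s / e) = conj (exp (q * s / e)) := by
  rw [← exp_conj]
  congr 1
  simp

lemma zz_conj (p : ℕ) (g : ℂ → ℂ) (s : ℂ) : zz e p (cc g) (conj s) = conj (zz e p g s) := by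
  unfold zz
  rw [exp_conj_mul', cc_tt, map_mul]

lemma Str.conj (h : Str 𝓕) : Str (map (fun s : ℂ => conj s) 𝓕) where
  ne := by
    have := h.ne
    exact map_neBot
  re := by
    rw [tendsto_map'_iff]
    exact h.re.congr fun s => by simp
  im := by
    rw [eventually_map]
    filter_upwards [h.im] with s hs
    simpa using hs

/-- the right half plane -/
theorem coreR (h : Str 𝓕) (hyre : ∀ᶠ s in 𝓕, 0 ≤ (exp s).re)
    (him : (∀ᶠ s : ℂ in 𝓕, 0 ≤ s.im) ∨ (∀ᶠ s : ℂ in 𝓕, s.im ≤ 0))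
    (he : 0 < e) {p : ℕ} (hp : 0 < p) {g ρ : ℂ → ℂ} {q : ℤ}
    (hg : AnalyticAt ℂ g 0) (hg0 : g 0 ≠ 0) (hρ : AnalyticAt ℂ ρ 0) (hρ0 : ρ 0 ≠ 0)
    (hre : ∀ᶠ s in 𝓕, 0 ≤ (zz e p g s).re) {C : ℝ}
    (hy : ∀ᶠ s : ℂ in 𝓕, |Real.log ‖Gamma (exp s)‖| ≤ C * s.re)
    (hG : ∀ᶠ s : ℂ in 𝓕, |Real.log ‖Gamma (zz e p g s)‖| ≤ C * s.re)
    (hR : ∀ᶠ s in 𝓕, Gamma (zz e p g s) = exp (q * s / e) * ρ (tt e s) * Gamma (exp s)) :
    p = e ∧ ∃ n : ℤ, ∀ᶠ t in 𝓝 (0 : ℂ), g t = 1 + t ^ e * n := by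
  rcases him with him | him
  · exact coreU (up_of h hyre him hy) he hp hg hg0 hρ hρ0 hre hy hG hR
  · set 𝓖 := map (fun s : ℂ => conj s) 𝓕 with h𝓖
    have hy' : ∀ᶠ s : ℂ in 𝓖, |Real.log ‖Gamma (exp s)‖| ≤ C * s.re := by
      rw [h𝓖, eventually_map]
      filter_upwards [hy] with s hs
      rw [exp_conj, Gamma_conj, RCLike.norm_conj, conj_re]
      exact hs
    have hU : Up 𝓖 := by
      refine up_of (C := C) h.conj ?_ ?_ hy'
      · rw [h𝓖, eventually_map]
        filter_upwards [hyre] with s hs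
        rw [exp_conj, conj_re]
        exact hs
      · rw [h𝓖, eventually_map]
        filter_upwards [him] with s hs
        rw [conj_im]
        linarith
    obtain ⟨hpe, n, hn⟩ := coreU (C := C) (q := q) hU he hp (cc_an hg)
      (by rw [cc_zero]; simpa using hg0) (cc_an hρ) (by rw [cc_zero]; simpa using hρ0)
      (by
        rw [h𝓖, eventually_map]
        filter_upwards [hre] with s hs
        rw [zz_conj, conj_re]
        exact hs) hy'
      (by
        rw [h𝓖, eventually_map]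
        filter_upwards [hG] with s hs
        rw [zz_conj, Gamma_conj, RCLike.norm_conj, conj_re]
        exact hs)
      (by
        rw [h𝓖, eventually_map]
        filter_upwards [hR] with s hs
        rw [zz_conj, Gamma_conj, hs, exp_conj, Gamma_conj, exp_conj_mul, cc_tt, map_mul, map_mul])
    refine ⟨hpe, n, ?_⟩
    have h2 : Tendsto (fun t : ℂ => conj t) (𝓝 0) (𝓝 0) := by
      have := Complex.continuous_conj.tendsto (0 : ℂ)
      rwa [map_zero] at this
    filter_upwards [h2.eventually hn] with t ht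
    unfold cc at ht
    rw [Complex.conj_conj] at ht
    have h3 := congrArg conj ht
    rw [Complex.conj_conj] at h3
    rw [h3]
    simp

/-- the first function in the right half plane, the second close to the poles -/
theorem coreRN (h : Str 𝓕) (hyre : ∀ᶠ s in 𝓕, 0 ≤ (exp s).re)
    (him : (∀ᶠ s : ℂ in 𝓕, 0 ≤ s.im) ∨ (∀ᶠ s : ℂ in 𝓕, s.im ≤ 0))
    (he : 0 < e) {p : ℕ} (hp : 0 < p) {g : ℂ → ℂ}
    (hg : AnalyticAt ℂ g 0) (hg0 : g 0 ≠ 0) {C : ℝ}
    (hy : ∀ᶠ s : ℂ in 𝓕, |Real.log ‖Gamma (exp s)‖| ≤ C * s.re)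
    (hN : ∀ᶠ s in 𝓕, ∃ k : ℕ, ‖zz e p g s + k‖ ≤ Real.exp (-‖zz e p g s‖)) : False := by
  rcases him with him | him
  · exact no_pole (up_of h hyre him hy) he hp hg hg0 hN
  · set 𝓖 := map (fun s : ℂ => conj s) 𝓕 with h𝓖
    have hU : Up 𝓖 := by
      refine up_of (C := C) h.conj ?_ ?_ ?_
      · rw [h𝓖, eventually_map]
        filter_upwards [hyre] with s hs
        rw [exp_conj, conj_re]
        exact hs
      · rw [h𝓖, eventually_map]
        filter_upwards [him] with s hs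
        rw [conj_im]
        linarith
      · rw [h𝓖, eventually_map]
        filter_upwards [hy] with s hs
        rw [exp_conj, Gamma_conj, RCLike.norm_conj, conj_re]
        exact hs
    refine no_pole hU he hp (cc_an hg) (by rw [cc_zero]; simpa using hg0) ?_
    rw [h𝓖, eventually_map]
    filter_upwards [hN] with s hs
    obtain ⟨k, hk⟩ := hs
    refine ⟨k, ?_⟩
    rw [zz_conj, RCLike.norm_conj]
    have : conj (zz e p g s) + (k : ℂ) = conj (zz e p g s + k) := by simp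
    rw [this, RCLike.norm_conj]
    exact hk

end Pool.Agent.H489.CU
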