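import Pool.Agent.H489.CU.U7

/-!
The first function close to the poles, the second one in the right half plane.
-/

open Complex Filter Topology ComplexConjugate

namespace Pool.Agent.H489.CU

variable {𝓕 : Filter ℂ} {e : ℕ}

/-- the direction of the second function in the right half plane -/
lemma vec_tend (h : Str 𝓕) (he : 0 < e) {p : ℕ} (hp : 0 < p) {g : ℂ → ℂ}
    (hg : AnalyticAt ℂ g 0) (hg0 : g 0 ≠ 0) (hre : ∀ᶠ s in 𝓕, 0 ≤ (zz e p g s).re) {C : ℝ}
    (hG : ∀ᶠ s : ℂ in 𝓕, |Real.log ‖Gamma (zz e p g s)‖| ≤ C * s.re) :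
    Tendsto (fun s : ℂ => (exp (I * ((p / e : ℝ) : ℂ) * s.im) * (g 0 / ‖g 0‖)).re * s.re) 𝓕
      (𝓝 (Real.pi / (2 * (p / e : ℝ)))) := by
  have := h.ne
  have hpi := Real.pi_pos
  have he' : (0 : ℝ) < e := by exact_mod_cast he
  have hp' : (0 : ℝ) < p := by exact_mod_cast hp
  set σ : ℝ := p / e with hσdef
  have hσ : 0 < σ := by positivity
  have hz := zz_norm_tend h he hp hg hg0
  have hlog : ∀ᶠ s in 𝓕, Real.log ‖zz e p g s‖ = σ * s.re + Real.log ‖g (tt e s)‖ := by
    filter_upwards [(h.lim he hg).eventually_ne hg0] with s hs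
    rw [norm_zz, Real.log_mul (Real.exp_pos _).ne' (norm_ne_zero_iff.2 hs), Real.log_exp]
  have hlg : Tendsto (fun s => Real.log ‖g (tt e s)‖) 𝓕 (𝓝 (Real.log ‖g 0‖)) :=
    ((Real.continuousAt_log (norm_ne_zero_iff.2 hg0)).tendsto.comp (h.lim he hg).norm)
  have h1 := reG (z := zz e p g) (C := 2 * |C| / σ) hz hre (by
    filter_upwards [hG, hlog, h.re.eventually_ge_atTop (2 * (|Real.log ‖g 0‖| + 1) / σ),
      hlg.norm.eventually_lt_const (show ‖Real.log ‖g 0‖‖ < |Real.log ‖g 0‖| + 1 by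
        rw [Real.norm_eq_abs]; linarith)] with s a1 a2 a3 a4
    refine a1.trans ?_
    rw [a2]
    rw [div_le_iff₀ hσ] at a3
    rw [Real.norm_eq_abs] at a4
    have a5 := (abs_lt.1 a4).1
    have a6 : σ * s.re / 2 ≤ σ * s.re + Real.log ‖g (tt e s)‖ := by linarith
    have a7 : 0 ≤ s.re := by
      have := abs_nonneg (Real.log ‖g 0‖)
      nlinarith
    calc C * s.re ≤ |C| * s.re := mul_le_mul_of_nonneg_right (le_abs_self _) a7
      _ = 2 * |C| / σ * (σ * s.re / 2) := by field_simp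
      _ ≤ _ := mul_le_mul_of_nonneg_left a6 (by positivity))
  -- multiply by `L` only
  have h2 : Tendsto (fun s => (zz e p g s).re / ‖zz e p g s‖) 𝓕 (𝓝 0) := by
    have h3 := h1.mul (tendsto_inv_atTop_zero.comp (Real.tendsto_log_atTop.comp hz))
    rw [mul_zero] at h3
    refine h3.congr' ?_
    filter_upwards [(Real.tendsto_log_atTop.comp hz).eventually_gt_atTop 0] with s hs
    simp only [Function.comp] at hs ⊢
    field_simp
  have h3 : Tendsto (fun s : ℂ => (zz e p g s).re / ‖zz e p g s‖ * s.re) 𝓕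
      (𝓝 (Real.pi / (2 * σ))) := by
    have h4 := (h1.sub (h2.mul hlg)).div_const σ
    rw [zero_mul, sub_zero] at h4
    have e1 : Real.pi / 2 / σ = Real.pi / (2 * σ) := by rw [div_div]
    rw [e1] at h4
    refine h4.congr' ?_
    filter_upwards [hlog] with s hs
    rw [hs]
    field_simp
    ring
  have h5 := zz_dir (p := p) h he hg hg0
  have h6 : Tendsto (fun s : ℂ => (exp (I * (σ : ℂ) * s.im) * (g 0 / ‖g 0‖)).re * s.re -
      (zz e p g s).re / ‖zz e p g s‖ * s.re) 𝓕 (𝓝 0) := by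
    refine squeeze_zero_norm' ?_ h5
    filter_upwards [h.re.eventually_ge_atTop 0] with s a1
    rw [← sub_mul, norm_mul, Real.norm_eq_abs, Real.norm_eq_abs, abs_of_nonneg a1]
    apply mul_le_mul_of_nonneg_right _ a1
    rw [norm_sub_rev]
    refine le_trans (le_of_eq ?_) (abs_re_le_norm _)
    congr 1
    rw [sub_re]
    congr 1
    rw [div_ofReal_re]
  have h7 := h6.add h3
  rw [zero_add] at h7
  refine h7.congr fun s => ?_
  ring

lemma norm_exp_I (x : ℝ) : ‖exp (I * x)‖ = 1 := by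
  rw [norm_exp]
  have : (I * (x : ℂ)).re = 0 := by simp
  rw [this, Real.exp_zero]

/-- close to the poles, the argument is close to `±π` -/
lemma near_pole_arg (h : Str 𝓕) {τ : ℝ} (hτ : τ = Real.pi ∨ τ = -Real.pi)
    (him : ∀ᶠ s : ℂ in 𝓕, 0 ≤ s.im * τ)
    (hN : ∀ᶠ s in 𝓕, ∃ k : ℕ, ‖exp s + k‖ ≤ Real.exp (-‖exp s‖)) :
    Tendsto (fun s : ℂ => (s.im - τ) * s.re) 𝓕 (𝓝 0) := by
  have := h.ne
  have hpi := Real.pi_pos
  have h1 : Tendsto (fun s : ℂ => Real.pi * (s.re ^ 1 / ‖exp s‖)) 𝓕 (𝓝 0) := by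
    have h1 : Tendsto (fun s : ℂ => s.re ^ 1 / ‖exp s‖) 𝓕 (𝓝 0) := by
      have h1 := (Real.tendsto_pow_mul_exp_neg_atTop_nhds_zero 1).comp h.re
      refine h1.congr fun s => ?_
      simp only [Function.comp]
      rw [norm_exp, Real.exp_neg]
      rfl
    have h2 := h1.const_mul Real.pi
    rwa [mul_zero] at h2
  refine squeeze_zero_norm' ?_ h1
  filter_upwards [h.re.eventually_ge_atTop 0, h.im, him, hN,
    (exp_norm_tend h).eventually_ge_atTop 1] with s a1 a2 a3 ⟨k, a4⟩ a5
  have b0 : 0 < ‖exp s‖ := by linarith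
  -- the direction
  have b1 : ‖exp (I * s.im) + 1‖ ≤ 2 * ‖exp s + k‖ := by
    have e1 : exp (I * s.im) + 1 =
        ((exp s + k) + ((‖exp s‖ - k : ℝ) : ℂ)) / ‖exp s‖ := by
      have e2 : exp s = ‖exp s‖ * exp (I * s.im) := by
        rw [norm_exp, ofReal_exp, ← exp_add]
        congr 1
        rw [mul_comm I]
        exact (re_add_im s).symm
      have e3 : (‖exp s‖ : ℂ) ≠ 0 := by exact_mod_cast b0.ne'
      rw [eq_div_iff e3]
      push_cast
      linear_combination -e2
    rw [e1, norm_div, norm_real, Real.norm_eq_abs, abs_of_pos b0]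
    have b2 : ‖(((‖exp s‖ - k : ℝ)) : ℂ)‖ ≤ ‖exp s + k‖ := by
      rw [norm_real, Real.norm_eq_abs]
      have := abs_norm_sub_norm_le (exp s) (-(k : ℂ))
      rw [norm_neg, Complex.norm_natCast, sub_neg_eq_add] at this
      exact this
    calc _ ≤ (‖exp s + k‖ + ‖exp s + k‖) / ‖exp s‖ :=
          div_le_div_of_nonneg_right ((norm_add_le _ _).trans (by linarith)) b0.le
      _ ≤ (‖exp s + k‖ + ‖exp s + k‖) / 1 :=
          div_le_div_of_nonneg_left (by positivity) one_pos a5
      _ = _ := by ring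
  -- comparison with the angle
  have b2 : 2 / Real.pi * |s.im - τ| ≤ ‖exp (I * s.im) + 1‖ := by
    have hx : |(s.im - τ) / 2| ≤ Real.pi / 2 := by
      rw [abs_div, abs_two]
      have h2 := abs_le.1 a2
      have : |s.im - τ| ≤ Real.pi := by
        rcases hτ with h3 | h3
        · rw [h3] at a3 ⊢
          have : 0 ≤ s.im := nonneg_of_mul_nonneg_left a3 hpi
          rw [abs_le]
          constructor <;> linarith
        · rw [h3] at a3 ⊢
          have : s.im ≤ 0 := by nlinarith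
          rw [abs_le]
          constructor <;> linarith
      linarith
    have h2 := Real.mul_le_sin (abs_nonneg _) hx
    have h3 : ‖exp (I * s.im) + 1‖ = 2 * |Real.sin ((s.im - τ) / 2)| := by
      have e1 : exp (I * s.im) + 1 = exp (I * ((s.im - τ : ℝ) : ℂ) / 2) * (-2 * I *
          ((Real.sin ((s.im - τ) / 2) : ℝ) : ℂ)) := by
        rw [ofReal_sin]
        unfold Complex.sin
        push_cast
        have e2 : exp (I * s.im) = - exp (I * (s.im - τ)) := by
          have : exp (I * s.im) = exp (I * (s.im - τ)) * exp (I * τ) := by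
            rw [← exp_add]
            congr 1
            ring
          rw [this]
          have : exp (I * (τ : ℂ)) = -1 := by
            rcases hτ with h3 | h3
            · rw [h3, mul_comm, exp_pi_mul_I]
            · rw [h3]
              push_cast
              rw [mul_neg, exp_neg, mul_comm, exp_pi_mul_I]
              norm_num
          rw [this]
          ring
        rw [e2]
        have e3 : exp (I * ((s.im : ℂ) - τ)) = exp (I * ((s.im : ℂ) - τ) / 2) *
            exp (I * ((s.im : ℂ) - τ) / 2) := by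
          rw [← exp_add]
          congr 1
          ring
        have e4 : exp (((s.im : ℂ) - τ) / 2 * I) = exp (I * ((s.im : ℂ) - τ) / 2) := by
          congr 1
          ring
        have e5 : exp (-(((s.im : ℂ) - τ) / 2) * I) = (exp (I * ((s.im : ℂ) - τ) / 2))⁻¹ := by
          rw [← exp_neg]
          congr 1
          ring
        rw [e3, e4, e5]
        have e6 := exp_ne_zero (I * ((s.im : ℂ) - τ) / 2)
        field_simp
        linear_combination (1 - exp (I * ((s.im : ℂ) - τ) / 2) ^ 2) * I_sq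
      rw [e1, norm_mul, norm_mul, norm_mul, norm_I, norm_real, Real.norm_eq_abs]
      have e2 : ‖exp (I * ((s.im - τ : ℝ) : ℂ) / 2)‖ = 1 := by
        have : I * ((s.im - τ : ℝ) : ℂ) / 2 = I * (((s.im - τ) / 2 : ℝ) : ℂ) := by
          push_cast
          ring
        rw [this, norm_exp_I]
      rw [e2]
      simp
    rw [h3]
    have h4 : |Real.sin ((s.im - τ) / 2)| = Real.sin |(s.im - τ) / 2| := by
      rcases abs_cases ((s.im - τ) / 2) with ⟨h5, h6⟩ | ⟨h5, h6⟩
      · rw [h5, abs_of_nonneg]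
        apply Real.sin_nonneg_of_nonneg_of_le_pi h6
        rw [h5] at hx
        linarith
      · rw [h5, Real.sin_neg, abs_of_nonpos]
        apply Real.sin_nonpos_of_nonpos_of_neg_pi_le h6.le
        rw [h5] at hx
        linarith
    rw [h4]
    have h5 : |(s.im - τ) / 2| = |s.im - τ| / 2 := by rw [abs_div, abs_two]
    rw [h5] at h2 ⊢
    linarith
  have b3 : Real.exp (-‖exp s‖) ≤ (‖exp s‖)⁻¹ := by
    rw [Real.exp_neg]
    apply inv_anti₀ b0
    have := Real.add_one_le_exp ‖exp s‖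
    linarith
  have b4 : |s.im - τ| ≤ Real.pi * (‖exp s‖)⁻¹ := by
    have : 2 / Real.pi * |s.im - τ| ≤ 2 * (‖exp s‖)⁻¹ := by linarith
    calc |s.im - τ| = Real.pi / 2 * (2 / Real.pi * |s.im - τ|) := by field_simp
      _ ≤ Real.pi / 2 * (2 * (‖exp s‖)⁻¹) := mul_le_mul_of_nonneg_left this (by positivity)
      _ = _ := by ring
  rw [norm_mul, Real.norm_eq_abs, Real.norm_eq_abs, abs_of_nonneg a1, pow_one]
  calc |s.im - τ| * s.re ≤ (Real.pi * (‖exp s‖)⁻¹) * s.re := mul_le_mul_of_nonneg_right b4 a1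
    _ = _ := by rw [div_eq_mul_inv]; ring

/-- the first function close to the poles and the second one in the right half plane is impossible -/
theorem coreNR (h : Str 𝓕)
    (him : (∀ᶠ s : ℂ in 𝓕, 0 ≤ s.im) ∨ (∀ᶠ s : ℂ in 𝓕, s.im ≤ 0))
    (he : 0 < e) {p : ℕ} (hp : 0 < p) {g : ℂ → ℂ}
    (hg : AnalyticAt ℂ g 0) (hg0 : g 0 ≠ 0)
    (hN : ∀ᶠ s in 𝓕, ∃ k : ℕ, ‖exp s + k‖ ≤ Real.exp (-‖exp s‖))
    (hre : ∀ᶠ s in 𝓕, 0 ≤ (zz e p g s).re) {C : ℝ}
    (hG : ∀ᶠ s : ℂ in 𝓕, |Real.log ‖Gamma (zz e p g s)‖| ≤ C * s.re) : False := by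
  have := h.ne
  have hpi := Real.pi_pos
  have he' : (0 : ℝ) < e := by exact_mod_cast he
  have hp' : (0 : ℝ) < p := by exact_mod_cast hp
  have hσ : (0 : ℝ) < p / e := by positivity
  obtain ⟨τ, hτ, him'⟩ : ∃ τ : ℝ, (τ = Real.pi ∨ τ = -Real.pi) ∧
      ∀ᶠ s : ℂ in 𝓕, 0 ≤ s.im * τ := by
    rcases him with him | him
    · refine ⟨Real.pi, Or.inl rfl, ?_⟩
      filter_upwards [him] with s hs
      positivity
    · refine ⟨-Real.pi, Or.inr rfl, ?_⟩
      filter_upwards [him] with s hs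
      nlinarith
  have h1 := near_pole_arg h hτ him' hN
  have h2 := vec_tend h he hp hg hg0 hre hG
  set σ : ℝ := p / e with hσdef
  set ω : ℂ := g 0 / ‖g 0‖ with hω
  have hωn : ‖ω‖ = 1 := by
    rw [hω, norm_div, norm_real, norm_norm, div_self (norm_ne_zero_iff.2 hg0)]
  set ℓ : ℂ := exp (I * σ * τ) * ω with hℓ
  -- comparison
  have h3 : Tendsto (fun s : ℂ => (exp (I * (σ : ℂ) * s.im) * ω).re * s.re - ℓ.re * s.re) 𝓕
      (𝓝 0) := by
    have h4 := (h1.norm).const_mul σ
    rw [norm_zero, mul_zero] at h4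
    refine squeeze_zero_norm' ?_ h4
    filter_upwards [h.re.eventually_ge_atTop 0] with s a1
    rw [← sub_mul, norm_mul, norm_mul, Real.norm_eq_abs, Real.norm_eq_abs, abs_of_nonneg a1,
      ← mul_assoc]
    apply mul_le_mul_of_nonneg_right _ a1
    rw [← sub_re]
    refine (abs_re_le_norm _).trans ?_
    rw [hℓ, ← sub_mul, norm_mul, hωn, mul_one]
    have e1 : exp (I * (σ : ℂ) * s.im) - exp (I * σ * τ) = exp (I * σ * τ) *
        (exp (I * ((σ * (s.im - τ) : ℝ) : ℂ)) - 1) := by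
      rw [mul_sub, mul_one, ← exp_add]
      congr 2
      push_cast
      ring
    rw [e1, norm_mul]
    have e2 : ‖exp (I * (σ : ℂ) * τ)‖ = 1 := by
      have : I * (σ : ℂ) * τ = I * ((σ * τ : ℝ) : ℂ) := by push_cast; ring
      rw [this, norm_exp_I]
    rw [e2, one_mul]
    have e3 := Real.norm_exp_I_mul_ofReal_sub_one_le (x := σ * (s.im - τ))
    refine e3.trans ?_
    rw [Real.norm_eq_abs, Real.norm_eq_abs, abs_mul, abs_of_pos hσ]
  have h4 : Tendsto (fun s : ℂ => ℓ.re * s.re) 𝓕 (𝓝 (Real.pi / (2 * σ))) := by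
    have h5 := h2.sub h3
    rw [sub_zero] at h5
    refine h5.congr fun s => ?_
    ring
  by_cases h0 : ℓ.re = 0
  · rw [h0] at h4
    simp only [zero_mul] at h4
    have h5 := tendsto_nhds_unique h4 tendsto_const_nhds
    have : 0 < Real.pi / (2 * σ) := by positivity
    linarith
  · have h5 : Tendsto (fun s : ℂ => |ℓ.re * s.re|) 𝓕 atTop := by
      have h6 : Tendsto (fun s : ℂ => |ℓ.re| * s.re) 𝓕 atTop :=
        h.re.const_mul_atTop (abs_pos.2 h0)
      refine h6.congr' ?_
      filter_upwards [h.re.eventually_ge_atTop 0] with s hs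
      rw [abs_mul, abs_of_nonneg hs]
    exact not_tendsto_nhds_of_tendsto_atTop h5 _ h4.abs

end Pool.Agent.H489.CU
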